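import Mathlib

set_option autoImplicit false

/-!
Positive harmonic functions vanishing on a relatively dense closed subset of the real line:
definitions for MP_cebbdc_an.
-/

namespace Pool.Agent.TH308.RD

open MeasureTheory Set Complex Filter Topology

/-- `U` is a positive harmonic function in the complement of the closed set `E ⊆ ℝ`, continuous in
the whole plane, zero on `E`, symmetric about the real axis, and `U (i y) / y → 1`. -/
structure Adm (E : Set ℝ) (U : ℂ → ℝ) : Prop where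
  closed : IsClosed E
  cont : Continuous U
  zero : ∀ x ∈ E, U (x : ℂ) = 0
  pos : ∀ z : ℂ, z ∉ ((fun t : ℝ => (t : ℂ)) '' E) → 0 < U z
  harm : ∀ z : ℂ, z ∉ ((fun t : ℝ => (t : ℂ)) '' E) → InnerProductSpace.HarmonicAt U z
  symm : ∀ z : ℂ, U ((starRingEnd ℂ) z) = U z
  norm : Tendsto (fun y : ℝ => U ((y : ℂ) * I) / y) atTop (𝓝 1)

/-- every interval of length `N` meets `E` in a set of measure at least `δ` -/
def RelDense (N δ : ℝ) (E : Set ℝ) : Prop :=
  ∀ a : ℝ, ENNReal.ofReal δ ≤ volume (E ∩ Icc a (a + N))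

/-- the point `x + i y` -/
noncomputable def pt (x y : ℝ) : ℂ := (x : ℂ) + (y : ℂ) * I

@[simp] lemma pt_re (x y : ℝ) : (pt x y).re = x := by simp [pt]
@[simp] lemma pt_im (x y : ℝ) : (pt x y).im = y := by simp [pt]

lemma continuous_pt : Continuous (fun p : ℝ × ℝ => pt p.1 p.2) := by
  unfold pt
  fun_prop

lemma Adm.nonneg {E : Set ℝ} {U : ℂ → ℝ} (h : Adm E U) (z : ℂ) : 0 ≤ U z := by
  by_cases hz : z ∈ ((fun t : ℝ => (t : ℂ)) '' E)
  · obtain ⟨x, hx, rfl⟩ := hz
    exact (h.zero x hx).ge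
  · exact (h.pos z hz).le

lemma not_mem_of_im {E : Set ℝ} {z : ℂ} (hz : z.im ≠ 0) : z ∉ ((fun t : ℝ => (t : ℂ)) '' E) := by
  rintro ⟨x, _, rfl⟩
  simp at hz

lemma Adm.symm_pt {E : Set ℝ} {U : ℂ → ℝ} (h : Adm E U) (x y : ℝ) : U (pt x (-y)) = U (pt x y) := by
  rw [← h.symm (pt x y)]
  congr 1
  apply Complex.ext <;> simp [pt]

lemma Adm.abs_pt {E : Set ℝ} {U : ℂ → ℝ} (h : Adm E U) (x y : ℝ) : U (pt x |y|) = U (pt x y) := by
  rcases abs_cases y with ⟨h1, _⟩ | ⟨h1, _⟩
  · rw [h1]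
  · rw [h1, h.symm_pt]

/-- the Green function of the complement of `[-1, 1]` with pole at infinity -/
noncomputable def green (q : ℂ) : ℝ :=
  Real.log ((‖q - 1‖ + ‖q + 1‖) / 2 + √(((‖q - 1‖ + ‖q + 1‖) / 2) ^ 2 - 1))

/-- the periodic set with one gap of length `1 - δ`, centred at `n`, for each integer `n` -/
def Eper (δ : ℝ) : Set ℝ := {x : ℝ | |Real.cos (Real.pi * x)| ≤ Real.sin (Real.pi * δ / 2)}

/-- the normalised harmonic function of the complement of `Eper δ` -/
noncomputable def Uper (δ : ℝ) (z : ℂ) : ℝ :=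
  green (Complex.cos (Real.pi * z) / Real.sin (Real.pi * δ / 2)) / Real.pi

end Pool.Agent.TH308.RD
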