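import Pool.Agent.TH308.RD.Defs
set_option autoImplicit false
namespace Pool.Agent.TH308.RD
open MeasureTheory Set Complex Filter Topology

namespace J2

/-- the point of the circle of radius `R` tangent to the real axis at `0`, at arc length `τ` -/
noncomputable def zz (R τ : ℝ) : ℂ := pt (R * Real.sin (τ / R)) (R * (1 - Real.cos (τ / R)))

/-- the Poisson kernel of the disc -/
noncomputable def kk (R : ℝ) (w : ℂ) (τ : ℝ) : ℝ :=
  (2 * R * w.im - ‖w‖ ^ 2) / (2 * Real.pi * R * ‖zz R τ - w‖ ^ 2)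

lemma circleMap_eq (R θ : ℝ) : circleMap ((R : ℂ) * I) R (θ - Real.pi / 2) =
    pt (R * Real.sin θ) (R * (1 - Real.cos θ)) := by
  have e : circleMap ((R : ℂ) * I) R (θ - Real.pi / 2) =
      (R : ℂ) * I + (R : ℂ) * Complex.exp (((θ - Real.pi / 2 : ℝ) : ℂ) * I) := by
    simp [circleMap]
  rw [e]
  apply Complex.ext
  · rw [pt_re, Complex.add_re, Complex.re_ofReal_mul, Complex.re_ofReal_mul,
      Complex.exp_ofReal_mul_I_re, Complex.I_re, Real.cos_sub_pi_div_two]
    ring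
  · rw [pt_im, Complex.add_im, Complex.im_ofReal_mul, Complex.im_ofReal_mul,
      Complex.exp_ofReal_mul_I_im, Complex.I_im, Real.sin_sub_pi_div_two]
    ring

lemma norm_sub_center (R : ℝ) (w : ℂ) : ‖w - (R : ℂ) * I‖ ^ 2 = ‖w‖ ^ 2 - 2 * R * w.im + R ^ 2 := by
  rw [Complex.sq_norm, Complex.sq_norm, Complex.normSq_apply, Complex.normSq_apply]
  simp
  ring

lemma zz_center (R τ : ℝ) : ‖zz R τ - (R : ℂ) * I‖ ^ 2 = R ^ 2 := by
  rw [Complex.sq_norm, Complex.normSq_apply]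
  simp [zz]
  have := Real.sin_sq_add_cos_sq (τ / R)
  nlinarith

lemma zz_norm_sq (R τ : ℝ) : ‖zz R τ‖ ^ 2 = (2 * R * Real.sin (τ / (2 * R))) ^ 2 := by
  rw [Complex.sq_norm, Complex.normSq_apply, zz, pt_re, pt_im]
  have h1 := Real.sin_sq_add_cos_sq (τ / R)
  have h2 : Real.cos (τ / R) = 1 - 2 * Real.sin (τ / (2 * R)) ^ 2 := by
    have : τ / R = 2 * (τ / (2 * R)) := by
      by_cases hR : R = 0
      · simp [hR]
      · field_simp
    rw [this, Real.cos_two_mul]
    have := Real.sin_sq_add_cos_sq (τ / (2 * R))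
    linarith
  have h3 : Real.sin (τ / R) ^ 2 = 1 - Real.cos (τ / R) ^ 2 := by linarith
  have : R * Real.sin (τ / R) * (R * Real.sin (τ / R)) +
      R * (1 - Real.cos (τ / R)) * (R * (1 - Real.cos (τ / R))) =
      R ^ 2 * (Real.sin (τ / R) ^ 2 + (1 - Real.cos (τ / R)) ^ 2) := by ring
  rw [this, h3, h2]
  ring

lemma zz_norm (R τ : ℝ) (hR : 0 < R) : ‖zz R τ‖ = 2 * R * |Real.sin (τ / (2 * R))| := by
  have h := (sq_eq_sq_iff_abs_eq_abs _ _).1 (zz_norm_sq R τ)
  rwa [abs_of_nonneg (norm_nonneg (zz R τ)), abs_mul,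
    abs_of_pos (show 0 < 2 * R by positivity)] at h

lemma zz_norm_le (R τ : ℝ) (hR : 0 < R) : ‖zz R τ‖ ≤ |τ| := by
  rw [zz_norm R τ hR]
  have h := Real.abs_sin_le_abs (x := τ / (2 * R))
  rw [abs_div, abs_of_pos (show 0 < 2 * R by positivity)] at h
  calc 2 * R * |Real.sin (τ / (2 * R))| ≤ 2 * R * (|τ| / (2 * R)) := by gcongr
    _ = |τ| := by field_simp

lemma le_zz_norm (R τ : ℝ) (hR : 0 < R) (hτ : |τ| ≤ Real.pi * R) : 2 * |τ| / Real.pi ≤ ‖zz R τ‖ := by
  rw [zz_norm R τ hR]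
  have e : |Real.sin (τ / (2 * R))| = Real.sin (|τ| / (2 * R)) := by
    have h0 : |τ / (2 * R)| = |τ| / (2 * R) := by
      rw [abs_div, abs_of_pos (show 0 < 2 * R by positivity)]
    rcases le_total 0 τ with h | h
    · rw [abs_of_nonneg h]
      apply abs_of_nonneg
      apply Real.sin_nonneg_of_nonneg_of_le_pi (by positivity)
      rw [div_le_iff₀ (by positivity)]
      rw [abs_of_nonneg h] at hτ
      nlinarith [Real.pi_pos]
    · rw [abs_of_nonpos h]
      rw [abs_of_nonpos h] at hτ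
      have : Real.sin (τ / (2 * R)) = -Real.sin (-τ / (2 * R)) := by
        rw [neg_div, Real.sin_neg, neg_neg]
      rw [this, abs_neg]
      apply abs_of_nonneg
      apply Real.sin_nonneg_of_nonneg_of_le_pi (div_nonneg (by linarith) (by positivity))
      rw [div_le_iff₀ (by positivity)]
      nlinarith [Real.pi_pos]
  rw [e]
  have h1 : |τ| / (2 * R) ≤ Real.pi / 2 := by
    rw [div_le_iff₀ (by positivity)]
    nlinarith
  have h2 := Real.mul_le_sin (show 0 ≤ |τ| / (2 * R) by positivity) h1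
  calc 2 * |τ| / Real.pi = 2 * R * (2 / Real.pi * (|τ| / (2 * R))) := by field_simp
    _ ≤ 2 * R * Real.sin (|τ| / (2 * R)) := by gcongr

lemma continuous_zz (R : ℝ) : Continuous (zz R) := by
  unfold zz
  exact continuous_pt.comp (by fun_prop : Continuous fun τ : ℝ =>
    (R * Real.sin (τ / R), R * (1 - Real.cos (τ / R))))

lemma zz_ne (R : ℝ) (hR : 0 < R) {w : ℂ} (hw : ‖w‖ ^ 2 < 2 * R * w.im) (τ : ℝ) :
    0 < ‖zz R τ - w‖ := by
  rw [norm_pos_iff, sub_ne_zero]
  intro h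
  have h1 := zz_center R τ
  rw [h, norm_sub_center] at h1
  linarith

lemma continuous_kk (R : ℝ) (hR : 0 < R) {w : ℂ} (hw : ‖w‖ ^ 2 < 2 * R * w.im) :
    Continuous (kk R w) := by
  unfold kk
  refine Continuous.div continuous_const ?_ ?_
  · have := continuous_zz R
    fun_prop
  · intro τ
    have := zz_ne R hR hw τ
    have := Real.pi_pos
    positivity

lemma kk_nonneg (R : ℝ) (hR : 0 < R) {w : ℂ} (hw : ‖w‖ ^ 2 < 2 * R * w.im) (τ : ℝ) :
    0 ≤ kk R w τ := by
  unfold kk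
  have := Real.pi_pos
  apply div_nonneg (by linarith)
  positivity

/-- Poisson formula in the disc -/
lemma poisson_disc {E : Set ℝ} {U : ℂ → ℝ} (h : Adm E U) (R : ℝ) (hR : 0 < R) {w : ℂ}
    (hw : ‖w‖ ^ 2 < 2 * R * w.im) :
    U w = ∫ τ in (-(Real.pi * R))..(Real.pi * R), kk R w τ * U (zz R τ) := by
  have hball : w ∈ Metric.ball ((R : ℂ) * I) R := by
    rw [mem_ball_iff_norm]
    have h1 := norm_sub_center R w
    have h2 : ‖w - (R : ℂ) * I‖ ^ 2 < R ^ 2 := by linarith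
    exact lt_of_pow_lt_pow_left₀ 2 hR.le h2
  have hharm : InnerProductSpace.HarmonicContOnCl U (Metric.ball ((R : ℂ) * I) R) := by
    refine ⟨fun z hz => h.harm z (not_mem_of_im ?_), h.cont.continuousOn⟩
    rw [mem_ball_iff_norm] at hz
    have h1 := norm_sub_center R z
    have h2 : ‖z - (R : ℂ) * I‖ ^ 2 < R ^ 2 := by
      have := norm_nonneg (z - (R : ℂ) * I)
      nlinarith
    have h3 : 0 ≤ ‖z‖ ^ 2 := by positivity
    intro h0
    rw [h0] at h1
    nlinarith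
  have hP := hharm.circleAverage_poissonKernel_smul hball
  rw [Real.circleAverage_eq_integral_add (-(3 * Real.pi / 2))] at hP
  rw [← hP]
  have e1 : (∫ θ in (0 : ℝ)..2 * Real.pi, (poissonKernel ((R : ℂ) * I) w • U)
      (circleMap ((R : ℂ) * I) R (θ + -(3 * Real.pi / 2)))) =
      ∫ θ in (-Real.pi)..Real.pi, (poissonKernel ((R : ℂ) * I) w • U)
      (circleMap ((R : ℂ) * I) R (θ - Real.pi / 2)) := by
    have := intervalIntegral.integral_comp_add_right (a := -Real.pi) (b := Real.pi)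
      (fun θ => (poissonKernel ((R : ℂ) * I) w • U)
        (circleMap ((R : ℂ) * I) R (θ + -(3 * Real.pi / 2)))) Real.pi
    rw [show -Real.pi + Real.pi = 0 by ring, show Real.pi + Real.pi = 2 * Real.pi by ring] at this
    rw [← this]
    refine intervalIntegral.integral_congr fun θ _ => ?_
    have e0 : θ + Real.pi + -(3 * Real.pi / 2) = θ - Real.pi / 2 := by ring
    simp only [e0]
  have e2 : (∫ τ in (-(Real.pi * R))..(Real.pi * R), kk R w τ * U (zz R τ)) =
      R * ∫ θ in (-Real.pi)..Real.pi, kk R w (R * θ) * U (zz R (R * θ)) := by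
    have := intervalIntegral.integral_comp_mul_left (a := -Real.pi) (b := Real.pi)
      (fun τ => kk R w τ * U (zz R τ)) hR.ne'
    rw [this, smul_eq_mul, ← mul_assoc, mul_inv_cancel₀ hR.ne', one_mul]
    congr 1 <;> ring
  rw [e1, e2, smul_eq_mul, ← intervalIntegral.integral_const_mul,
    ← intervalIntegral.integral_const_mul]
  refine intervalIntegral.integral_congr fun θ _ => ?_
  simp only [Pi.smul_apply', smul_eq_mul]
  have e3 : zz R (R * θ) = circleMap ((R : ℂ) * I) R (θ - Real.pi / 2) := by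
    rw [circleMap_eq, zz, mul_div_cancel_left₀ _ hR.ne']
  rw [← e3]
  unfold kk poissonKernel
  rw [zz_center, norm_sub_center]
  have e4 : zz R (R * θ) - (R : ℂ) * I - (w - (R : ℂ) * I) = zz R (R * θ) - w := by ring
  rw [e4]
  have hne := (zz_ne R hR hw (R * θ)).ne'
  have := Real.pi_pos.ne'
  field_simp
  ring

/-- comparison of two kernels far away -/
lemma kk_compare {R T : ℝ} (hR : 0 < R) (hT : 0 < T) {w w' : ℂ} (hw : ‖w‖ ^ 2 < 2 * R * w.im)
    (hw' : ‖w'‖ ^ 2 < 2 * R * w'.im) (hTw : ‖w‖ < 2 * T / Real.pi) {τ : ℝ} (hτ1 : T ≤ |τ|)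
    (hτ2 : |τ| ≤ Real.pi * R) :
    kk R w τ ≤ (2 * R * w.im - ‖w‖ ^ 2) / (2 * R * w'.im - ‖w'‖ ^ 2) *
      ((2 * T / Real.pi + ‖w'‖) / (2 * T / Real.pi - ‖w‖)) ^ 2 * kk R w' τ := by
  have hpi := Real.pi_pos
  have hz : 2 * T / Real.pi ≤ ‖zz R τ‖ := by
    refine le_trans ?_ (le_zz_norm R τ hR hτ2)
    gcongr
  set ρ := 2 * T / Real.pi with hρ
  have n1 := zz_ne R hR hw τ
  have n2 := zz_ne R hR hw' τ
  have hq : ‖zz R τ - w'‖ * (ρ - ‖w‖) ≤ (ρ + ‖w'‖) * ‖zz R τ - w‖ := by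
    have h1 : ‖zz R τ - w'‖ ≤ ‖zz R τ‖ + ‖w'‖ := norm_sub_le _ _
    have h2 : ‖zz R τ‖ - ‖w‖ ≤ ‖zz R τ - w‖ := norm_sub_norm_le _ _
    have h3 : 0 < ρ - ‖w‖ := by linarith
    have h4 : 0 ≤ ‖w‖ := norm_nonneg _
    have h5 : 0 ≤ ‖w'‖ := norm_nonneg _
    calc ‖zz R τ - w'‖ * (ρ - ‖w‖) ≤ (‖zz R τ‖ + ‖w'‖) * (ρ - ‖w‖) := by gcongr
      _ ≤ (ρ + ‖w'‖) * (‖zz R τ‖ - ‖w‖) := by nlinarith
      _ ≤ (ρ + ‖w'‖) * ‖zz R τ - w‖ := by
          apply mul_le_mul_of_nonneg_left h2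
          have : 0 ≤ ρ := by positivity
          positivity
  have h3 : 0 < ρ - ‖w‖ := by linarith
  have hA : 0 < 2 * R * w.im - ‖w‖ ^ 2 := by linarith
  have hA' : 0 < 2 * R * w'.im - ‖w'‖ ^ 2 := by linarith
  have hq2 : ‖zz R τ - w'‖ ^ 2 * (ρ - ‖w‖) ^ 2 ≤ (ρ + ‖w'‖) ^ 2 * ‖zz R τ - w‖ ^ 2 := by
    rw [← mul_pow, ← mul_pow]
    exact pow_le_pow_left₀ (by positivity) hq 2
  unfold kk
  have e : (2 * R * w.im - ‖w‖ ^ 2) / (2 * R * w'.im - ‖w'‖ ^ 2) *
      ((ρ + ‖w'‖) / (ρ - ‖w‖)) ^ 2 * ((2 * R * w'.im - ‖w'‖ ^ 2) /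
        (2 * Real.pi * R * ‖zz R τ - w'‖ ^ 2)) =
      (2 * R * w.im - ‖w‖ ^ 2) * (ρ + ‖w'‖) ^ 2 /
        ((ρ - ‖w‖) ^ 2 * (2 * Real.pi * R * ‖zz R τ - w'‖ ^ 2)) := by
    field_simp
  rw [e, div_le_div_iff₀ (by positivity) (by positivity)]
  calc (2 * R * w.im - ‖w‖ ^ 2) * ((ρ - ‖w‖) ^ 2 * (2 * Real.pi * R * ‖zz R τ - w'‖ ^ 2))
      = (2 * R * w.im - ‖w‖ ^ 2) * (2 * Real.pi * R) * (‖zz R τ - w'‖ ^ 2 * (ρ - ‖w‖) ^ 2) := by
        ring
    _ ≤ (2 * R * w.im - ‖w‖ ^ 2) * (2 * Real.pi * R) *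
        ((ρ + ‖w'‖) ^ 2 * ‖zz R τ - w‖ ^ 2) := by gcongr
    _ = (2 * R * w.im - ‖w‖ ^ 2) * (ρ + ‖w'‖) ^ 2 *
        (2 * Real.pi * R * ‖zz R τ - w‖ ^ 2) := by ring

/-- the near part -/
noncomputable def near (U : ℂ → ℝ) (R T : ℝ) (w : ℂ) : ℝ :=
  ∫ τ in (-T)..T, kk R w τ * U (zz R τ)

lemma cont_ker {E : Set ℝ} {U : ℂ → ℝ} (h : Adm E U) (R : ℝ) (hR : 0 < R) {w : ℂ}
    (hw : ‖w‖ ^ 2 < 2 * R * w.im) : Continuous fun τ => kk R w τ * U (zz R τ) :=
  (continuous_kk R hR hw).mul (h.cont.comp (continuous_zz R))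

lemma far_eq {E : Set ℝ} {U : ℂ → ℝ} (h : Adm E U) {R T : ℝ} (hR : 0 < R) {w : ℂ}
    (hw : ‖w‖ ^ 2 < 2 * R * w.im) : U w - near U R T w =
    (∫ τ in (-(Real.pi * R))..(-T), kk R w τ * U (zz R τ)) +
      ∫ τ in T..(Real.pi * R), kk R w τ * U (zz R τ) := by
  have hc := cont_ker h R hR hw
  rw [poisson_disc h R hR hw]
  unfold near
  rw [← intervalIntegral.integral_add_adjacent_intervals
    (hc.intervalIntegrable (-(Real.pi * R)) (-T)) (hc.intervalIntegrable (-T) (Real.pi * R)),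
    ← intervalIntegral.integral_add_adjacent_intervals
    (hc.intervalIntegrable (-T) T) (hc.intervalIntegrable T (Real.pi * R))]
  ring

lemma far_nonneg {E : Set ℝ} {U : ℂ → ℝ} (h : Adm E U) {R T : ℝ} (hR : 0 < R)
    (hTR : T ≤ Real.pi * R) {w : ℂ} (hw : ‖w‖ ^ 2 < 2 * R * w.im) : near U R T w ≤ U w := by
  have h1 := far_eq (T := T) h hR hw
  have h2 : 0 ≤ ∫ τ in (-(Real.pi * R))..(-T), kk R w τ * U (zz R τ) :=
    intervalIntegral.integral_nonneg (by linarith)
      fun τ _ => mul_nonneg (kk_nonneg R hR hw τ) (h.nonneg _)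
  have h3 : 0 ≤ ∫ τ in T..(Real.pi * R), kk R w τ * U (zz R τ) :=
    intervalIntegral.integral_nonneg (by linarith)
      fun τ _ => mul_nonneg (kk_nonneg R hR hw τ) (h.nonneg _)
  linarith

lemma far_compare {E : Set ℝ} {U : ℂ → ℝ} (h : Adm E U) {R T : ℝ} (hR : 0 < R) (hT : 0 < T)
    (hTR : T ≤ Real.pi * R) {w w' : ℂ} (hw : ‖w‖ ^ 2 < 2 * R * w.im)
    (hw' : ‖w'‖ ^ 2 < 2 * R * w'.im) (hTw : ‖w‖ < 2 * T / Real.pi) :
    U w - near U R T w ≤ (2 * R * w.im - ‖w‖ ^ 2) / (2 * R * w'.im - ‖w'‖ ^ 2) *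
      ((2 * T / Real.pi + ‖w'‖) / (2 * T / Real.pi - ‖w‖)) ^ 2 * (U w' - near U R T w') := by
  set C := (2 * R * w.im - ‖w‖ ^ 2) / (2 * R * w'.im - ‖w'‖ ^ 2) *
      ((2 * T / Real.pi + ‖w'‖) / (2 * T / Real.pi - ‖w‖)) ^ 2 with hC
  rw [far_eq h hR hw, far_eq h hR hw', mul_add]
  have hc := cont_ker h R hR hw
  have hc' := cont_ker h R hR hw'
  have key : ∀ τ : ℝ, T ≤ |τ| → |τ| ≤ Real.pi * R →
      kk R w τ * U (zz R τ) ≤ C * (kk R w' τ * U (zz R τ)) := by
    intro τ h1 h2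
    rw [← mul_assoc]
    exact mul_le_mul_of_nonneg_right (kk_compare hR hT hw hw' hTw h1 h2) (h.nonneg _)
  apply add_le_add
  · rw [← intervalIntegral.integral_const_mul]
    apply intervalIntegral.integral_mono_on (by linarith) (hc.intervalIntegrable _ _)
      ((continuous_const.mul hc').intervalIntegrable _ _)
    intro τ hτ
    have : |τ| = -τ := abs_of_nonpos (by linarith [hτ.2])
    exact key τ (by rw [this]; linarith [hτ.2]) (by rw [this]; linarith [hτ.1])
  · rw [← intervalIntegral.integral_const_mul]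
    apply intervalIntegral.integral_mono_on (by linarith) (hc.intervalIntegrable _ _)
      ((continuous_const.mul hc').intervalIntegrable _ _)
    intro τ hτ
    have : |τ| = τ := abs_of_nonneg (by linarith [hτ.1])
    exact key τ (by rw [this]; linarith [hτ.1]) (by rw [this]; linarith [hτ.2])

lemma tendsto_zz (τ : ℝ) : Tendsto (fun R => zz R τ) atTop (𝓝 (τ : ℂ)) := by
  have h1 : Tendsto (fun R : ℝ => R * Real.sin (τ / R)) atTop (𝓝 τ) := by
    have h2 : Tendsto (fun R : ℝ => τ * Real.sinc (τ / R)) atTop (𝓝 (τ * Real.sinc 0)) := by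
      apply Tendsto.const_mul
      exact (Real.continuous_sinc.tendsto 0).comp (tendsto_const_nhds.div_atTop tendsto_id)
    rw [Real.sinc_zero, mul_one] at h2
    refine h2.congr' ?_
    filter_upwards [eventually_gt_atTop 0] with R hR
    by_cases hτ : τ = 0
    · simp [hτ]
    · rw [Real.sinc_of_ne_zero (div_ne_zero hτ hR.ne')]
      field_simp
  have h3 : Tendsto (fun R : ℝ => R * (1 - Real.cos (τ / R))) atTop (𝓝 0) := by
    have h4 : Tendsto (fun R : ℝ => τ ^ 2 / (2 * R)) atTop (𝓝 0) :=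
      tendsto_const_nhds.div_atTop (tendsto_id.const_mul_atTop (by norm_num))
    refine tendsto_of_tendsto_of_tendsto_of_le_of_le' tendsto_const_nhds h4 ?_ ?_
    · filter_upwards [eventually_gt_atTop 0] with R hR
      have := Real.cos_le_one (τ / R)
      have : 0 ≤ 1 - Real.cos (τ / R) := by linarith
      positivity
    · filter_upwards [eventually_gt_atTop 0] with R hR
      have := Real.one_sub_sq_div_two_le_cos (x := τ / R)
      have h5 : 1 - Real.cos (τ / R) ≤ (τ / R) ^ 2 / 2 := by linarith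
      calc R * (1 - Real.cos (τ / R)) ≤ R * ((τ / R) ^ 2 / 2) := by gcongr
        _ = τ ^ 2 / (2 * R) := by field_simp
  have h5 : Tendsto (fun R : ℝ => pt (R * Real.sin (τ / R)) (R * (1 - Real.cos (τ / R)))) atTop
      (𝓝 (pt τ 0)) := (continuous_pt.tendsto (τ, 0)).comp (h1.prodMk_nhds h3)
  have h6 : pt τ 0 = (τ : ℂ) := by simp [pt]
  rw [h6] at h5
  exact h5

lemma zz_im_le {R T τ : ℝ} (hR : 0 < R) (hτ : |τ| ≤ T) : (zz R τ).im ≤ T ^ 2 / (2 * R) := by
  rw [zz, pt_im]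
  have := Real.one_sub_sq_div_two_le_cos (x := τ / R)
  have h5 : 1 - Real.cos (τ / R) ≤ (τ / R) ^ 2 / 2 := by linarith
  have h6 : τ ^ 2 ≤ T ^ 2 := sq_le_sq' (by linarith [abs_le.1 hτ]) (abs_le.1 hτ).2
  calc R * (1 - Real.cos (τ / R)) ≤ R * ((τ / R) ^ 2 / 2) := by gcongr
    _ = τ ^ 2 / (2 * R) := by field_simp
    _ ≤ T ^ 2 / (2 * R) := by gcongr

/-- the kernel of the half plane -/
noncomputable def PP (w : ℂ) (t : ℝ) : ℝ := w.im / (Real.pi * ((w.re - t) ^ 2 + w.im ^ 2))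

lemma PP_eq (w : ℂ) (t : ℝ) : PP w t = w.im / (Real.pi * ‖(t : ℂ) - w‖ ^ 2) := by
  unfold PP
  rw [Complex.sq_norm, Complex.normSq_apply]
  simp
  ring_nf

lemma continuous_PP {w : ℂ} (hw : 0 < w.im) : Continuous (PP w) := by
  unfold PP
  refine Continuous.div continuous_const (by fun_prop) fun t => ?_
  have := Real.pi_pos
  positivity

lemma PP_nonneg {w : ℂ} (hw : 0 < w.im) (t : ℝ) : 0 ≤ PP w t := by
  unfold PP
  have := Real.pi_pos
  positivity

lemma ev_disc {w : ℂ} (hw : 0 < w.im) : ∀ᶠ R : ℝ in atTop, ‖w‖ ^ 2 < 2 * R * w.im := by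
  filter_upwards [eventually_gt_atTop (‖w‖ ^ 2 / (2 * w.im))] with R hR
  rw [div_lt_iff₀ (by positivity)] at hR
  linarith

lemma tendsto_coef (w : ℂ) :
    Tendsto (fun R : ℝ => (2 * R * w.im - ‖w‖ ^ 2) / (2 * R)) atTop (𝓝 w.im) := by
  have h1 : Tendsto (fun R : ℝ => w.im - ‖w‖ ^ 2 / (2 * R)) atTop (𝓝 (w.im - 0)) :=
    tendsto_const_nhds.sub (tendsto_const_nhds.div_atTop (tendsto_id.const_mul_atTop (by norm_num)))
  rw [sub_zero] at h1
  refine h1.congr' ?_
  filter_upwards [eventually_gt_atTop 0] with R hR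
  field_simp

lemma near_tendsto {E : Set ℝ} {U : ℂ → ℝ} (h : Adm E U) {T : ℝ} (hT : 0 < T) {w : ℂ}
    (hw : 0 < w.im) :
    Tendsto (fun R => near U R T w) atTop (𝓝 (∫ t in (-T)..T, PP w t * U (t : ℂ))) := by
  have hpi := Real.pi_pos
  -- a bound for `U`
  obtain ⟨M, hM⟩ : ∃ M, ∀ z : ℂ, ‖z‖ ≤ T → |U z| ≤ M := by
    obtain ⟨M, hM⟩ := (isCompact_closedBall (0 : ℂ) T).exists_bound_of_continuousOn
      h.cont.continuousOn
    exact ⟨M, fun z hz => hM z (by simpa using hz)⟩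
  have hM0 : 0 ≤ M := le_trans (abs_nonneg _) (hM 0 (by simpa using hT.le))
  unfold near
  refine intervalIntegral.tendsto_integral_filter_of_dominated_convergence
    (fun _ => (w.im / (Real.pi * (w.im / 2) ^ 2)) * M) ?_ ?_ ?_ ?_
  · filter_upwards [eventually_gt_atTop 0, ev_disc hw] with R hR hR2
    exact (cont_ker h R hR hR2).aestronglyMeasurable
  · have hev : ∀ᶠ R : ℝ in atTop, T ^ 2 / (2 * R) < w.im / 2 := by
      have h4 : Tendsto (fun R : ℝ => T ^ 2 / (2 * R)) atTop (𝓝 0) :=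
        tendsto_const_nhds.div_atTop (tendsto_id.const_mul_atTop (by norm_num))
      exact h4.eventually_lt_const (by positivity)
    filter_upwards [eventually_gt_atTop 0, ev_disc hw, hev] with R hR hR2 hR3
    refine Eventually.of_forall fun τ hτ => ?_
    rw [uIoc_of_le (by linarith)] at hτ
    have hτ' : |τ| ≤ T := abs_le.2 ⟨hτ.1.le, hτ.2⟩
    rw [norm_mul, Real.norm_eq_abs, Real.norm_eq_abs, abs_of_nonneg (kk_nonneg R hR hR2 τ)]
    refine mul_le_mul ?_ (hM _ ((zz_norm_le R τ hR).trans hτ')) (abs_nonneg _) (by positivity)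
    unfold kk
    have h5 : w.im / 2 ≤ ‖zz R τ - w‖ := by
      have h6 := Complex.abs_im_le_norm (zz R τ - w)
      have h7 := zz_im_le hR hτ'
      rw [Complex.sub_im] at h6
      have h8 := neg_abs_le ((zz R τ).im - w.im)
      linarith
    have h9 : (w.im / 2) ^ 2 ≤ ‖zz R τ - w‖ ^ 2 := pow_le_pow_left₀ (by positivity) h5 2
    have h10 : 2 * R * w.im - ‖w‖ ^ 2 ≤ 2 * R * w.im := by
      have : 0 ≤ ‖w‖ ^ 2 := by positivity
      linarith
    calc (2 * R * w.im - ‖w‖ ^ 2) / (2 * Real.pi * R * ‖zz R τ - w‖ ^ 2)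
        ≤ (2 * R * w.im) / (2 * Real.pi * R * (w.im / 2) ^ 2) := by
          gcongr
      _ = w.im / (Real.pi * (w.im / 2) ^ 2) := by
          rw [div_eq_div_iff (by positivity) (by positivity)]
          ring
  · exact intervalIntegrable_const
  · refine Eventually.of_forall fun τ _ => ?_
    have h1 := tendsto_zz τ
    have h2 : Tendsto (fun R => U (zz R τ)) atTop (𝓝 (U (τ : ℂ))) :=
      (h.cont.tendsto _).comp h1
    refine Tendsto.mul ?_ h2
    rw [PP_eq]
    have h3 : Tendsto (fun R => Real.pi * ‖zz R τ - w‖ ^ 2) atTop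
        (𝓝 (Real.pi * ‖(τ : ℂ) - w‖ ^ 2)) :=
      ((h1.sub_const w).norm.pow 2).const_mul _
    have hne : (τ : ℂ) - w ≠ 0 := by
      intro h0
      have := congrArg Complex.im h0
      simp at this
      linarith
    have h4 := (tendsto_coef w).div h3 (by
      have : 0 < ‖(τ : ℂ) - w‖ := norm_pos_iff.2 hne
      positivity)
    refine h4.congr' ?_
    filter_upwards [eventually_gt_atTop 0] with R hR
    unfold kk
    simp only [Pi.div_apply]
    rw [div_div]
    congr 1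
    ring

lemma near_le {E : Set ℝ} {U : ℂ → ℝ} (h : Adm E U) {T : ℝ} (hT : 0 < T) {w : ℂ}
    (hw : 0 < w.im) : ∫ t in (-T)..T, PP w t * U (t : ℂ) ≤ U w := by
  refine le_of_tendsto (near_tendsto h hT hw) ?_
  filter_upwards [eventually_gt_atTop 0, ev_disc hw, eventually_ge_atTop (T / Real.pi)] with
    R hR hR2 hR3
  refine far_nonneg h hR ?_ hR2
  rw [div_le_iff₀ Real.pi_pos] at hR3
  linarith

lemma compare_T {E : Set ℝ} {U : ℂ → ℝ} (h : Adm E U) {T : ℝ} (hT : 0 < T) {w w' : ℂ}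
    (hw : 0 < w.im) (hw' : 0 < w'.im) (hTw : ‖w‖ < 2 * T / Real.pi) :
    U w - ∫ t in (-T)..T, PP w t * U (t : ℂ) ≤ w.im / w'.im *
      ((2 * T / Real.pi + ‖w'‖) / (2 * T / Real.pi - ‖w‖)) ^ 2 *
        (U w' - ∫ t in (-T)..T, PP w' t * U (t : ℂ)) := by
  have h1 : Tendsto (fun R => U w - near U R T w) atTop
      (𝓝 (U w - ∫ t in (-T)..T, PP w t * U (t : ℂ))) := tendsto_const_nhds.sub (near_tendsto h hT hw)
  have h2 : Tendsto (fun R => U w' - near U R T w') atTop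
      (𝓝 (U w' - ∫ t in (-T)..T, PP w' t * U (t : ℂ))) :=
    tendsto_const_nhds.sub (near_tendsto h hT hw')
  have h3 : Tendsto (fun R : ℝ => (2 * R * w.im - ‖w‖ ^ 2) / (2 * R * w'.im - ‖w'‖ ^ 2)) atTop
      (𝓝 (w.im / w'.im)) := by
    have := (tendsto_coef w).div (tendsto_coef w') hw'.ne'
    refine this.congr' ?_
    filter_upwards [eventually_gt_atTop 0] with R hR
    simp only [Pi.div_apply]
    rw [div_div_div_cancel_right₀ (by positivity)]
  refine le_of_tendsto_of_tendsto h1 ((h3.mul_const _).mul h2) ?_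
  filter_upwards [eventually_gt_atTop 0, ev_disc hw, ev_disc hw',
    eventually_ge_atTop (T / Real.pi)] with R hR hR2 hR2' hR3
  refine far_compare h hR hT ?_ hR2 hR2' hTw
  rw [div_le_iff₀ Real.pi_pos] at hR3
  linarith

lemma integrable_PP {E : Set ℝ} {U : ℂ → ℝ} (h : Adm E U) {w : ℂ} (hw : 0 < w.im) :
    Integrable (fun t : ℝ => PP w t * U (t : ℂ)) := by
  have hc : Continuous fun t : ℝ => PP w t * U (t : ℂ) :=
    (continuous_PP hw).mul (h.cont.comp Complex.continuous_ofReal)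
  refine integrable_of_intervalIntegral_norm_bounded (U w) (a := fun T : ℝ => -T)
    (b := fun T : ℝ => T) (l := atTop) (fun T => ?_) tendsto_neg_atTop_atBot tendsto_id ?_
  · exact (hc.integrableOn_Icc).mono_set Ioc_subset_Icc_self
  · filter_upwards [eventually_gt_atTop 0] with T hT
    refine le_trans (le_of_eq ?_) (near_le h hT hw)
    refine intervalIntegral.integral_congr fun t _ => ?_
    rw [Real.norm_of_nonneg (mul_nonneg (PP_nonneg hw t) (h.nonneg _))]

lemma compare {E : Set ℝ} {U : ℂ → ℝ} (h : Adm E U) {w w' : ℂ}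
    (hw : 0 < w.im) (hw' : 0 < w'.im) :
    U w - ∫ t, PP w t * U (t : ℂ) ≤ w.im / w'.im * (U w' - ∫ t, PP w' t * U (t : ℂ)) := by
  have h1 : ∀ {v : ℂ}, 0 < v.im → Tendsto (fun T : ℝ => U v - ∫ t in (-T)..T, PP v t * U (t : ℂ))
      atTop (𝓝 (U v - ∫ t, PP v t * U (t : ℂ))) := fun {v} hv =>
    tendsto_const_nhds.sub
      (intervalIntegral_tendsto_integral (integrable_PP h hv) tendsto_neg_atTop_atBot tendsto_id)
  have h2 : Tendsto (fun T : ℝ => 2 * T / Real.pi) atTop atTop := by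
    have : Tendsto (fun T : ℝ => (2 / Real.pi) * T) atTop atTop :=
      tendsto_id.const_mul_atTop (by have := Real.pi_pos; positivity)
    refine this.congr fun T => by ring
  have h3 : Tendsto (fun s : ℝ => ((s + ‖w'‖) / (s - ‖w‖))) atTop (𝓝 1) := by
    have h4 : Tendsto (fun s : ℝ => (1 + ‖w'‖ / s) / (1 - ‖w‖ / s)) atTop
        (𝓝 ((1 + 0) / (1 - 0))) := by
      refine Tendsto.div ?_ ?_ (by norm_num)
      · exact tendsto_const_nhds.add (tendsto_const_nhds.div_atTop tendsto_id)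
      · exact tendsto_const_nhds.sub (tendsto_const_nhds.div_atTop tendsto_id)
    rw [show ((1 + 0) / (1 - 0) : ℝ) = 1 by norm_num] at h4
    refine h4.congr' ?_
    filter_upwards [eventually_gt_atTop 0, eventually_gt_atTop ‖w‖] with s hs hs2
    have : s - ‖w‖ ≠ 0 := by linarith [hs2]
    have e1 : 1 + ‖w'‖ / s = (s + ‖w'‖) / s := by field_simp
    have e2 : 1 - ‖w‖ / s = (s - ‖w‖) / s := by field_simp
    rw [e1, e2, div_div_div_cancel_right₀ hs.ne']
  have h5 : Tendsto (fun T : ℝ => w.im / w'.im *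
      ((2 * T / Real.pi + ‖w'‖) / (2 * T / Real.pi - ‖w‖)) ^ 2 *
        (U w' - ∫ t in (-T)..T, PP w' t * U (t : ℂ))) atTop
      (𝓝 (w.im / w'.im * 1 ^ 2 * (U w' - ∫ t, PP w' t * U (t : ℂ)))) :=
    (((h3.comp h2).pow 2).const_mul _).mul (h1 hw')
  rw [one_pow, mul_one] at h5
  refine le_of_tendsto_of_tendsto (h1 hw) h5 ?_
  filter_upwards [eventually_gt_atTop 0, h2.eventually (eventually_gt_atTop ‖w‖)] with T hT hT2
  exact compare_T h hT hw hw' hT2

end J2

open J2 in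
theorem Adm.poisson {E : Set ℝ} {U : ℂ → ℝ} (h : Adm E U) :
    Integrable (fun t : ℝ => U (t : ℂ) / (1 + t ^ 2)) ∧
    ∀ x y : ℝ, 0 < y →
      U (pt x y) = y + ∫ t : ℝ, y / (Real.pi * ((x - t) ^ 2 + y ^ 2)) * U (t : ℂ) := by
  have hpi := Real.pi_pos
  have hint : Integrable (fun t : ℝ => U (t : ℂ) / (1 + t ^ 2)) := by
    have h1 := integrable_PP h (w := pt 0 1) (by simp)
    have h2 := h1.const_mul Real.pi
    refine h2.congr (Eventually.of_forall fun t => ?_)
    simp only [PP, pt_re, pt_im]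
    field_simp
    ring
  refine ⟨hint, ?_⟩
  -- the defect is a multiple of `y`
  set F : ℂ → ℝ := fun w => U w - ∫ t, PP w t * U (t : ℂ) with hF
  have hlin : ∀ w w' : ℂ, 0 < w.im → 0 < w'.im → F w / w.im = F w' / w'.im := by
    intro w w' hw hw'
    apply le_antisymm
    · have := compare h hw hw'
      rw [div_le_iff₀ hw]
      calc F w ≤ w.im / w'.im * F w' := this
        _ = F w' / w'.im * w.im := by ring
    · have := compare h hw' hw
      rw [div_le_iff₀ hw']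
      calc F w' ≤ w'.im / w.im * F w := this
        _ = F w / w.im * w'.im := by ring
  -- the limit along the imaginary axis
  have hlim0 : Tendsto (fun Y : ℝ => ∫ t : ℝ, U (t : ℂ) / (Real.pi * (t ^ 2 + Y ^ 2))) atTop
      (𝓝 (∫ _t : ℝ, (0 : ℝ))) := by
    refine tendsto_integral_filter_of_dominated_convergence
      (fun t : ℝ => U (t : ℂ) / (1 + t ^ 2)) ?_ ?_ hint ?_
    · filter_upwards [eventually_gt_atTop 0] with Y hY
      refine Continuous.aestronglyMeasurable ?_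
      refine Continuous.div (h.cont.comp Complex.continuous_ofReal) (by fun_prop) fun t => ?_
      positivity
    · filter_upwards [eventually_ge_atTop 1] with Y hY
      refine Eventually.of_forall fun t => ?_
      rw [Real.norm_of_nonneg (div_nonneg (h.nonneg _) (by positivity))]
      have h1 : (1 : ℝ) + t ^ 2 ≤ Real.pi * (t ^ 2 + Y ^ 2) := by
        have h2 : (1 : ℝ) ≤ Real.pi := by linarith [Real.pi_gt_three]
        have h3 : 1 ≤ Y ^ 2 := by nlinarith
        nlinarith [sq_nonneg t]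
      exact div_le_div_of_nonneg_left (h.nonneg _) (by positivity) h1
    · refine Eventually.of_forall fun t => ?_
      refine tendsto_const_nhds.div_atTop ?_
      refine Tendsto.const_mul_atTop hpi ?_
      exact tendsto_atTop_add_const_left _ _ (tendsto_pow_atTop (by norm_num))
  have hlim : Tendsto (fun Y : ℝ => F ((Y : ℂ) * I) / Y) atTop (𝓝 1) := by
    have h1 := h.norm.sub hlim0
    rw [integral_zero, sub_zero] at h1
    refine h1.congr' ?_
    filter_upwards [eventually_gt_atTop 0] with Y hY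
    simp only [hF]
    rw [sub_div]
    congr 1
    rw [← integral_div]
    refine integral_congr_ae (Eventually.of_forall fun t => ?_)
    simp only [PP]
    have e1 : ((Y : ℂ) * I).re = 0 := by simp
    have e2 : ((Y : ℂ) * I).im = Y := by simp
    rw [e1, e2]
    field_simp
    ring
  intro x y hy
  have hy' : 0 < (pt x y).im := by simpa using hy
  have hconst : ∀ Y : ℝ, 0 < Y → F ((Y : ℂ) * I) / Y = F (pt x y) / y := by
    intro Y hY
    have e2 : ((Y : ℂ) * I).im = Y := by simp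
    have := hlin ((Y : ℂ) * I) (pt x y) (by rw [e2]; exact hY) hy'
    rw [e2, pt_im] at this
    exact this
  have hone : F (pt x y) / y = 1 := by
    have h2 : Tendsto (fun Y : ℝ => F ((Y : ℂ) * I) / Y) atTop (𝓝 (F (pt x y) / y)) := by
      refine tendsto_const_nhds.congr' ?_
      filter_upwards [eventually_gt_atTop 0] with Y hY
      exact (hconst Y hY).symm
    exact tendsto_nhds_unique h2 hlim
  rw [div_eq_one_iff_eq hy.ne'] at hone
  simp only [hF] at hone
  have e : (∫ t, PP (pt x y) t * U (t : ℂ)) =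
      ∫ t : ℝ, y / (Real.pi * ((x - t) ^ 2 + y ^ 2)) * U (t : ℂ) := by
    simp only [PP, pt_re, pt_im]
  rw [e] at hone
  linarith

end Pool.Agent.TH308.RD
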