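import Pool.Agent.TH308.RD.Defs
set_option autoImplicit false
set_option linter.unusedVariables false
namespace Pool.Agent.TH308.RD
open MeasureTheory Set Complex Filter Topology
open scoped ENNReal

namespace J3

/-- the weight -/
noncomputable def w (R t : ℝ) : ℝ := 1 / (R ^ 2 + t ^ 2)

/-- the Poisson kernel -/
noncomputable def P (s v : ℝ) : ℝ := s / (Real.pi * (v ^ 2 + s ^ 2))

lemma P_eq {s : ℝ} (hs : 0 < s) (v : ℝ) : P s v = 1 / (Real.pi * s) * (1 + (v / s) ^ 2)⁻¹ := by
  unfold P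
  field_simp
  ring

lemma w_eq {R : ℝ} (hR : 0 < R) (v : ℝ) : w R v = 1 / R ^ 2 * (1 + (v / R) ^ 2)⁻¹ := by
  unfold w
  field_simp

lemma integrable_P {s : ℝ} (hs : 0 < s) : Integrable (P s) := by
  have h : P s = fun v => 1 / (Real.pi * s) * (1 + (v / s) ^ 2)⁻¹ := funext (P_eq hs)
  rw [h]
  exact (integrable_inv_one_add_sq.comp_div hs.ne').const_mul _

lemma integral_P {s : ℝ} (hs : 0 < s) : ∫ v, P s v = 1 := by
  have h : P s = fun v => 1 / (Real.pi * s) * (1 + (v / s) ^ 2)⁻¹ := funext (P_eq hs)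
  rw [h, integral_const_mul, Measure.integral_comp_div (fun x : ℝ => (1 + x ^ 2)⁻¹),
    integral_univ_inv_one_add_sq, abs_of_pos hs, smul_eq_mul]
  have := Real.pi_pos
  field_simp

lemma integrable_w {R : ℝ} (hR : 0 < R) : Integrable (w R) := by
  have h : w R = fun v => 1 / R ^ 2 * (1 + (v / R) ^ 2)⁻¹ := funext (w_eq hR)
  rw [h]
  exact (integrable_inv_one_add_sq.comp_div hR.ne').const_mul _

lemma integral_w {R : ℝ} (hR : 0 < R) : ∫ v, w R v = Real.pi / R := by
  have h : w R = fun v => 1 / R ^ 2 * (1 + (v / R) ^ 2)⁻¹ := funext (w_eq hR)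
  rw [h, integral_const_mul, Measure.integral_comp_div (fun x : ℝ => (1 + x ^ 2)⁻¹),
    integral_univ_inv_one_add_sq, abs_of_pos hR, smul_eq_mul]
  field_simp

lemma w_pos {R : ℝ} (hR : 0 < R) (t : ℝ) : 0 < w R t := by
  unfold w
  positivity

lemma w_le {R : ℝ} (hR : 0 < R) (t : ℝ) : w R t ≤ 1 / R ^ 2 := by
  unfold w
  apply one_div_le_one_div_of_le (by positivity)
  nlinarith [sq_nonneg t]

lemma P_nonneg {s : ℝ} (hs : 0 < s) (v : ℝ) : 0 ≤ P s v := by
  unfold P
  have := Real.pi_pos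
  positivity

/-- The weight is almost invariant under the Poisson kernel. -/
lemma kern {R s τ c lam : ℝ} (hR : 1 ≤ R) (hs0 : 0 < s) (hs1 : s ≤ 1) (hc : |c| ≤ 1)
    (hlam : 0 < lam) : ∫⁻ v, ENNReal.ofReal (P s v * w R (τ + (v - c))) ≤
      ENNReal.ofReal ((1 + lam + (1 + 1 / lam) * (4 / R)) * w R τ) := by
  have hR0 : 0 < R := by linarith
  have hpi := Real.pi_pos
  let g : ℝ → ℝ := fun v => w R τ * ((1 + lam) * P s v +
    (1 + 1 / lam) * ((2 / Real.pi) * w R (v + (τ - c)) + (2 / R ^ 2) * P s v))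
  have hw' : Integrable (fun v => w R (v + (τ - c))) := (integrable_w hR0).comp_add_right _
  have hgint : Integrable g := by
    apply Integrable.const_mul
    apply Integrable.add ((integrable_P hs0).const_mul _)
    apply Integrable.const_mul
    exact (hw'.const_mul _).add ((integrable_P hs0).const_mul _)
  have hfg : ∀ v, P s v * w R (τ + (v - c)) ≤ g v := by
    intro v
    have hP := P_nonneg hs0 v
    have hwτ := w_pos hR0 τ
    set z := v - c with hz
    have hwz := w_pos hR0 (τ + z)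
    -- the ratio
    have h1 : w R (τ + z) ≤ w R τ * ((1 + lam) + (1 + 1 / lam) * (z ^ 2 * w R (τ + z))) := by
      have e1 : w R (τ + z) = w R τ * ((R ^ 2 + τ ^ 2) * w R (τ + z)) := by
        unfold w
        field_simp
      rw [e1]
      apply mul_le_mul_of_nonneg_left _ hwτ.le
      rw [← e1]
      have e2 : (R ^ 2 + (τ + z) ^ 2) * w R (τ + z) = 1 := by
        unfold w
        field_simp
      have e3 : R ^ 2 + τ ^ 2 ≤ (1 + lam) * (R ^ 2 + (τ + z) ^ 2) + (1 + 1 / lam) * z ^ 2 := by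
        have e4 : 0 ≤ (lam * (τ + z) + z) ^ 2 / lam := by positivity
        have e5 : (lam * (τ + z) + z) ^ 2 / lam =
            lam * (τ + z) ^ 2 + 2 * (τ + z) * z + 1 / lam * z ^ 2 := by
          field_simp
          ring
        have e6 : 0 ≤ lam * R ^ 2 := by positivity
        nlinarith
      calc (R ^ 2 + τ ^ 2) * w R (τ + z)
          ≤ ((1 + lam) * (R ^ 2 + (τ + z) ^ 2) + (1 + 1 / lam) * z ^ 2) * w R (τ + z) :=
            mul_le_mul_of_nonneg_right e3 hwz.le
        _ = (1 + lam) * ((R ^ 2 + (τ + z) ^ 2) * w R (τ + z)) +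
            (1 + 1 / lam) * (z ^ 2 * w R (τ + z)) := by ring
        _ = _ := by rw [e2, mul_one]
    have h2 : P s v * (z ^ 2 * w R (τ + z)) ≤ (2 / Real.pi) * w R (v + (τ - c)) +
        (2 / R ^ 2) * P s v := by
      have e0 : v + (τ - c) = τ + z := by rw [hz]; ring
      rw [e0]
      have e1 : z ^ 2 ≤ 2 * v ^ 2 + 2 := by
        have hc2 : c ^ 2 ≤ 1 := by
          rw [← sq_abs]
          exact pow_le_one₀ (abs_nonneg _) hc
        rw [hz]
        nlinarith [sq_nonneg (v + c)]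
      have e2 : P s v * v ^ 2 ≤ 1 / Real.pi := by
        unfold P
        rw [div_mul_eq_mul_div, div_le_div_iff₀ (by positivity) hpi]
        have : s * v ^ 2 ≤ 1 * v ^ 2 := mul_le_mul_of_nonneg_right hs1 (sq_nonneg v)
        nlinarith [sq_nonneg s]
      have e3 : P s v * (z ^ 2 * w R (τ + z)) ≤ P s v * ((2 * v ^ 2 + 2) * w R (τ + z)) := by
        apply mul_le_mul_of_nonneg_left _ hP
        exact mul_le_mul_of_nonneg_right e1 hwz.le
      refine e3.trans ?_
      have e4 : P s v * ((2 * v ^ 2 + 2) * w R (τ + z)) =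
          2 * (P s v * v ^ 2) * w R (τ + z) + 2 * P s v * w R (τ + z) := by ring
      rw [e4]
      have e5 : 2 * (P s v * v ^ 2) * w R (τ + z) ≤ 2 * (1 / Real.pi) * w R (τ + z) :=
        mul_le_mul_of_nonneg_right (by linarith) hwz.le
      have e6 : 2 * P s v * w R (τ + z) ≤ 2 * P s v * (1 / R ^ 2) :=
        mul_le_mul_of_nonneg_left (w_le hR0 _) (by linarith)
      have e7 : 2 * (1 / Real.pi) * w R (τ + z) = 2 / Real.pi * w R (τ + z) := by ring
      have e8 : 2 * P s v * (1 / R ^ 2) = 2 / R ^ 2 * P s v := by ring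
      linarith
    have h3 : 0 ≤ 1 + 1 / lam := by positivity
    calc P s v * w R (τ + z)
        ≤ P s v * (w R τ * ((1 + lam) + (1 + 1 / lam) * (z ^ 2 * w R (τ + z)))) :=
          mul_le_mul_of_nonneg_left h1 hP
      _ = w R τ * ((1 + lam) * P s v + (1 + 1 / lam) * (P s v * (z ^ 2 * w R (τ + z)))) := by ring
      _ ≤ g v := by
          apply mul_le_mul_of_nonneg_left _ hwτ.le
          have := mul_le_mul_of_nonneg_left h2 h3
          linarith
  have hg0 : ∀ v, 0 ≤ g v := fun v =>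
    le_trans (mul_nonneg (P_nonneg hs0 v) (w_pos hR0 _).le) (hfg v)
  refine (lintegral_mono fun v => ENNReal.ofReal_le_ofReal (hfg v)).trans ?_
  rw [← ofReal_integral_eq_lintegral_ofReal hgint (Eventually.of_forall hg0)]
  apply ENNReal.ofReal_le_ofReal
  have hint : ∫ v, g v = w R τ * ((1 + lam) * 1 +
      (1 + 1 / lam) * ((2 / Real.pi) * (Real.pi / R) + (2 / R ^ 2) * 1)) := by
    simp only [g]
    rw [integral_const_mul, integral_add ((integrable_P hs0).const_mul _), integral_const_mul,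
      integral_const_mul, integral_add (hw'.const_mul _) ((integrable_P hs0).const_mul _),
      integral_const_mul, integral_const_mul, integral_P hs0,
      integral_add_right_eq_self (fun v => w R v), integral_w hR0]
    exact ((hw'.const_mul _).add ((integrable_P hs0).const_mul _)).const_mul _
  rw [hint, mul_comm]
  apply mul_le_mul_of_nonneg_right _ (w_pos hR0 τ).le
  have h4 : (2 / Real.pi) * (Real.pi / R) + (2 / R ^ 2) * 1 ≤ 4 / R := by
    have e1 : (2 / Real.pi) * (Real.pi / R) = 2 / R := by field_simp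
    have e2 : 2 / R ^ 2 ≤ 2 / R := by
      apply div_le_div_of_nonneg_left (by norm_num) hR0
      nlinarith
    have e3 : (4 : ℝ) / R = 2 / R + 2 / R := by ring
    rw [e1, mul_one, e3]
    linarith
  have h5 : 0 ≤ 1 + 1 / lam := by positivity
  have := mul_le_mul_of_nonneg_left h4 h5
  linarith


lemma pt_zero (x : ℝ) : pt x 0 = (x : ℂ) := by simp [pt]

lemma continuous_u {E : Set ℝ} {U : ℂ → ℝ} (h : Adm E U) : Continuous (fun t : ℝ => U (t : ℂ)) :=
  h.cont.comp Complex.continuous_ofReal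

lemma integrable_Pu {E : Set ℝ} {U : ℂ → ℝ} (h : Adm E U)
    (hI : Integrable (fun t : ℝ => U (t : ℂ) / (1 + t ^ 2))) {y : ℝ} (hy : 0 < y) (x : ℝ) :
    Integrable (fun t : ℝ => P y (x - t) * U (t : ℂ)) := by
  have hpi := Real.pi_pos
  have hcont : Continuous (fun t : ℝ => P y (x - t) * U (t : ℂ)) := by
    apply Continuous.mul _ (continuous_u h)
    unfold P
    apply Continuous.div (by fun_prop) (by fun_prop)
    intro t
    positivity
  set K : ℝ := y / Real.pi * (2 + (1 + 2 * x ^ 2) / y ^ 2) with hK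
  refine (hI.const_mul K).mono' hcont.aestronglyMeasurable (Eventually.of_forall fun t => ?_)
  have hu := h.nonneg (t : ℂ)
  rw [Real.norm_of_nonneg (mul_nonneg (P_nonneg hy _) hu)]
  have h1 : P y (x - t) ≤ K * (1 / (1 + t ^ 2)) := by
    rw [mul_one_div, le_div_iff₀ (by positivity)]
    unfold P
    rw [div_mul_eq_mul_div, div_le_iff₀ (by positivity)]
    have e1 : K * (Real.pi * ((x - t) ^ 2 + y ^ 2)) =
        y * ((2 + (1 + 2 * x ^ 2) / y ^ 2) * ((x - t) ^ 2 + y ^ 2)) := by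
      rw [hK]
      field_simp
    rw [e1]
    apply mul_le_mul_of_nonneg_left _ hy.le
    have e2 : (2 + (1 + 2 * x ^ 2) / y ^ 2) * ((x - t) ^ 2 + y ^ 2) =
        2 * (x - t) ^ 2 + 2 * y ^ 2 + (1 + 2 * x ^ 2) / y ^ 2 * (x - t) ^ 2 + (1 + 2 * x ^ 2) := by
      field_simp
      ring
    rw [e2]
    have e3 : 0 ≤ (1 + 2 * x ^ 2) / y ^ 2 * (x - t) ^ 2 := by positivity
    nlinarith [sq_nonneg (x - t - x), sq_nonneg (x - t + x), sq_nonneg y]
  calc P y (x - t) * U (t : ℂ) ≤ K * (1 / (1 + t ^ 2)) * U (t : ℂ) :=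
        mul_le_mul_of_nonneg_right h1 hu
    _ = K * (U (t : ℂ) / (1 + t ^ 2)) := by ring

lemma poisson_eq {U : ℂ → ℝ} (hP : ∀ x y : ℝ, 0 < y →
      U (pt x y) = y + ∫ t : ℝ, y / (Real.pi * ((x - t) ^ 2 + y ^ 2)) * U (t : ℂ))
    {y : ℝ} (hy : 0 < y) (x : ℝ) : U (pt x y) = y + ∫ t : ℝ, P y (x - t) * U (t : ℂ) :=
  hP x y hy

/-- Harnack's inequality. -/
lemma harnack {E : Set ℝ} {U : ℂ → ℝ} (h : Adm E U)
    (hI : Integrable (fun t : ℝ => U (t : ℂ) / (1 + t ^ 2)))
    (hP : ∀ x y : ℝ, 0 < y →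
      U (pt x y) = y + ∫ t : ℝ, y / (Real.pi * ((x - t) ^ 2 + y ^ 2)) * U (t : ℂ))
    {y x₁ x₂ : ℝ} (hy : 1 / 2 ≤ y) (hx : |x₁ - x₂| ≤ 1) : U (pt x₂ y) ≤ 10 * U (pt x₁ y) := by
  have hy0 : 0 < y := by linarith
  have hpi := Real.pi_pos
  rw [poisson_eq hP hy0, poisson_eq hP hy0, mul_add, ← integral_const_mul]
  apply add_le_add (by linarith)
  apply integral_mono (integrable_Pu h hI hy0 x₂) ((integrable_Pu h hI hy0 x₁).const_mul _)
  intro t
  simp only
  rw [← mul_assoc]
  apply mul_le_mul_of_nonneg_right _ (h.nonneg _)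
  unfold P
  rw [mul_div_assoc', div_le_div_iff₀ (by positivity) (by positivity)]
  have h1 : (x₁ - x₂) ^ 2 ≤ 1 := by
    rw [← sq_abs]
    exact pow_le_one₀ (abs_nonneg _) hx
  have h2 : (x₁ - t) ^ 2 + y ^ 2 ≤ 10 * ((x₂ - t) ^ 2 + y ^ 2) := by
    have h3 : 1 / 4 ≤ y ^ 2 := by nlinarith
    nlinarith [sq_nonneg ((x₁ - x₂) - (x₂ - t)), sq_nonneg (x₂ - t)]
  have h3 : 0 ≤ y * Real.pi := by positivity
  have := mul_le_mul_of_nonneg_left h2 h3
  nlinarith

lemma lintegral_w {R : ℝ} (hR : 0 < R) (b : ℝ) :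
    ∫⁻ x, ENNReal.ofReal (w R (x - b)) = ENNReal.ofReal (Real.pi / R) := by
  rw [lintegral_sub_right_eq_self (fun x => ENNReal.ofReal (w R x)) b, ← integral_w hR,
    ofReal_integral_eq_lintegral_ofReal (integrable_w hR)
      (Eventually.of_forall fun t => (w_pos hR t).le)]

lemma continuous_w {R : ℝ} (hR : 0 < R) : Continuous (w R) := by
  unfold w
  apply Continuous.div (by fun_prop) (by fun_prop)
  intro t
  positivity

lemma continuous_P {y : ℝ} (hy : 0 < y) : Continuous (P y) := by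
  have hpi := Real.pi_pos
  unfold P
  apply Continuous.div (by fun_prop) (by fun_prop)
  intro t
  positivity

/-- The weighted integral. -/
noncomputable def JJ (U : ℂ → ℝ) (R b : ℝ) : ℝ≥0∞ :=
  ∫⁻ t, ENNReal.ofReal (U ((t : ℝ) : ℂ) * w R (t - b))

lemma poisson_bound {E : Set ℝ} {U : ℂ → ℝ} (h : Adm E U)
    (hI : Integrable (fun t : ℝ => U (t : ℂ) / (1 + t ^ 2)))
    (hP : ∀ x y : ℝ, 0 < y →
      U (pt x y) = y + ∫ t : ℝ, y / (Real.pi * ((x - t) ^ 2 + y ^ 2)) * U (t : ℂ))
    {R b c y lam : ℝ} (hR : 1 ≤ R) (hc : |c| ≤ 1) (hy0 : 0 < y) (hy1 : y ≤ 1) (hlam : 0 < lam) :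
    ∫⁻ x, ENNReal.ofReal (U (pt (x + c) y) * w R (x - b)) ≤
      ENNReal.ofReal (Real.pi / R) +
        ENNReal.ofReal (1 + lam + (1 + 1 / lam) * (4 / R)) * JJ U R b := by
  have hR0 : 0 < R := by linarith
  have hu := continuous_u h
  have h1 : ∀ x, ENNReal.ofReal (U (pt (x + c) y) * w R (x - b)) ≤
      ENNReal.ofReal (w R (x - b)) +
        ∫⁻ t : ℝ, ENNReal.ofReal (U (t : ℂ)) *
          ENNReal.ofReal (P y (x + c - t) * w R (x - b)) := by
    intro x
    have hw := (w_pos hR0 (x - b)).le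
    rw [poisson_eq hP hy0, add_mul]
    have hint0 : 0 ≤ ∫ t : ℝ, P y (x + c - t) * U (t : ℂ) :=
      integral_nonneg fun t => mul_nonneg (P_nonneg hy0 _) (h.nonneg _)
    rw [ENNReal.ofReal_add (mul_nonneg hy0.le hw) (mul_nonneg hint0 hw)]
    apply add_le_add
    · apply ENNReal.ofReal_le_ofReal
      calc y * w R (x - b) ≤ 1 * w R (x - b) := mul_le_mul_of_nonneg_right hy1 hw
        _ = _ := one_mul _
    · rw [ENNReal.ofReal_mul hint0, ofReal_integral_eq_lintegral_ofReal
        (integrable_Pu h hI hy0 _)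
        (Eventually.of_forall fun t => mul_nonneg (P_nonneg hy0 _) (h.nonneg _)),
        ← lintegral_mul_const' _ _ ENNReal.ofReal_ne_top]
      apply le_of_eq
      apply lintegral_congr
      intro t
      rw [ENNReal.ofReal_mul (P_nonneg hy0 _), ENNReal.ofReal_mul (P_nonneg hy0 _)]
      ring
  refine (lintegral_mono h1).trans ?_
  have hm : Measurable fun x : ℝ => ENNReal.ofReal (w R (x - b)) :=
    ((continuous_w hR0).comp (by fun_prop : Continuous fun x : ℝ => x - b)).measurable.ennreal_ofReal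
  rw [lintegral_add_left hm, lintegral_w hR0]
  apply add_le_add le_rfl
  rw [lintegral_lintegral_swap]
  · unfold JJ
    rw [← lintegral_const_mul' _ _ ENNReal.ofReal_ne_top]
    apply lintegral_mono
    intro t
    simp only
    rw [lintegral_const_mul' _ _ ENNReal.ofReal_ne_top]
    have h2 : ∫⁻ x, ENNReal.ofReal (P y (x + c - t) * w R (x - b)) =
        ∫⁻ v, ENNReal.ofReal (P y v * w R ((t - b) + (v - c))) := by
      rw [← lintegral_add_right_eq_self
        (fun x => ENNReal.ofReal (P y (x + c - t) * w R (x - b))) (t - c)]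
      apply lintegral_congr
      intro v
      congr 3
      · ring
      · ring
    rw [h2]
    have h3 := kern (R := R) (s := y) (τ := t - b) (c := c) hR hy0 hy1 hc hlam
    refine (mul_le_mul_right h3 _).trans_eq ?_
    have hpos : 0 ≤ 1 + lam + (1 + 1 / lam) * (4 / R) := by positivity
    rw [ENNReal.ofReal_mul hpos, ENNReal.ofReal_mul (h.nonneg _)]
    ring
  · apply Measurable.aemeasurable
    have m1 : Measurable fun p : ℝ × ℝ => ENNReal.ofReal (U (p.2 : ℂ)) :=
      (hu.comp continuous_snd).measurable.ennreal_ofReal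
    have m2 : Measurable fun p : ℝ × ℝ => ENNReal.ofReal (P y (p.1 + c - p.2) * w R (p.1 - b)) := by
      apply Measurable.ennreal_ofReal
      apply Continuous.measurable
      exact ((continuous_P hy0).comp (by fun_prop : Continuous fun p : ℝ × ℝ => p.1 + c - p.2)).mul
        ((continuous_w hR0).comp (by fun_prop : Continuous fun p : ℝ × ℝ => p.1 - b))
    exact m1.mul m2

lemma submean_bound {E : Set ℝ} {U : ℂ → ℝ} (h : Adm E U)
    (hS : ∀ (z : ℂ) (r : ℝ), 0 < r → U z ≤ Real.circleAverage U z r) (x : ℝ) :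
    ENNReal.ofReal (U (x : ℂ)) ≤ ENNReal.ofReal ((2 * Real.pi)⁻¹) *
      ∫⁻ θ in Ioc 0 (2 * Real.pi), ENNReal.ofReal (U (pt (x + Real.cos θ) (Real.sin θ))) := by
  have hpi := Real.pi_pos
  have h1 := hS (x : ℂ) 1 one_pos
  have hcm : ∀ θ : ℝ, circleMap (x : ℂ) 1 θ = pt (x + Real.cos θ) (Real.sin θ) := by
    intro θ
    rw [circleMap, Complex.exp_mul_I]
    simp only [pt, Complex.ofReal_add, Complex.ofReal_cos, Complex.ofReal_sin, Complex.ofReal_one]
    ring
  have hcont : Continuous fun θ : ℝ => U (pt (x + Real.cos θ) (Real.sin θ)) := by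
    apply h.cont.comp
    exact continuous_pt.comp (f := fun θ : ℝ => (x + Real.cos θ, Real.sin θ)) (by fun_prop)
  rw [Real.circleAverage_def] at h1
  simp only [hcm, smul_eq_mul] at h1
  rw [intervalIntegral.integral_of_le (by positivity)] at h1
  refine (ENNReal.ofReal_le_ofReal h1).trans_eq ?_
  rw [ENNReal.ofReal_mul (by positivity), ofReal_integral_eq_lintegral_ofReal]
  · exact (hcont.integrableOn_Icc (a := 0) (b := 2 * Real.pi)).mono_set Ioc_subset_Icc_self
  · exact Eventually.of_forall fun θ => h.nonneg _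

/-- A function with a Harnack inequality has a definite proportion of its integral over `E`. -/
lemma dense_bound {E : Set ℝ} (hEc : IsClosed E) {δ : ℝ} (hδ : 0 < δ) (hE : RelDense 1 δ E)
    {F : ℝ → ℝ} (hF0 : ∀ x, 0 ≤ F x) (hF : ∀ x₁ x₂, |x₁ - x₂| ≤ 1 → F x₂ ≤ 30 * F x₁) :
    ENNReal.ofReal (δ / 900) * ∫⁻ x, ENNReal.ofReal (F x) ≤ ∫⁻ x in E, ENNReal.ofReal (F x) := by
  have hU : (⋃ n : ℤ, Ico (n : ℝ) (n + 1)) = univ := iUnion_Ico_intCast ℝ
  have hd : Pairwise (Function.onFun Disjoint fun n : ℤ => Ico (n : ℝ) (n + 1)) :=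
    pairwise_disjoint_Ico_intCast ℝ
  have h1 : ∫⁻ x, ENNReal.ofReal (F x) = ∑' n : ℤ, ∫⁻ x in Ico (n : ℝ) (n + 1), ENNReal.ofReal (F x) := by
    rw [← lintegral_iUnion (fun n => measurableSet_Ico) hd, hU, Measure.restrict_univ]
  have h2 : ∫⁻ x in E, ENNReal.ofReal (F x) =
      ∑' n : ℤ, ∫⁻ x in E ∩ Ico (n : ℝ) (n + 1), ENNReal.ofReal (F x) := by
    rw [← lintegral_iUnion (fun n => hEc.measurableSet.inter measurableSet_Ico)]
    · rw [← inter_iUnion, hU, inter_univ]
    · intro m n hmn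
      exact (hd hmn).mono inter_subset_right inter_subset_right
  rw [h1, h2, ← ENNReal.tsum_mul_left]
  apply ENNReal.tsum_le_tsum
  intro n
  have h3 : ∫⁻ x in Ico (n : ℝ) (n + 1), ENNReal.ofReal (F x) ≤ ENNReal.ofReal (30 * F n) := by
    calc ∫⁻ x in Ico (n : ℝ) (n + 1), ENNReal.ofReal (F x)
        ≤ ∫⁻ x in Ico (n : ℝ) (n + 1), ENNReal.ofReal (30 * F n) := by
          apply setLIntegral_mono measurable_const
          intro x hx
          apply ENNReal.ofReal_le_ofReal
          apply hF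
          rw [abs_sub_comm, abs_of_nonneg (by linarith [hx.1])]
          linarith [hx.2]
      _ = ENNReal.ofReal (30 * F n) := by
          rw [setLIntegral_const, Real.volume_Ico, add_sub_cancel_left, ENNReal.ofReal_one, mul_one]
  have h4 : ENNReal.ofReal (F n / 30) * ENNReal.ofReal δ ≤
      ∫⁻ x in E ∩ Ico (n : ℝ) (n + 1), ENNReal.ofReal (F x) := by
    have h5 : ENNReal.ofReal δ ≤ volume (E ∩ Ico (n : ℝ) (n + 1)) := by
      refine (hE n).trans ?_
      have h6 : E ∩ Icc (n : ℝ) (n + 1) ⊆ (E ∩ Ico (n : ℝ) (n + 1)) ∪ {(n : ℝ) + 1} := by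
        rintro x ⟨hx1, hx2⟩
        rcases eq_or_lt_of_le hx2.2 with h7 | h7
        · right; exact h7
        · left; exact ⟨hx1, hx2.1, h7⟩
      refine (measure_mono h6).trans ((measure_union_le _ _).trans ?_)
      rw [Real.volume_singleton, add_zero]
    calc ENNReal.ofReal (F n / 30) * ENNReal.ofReal δ
        ≤ ENNReal.ofReal (F n / 30) * volume (E ∩ Ico (n : ℝ) (n + 1)) := mul_le_mul_right h5 _
      _ = ∫⁻ x in E ∩ Ico (n : ℝ) (n + 1), ENNReal.ofReal (F n / 30) := by
          rw [setLIntegral_const]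
      _ ≤ _ := by
          apply setLIntegral_mono' (hEc.measurableSet.inter measurableSet_Ico)
          intro x hx
          apply ENNReal.ofReal_le_ofReal
          have := hF x n (by
            rw [abs_of_nonneg (by linarith [hx.2.1])]
            linarith [hx.2.2])
          linarith
  refine le_trans ?_ h4
  refine (mul_le_mul_right h3 _).trans_eq ?_
  rw [← ENNReal.ofReal_mul (by positivity), ← ENNReal.ofReal_mul (by have := hF0 n; positivity)]
  congr 1
  ring

lemma JJ_lt_top {E : Set ℝ} {U : ℂ → ℝ} (h : Adm E U)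
    (hI : Integrable (fun t : ℝ => U (t : ℂ) / (1 + t ^ 2))) {R : ℝ} (hR : 1 ≤ R) (b : ℝ) :
    JJ U R b < ⊤ := by
  have hR0 : 0 < R := by linarith
  unfold JJ
  have h1 : ∀ t : ℝ, ENNReal.ofReal (U (t : ℂ) * w R (t - b)) ≤
      ENNReal.ofReal ((2 + 2 * b ^ 2) * (U (t : ℂ) / (1 + t ^ 2))) := by
    intro t
    apply ENNReal.ofReal_le_ofReal
    have hu := h.nonneg (t : ℂ)
    have h2 : w R (t - b) ≤ (2 + 2 * b ^ 2) * (1 / (1 + t ^ 2)) := by
      unfold w
      rw [mul_one_div, div_le_div_iff₀ (by positivity) (by positivity)]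
      have h3 : 1 ≤ R ^ 2 := by nlinarith
      have h4 : 1 + t ^ 2 ≤ 1 + 2 * (t - b) ^ 2 + 2 * b ^ 2 := by
        nlinarith [sq_nonneg (t - b - b)]
      have h5 : 0 ≤ 2 * b ^ 2 * (t - b) ^ 2 := by positivity
      nlinarith [sq_nonneg b, sq_nonneg (t - b)]
    calc U (t : ℂ) * w R (t - b) ≤ U (t : ℂ) * ((2 + 2 * b ^ 2) * (1 / (1 + t ^ 2))) :=
          mul_le_mul_of_nonneg_left h2 hu
      _ = _ := by ring
  refine (lintegral_mono h1).trans_lt ?_
  have := (hI.const_mul (2 + 2 * b ^ 2)).lintegral_lt_top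
  exact this

/-- The main inequality. -/
lemma main_ineq {E : Set ℝ} {U : ℂ → ℝ} (h : Adm E U)
    (hS : ∀ (z : ℂ) (r : ℝ), 0 < r → U z ≤ Real.circleAverage U z r)
    (hI : Integrable (fun t : ℝ => U (t : ℂ) / (1 + t ^ 2)))
    (hP : ∀ x y : ℝ, 0 < y →
      U (pt x y) = y + ∫ t : ℝ, y / (Real.pi * ((x - t) ^ 2 + y ^ 2)) * U (t : ℂ))
    {δ : ℝ} (hδ : 0 < δ) (hδ1 : δ ≤ 1) (hE : RelDense 1 δ E) {R lam : ℝ} (hR : 1 ≤ R)
    (hlam : 0 < lam) (b : ℝ) :
    JJ U R b ≤ ENNReal.ofReal (1 - δ / 5400) * (ENNReal.ofReal (Real.pi / R) +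
        ENNReal.ofReal (1 + lam + (1 + 1 / lam) * (4 / R)) * JJ U R b) := by
  have hR0 : 0 < R := by linarith
  have hpi := Real.pi_pos
  set K : ℝ≥0∞ := ENNReal.ofReal (Real.pi / R) +
        ENNReal.ofReal (1 + lam + (1 + 1 / lam) * (4 / R)) * JJ U R b with hK
  have hKtop : K ≠ ⊤ := by
    rw [hK]
    exact ENNReal.add_ne_top.2 ⟨ENNReal.ofReal_ne_top,
      ENNReal.mul_ne_top ENNReal.ofReal_ne_top (JJ_lt_top h hI hR b).ne⟩
  let F : ℝ → ℝ → ℝ := fun θ x => U (pt (x + Real.cos θ) (Real.sin θ)) * w R (x - b)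
  have hFc : Continuous (fun p : ℝ × ℝ => F p.2 p.1) := by
    apply Continuous.mul
    · apply h.cont.comp
      exact continuous_pt.comp
        (f := fun p : ℝ × ℝ => (p.1 + Real.cos p.2, Real.sin p.2)) (by fun_prop)
    · exact (continuous_w hR0).comp (by fun_prop : Continuous fun p : ℝ × ℝ => p.1 - b)
  have hF0 : ∀ θ x, 0 ≤ F θ x := fun θ x => mul_nonneg (h.nonneg _) (w_pos hR0 _).le
  -- full integrals
  have hG : ∀ θ, Real.sin θ ≠ 0 → ∫⁻ x, ENNReal.ofReal (F θ x) ≤ K := by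
    intro θ hθ
    have h1 := poisson_bound h hI hP (R := R) (b := b) (c := Real.cos θ) (y := |Real.sin θ|)
      (lam := lam) hR (Real.abs_cos_le_one θ) (abs_pos.2 hθ) (Real.abs_sin_le_one θ) hlam
    refine le_trans (le_of_eq ?_) h1
    apply lintegral_congr
    intro x
    simp only [F]
    rw [h.abs_pt]
  -- the integral over the complement of `E`
  have hH : ∀ θ ∈ Icc (Real.pi / 6) (Real.pi / 2), ∫⁻ x in Eᶜ, ENNReal.ofReal (F θ x) ≤
      ENNReal.ofReal (1 - δ / 900) * K := by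
    intro θ hθ
    have hsin : 1 / 2 ≤ Real.sin θ := by
      rw [← Real.sin_pi_div_six]
      exact Real.sin_le_sin_of_le_of_le_pi_div_two (by linarith) hθ.2 hθ.1
    have hsin0 : Real.sin θ ≠ 0 := by linarith
    have h1 := dense_bound h.closed hδ hE (F := F θ) (hF0 θ) (by
      intro x₁ x₂ hx
      have e1 := harnack h hI hP (y := Real.sin θ) (x₁ := x₁ + Real.cos θ)
        (x₂ := x₂ + Real.cos θ) hsin (by rw [add_sub_add_right_eq_sub]; exact hx)
      have e2 : w R (x₂ - b) ≤ 3 * w R (x₁ - b) := by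
        unfold w
        rw [mul_one_div, div_le_div_iff₀ (by positivity) (by positivity)]
        have h3 : 1 ≤ R ^ 2 := by nlinarith
        have h4 : (x₁ - x₂) ^ 2 ≤ 1 := by
          rw [← sq_abs]
          exact pow_le_one₀ (abs_nonneg _) hx
        nlinarith [sq_nonneg ((x₁ - x₂) - (x₂ - b)), sq_nonneg (x₂ - b)]
      simp only [F]
      calc U (pt (x₂ + Real.cos θ) (Real.sin θ)) * w R (x₂ - b)
          ≤ (10 * U (pt (x₁ + Real.cos θ) (Real.sin θ))) * (3 * w R (x₁ - b)) :=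
            mul_le_mul e1 e2 (w_pos hR0 _).le (by have := h.nonneg (pt (x₁ + Real.cos θ) (Real.sin θ)); positivity)
        _ = _ := by ring)
    have h2 : (∫⁻ x in E, ENNReal.ofReal (F θ x)) + (∫⁻ x in Eᶜ, ENNReal.ofReal (F θ x)) =
        ∫⁻ x, ENNReal.ofReal (F θ x) := lintegral_add_compl _ h.closed.measurableSet
    have hGθ := hG θ hsin0
    set G := ∫⁻ x, ENNReal.ofReal (F θ x) with hGdef
    have hGtop : G ≠ ⊤ := ne_top_of_le_ne_top hKtop hGθ
    have h3 : G = ENNReal.ofReal (1 - δ / 900) * G + ENNReal.ofReal (δ / 900) * G := by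
      rw [← add_mul, ← ENNReal.ofReal_add (by linarith) (by positivity)]
      rw [sub_add_cancel, ENNReal.ofReal_one, one_mul]
    have h4 : (∫⁻ x in Eᶜ, ENNReal.ofReal (F θ x)) + ENNReal.ofReal (δ / 900) * G ≤
        ENNReal.ofReal (1 - δ / 900) * G + ENNReal.ofReal (δ / 900) * G := by
      rw [← h3]
      calc (∫⁻ x in Eᶜ, ENNReal.ofReal (F θ x)) + ENNReal.ofReal (δ / 900) * G
          ≤ (∫⁻ x in Eᶜ, ENNReal.ofReal (F θ x)) + (∫⁻ x in E, ENNReal.ofReal (F θ x)) :=
            add_le_add le_rfl h1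
        _ = G := by rw [add_comm]; exact h2
    have h5 : ∫⁻ x in Eᶜ, ENNReal.ofReal (F θ x) ≤ ENNReal.ofReal (1 - δ / 900) * G :=
      ENNReal.le_of_add_le_add_right (ENNReal.mul_ne_top ENNReal.ofReal_ne_top hGtop) h4
    exact h5.trans (mul_le_mul_right hGθ _)
  -- the submean inequality, integrated
  have hJ : JJ U R b ≤ ENNReal.ofReal ((2 * Real.pi)⁻¹) *
      ∫⁻ θ in Ioc 0 (2 * Real.pi), ∫⁻ x in Eᶜ, ENNReal.ofReal (F θ x) := by
    have e1 : JJ U R b = ∫⁻ x in Eᶜ, ENNReal.ofReal (U ((x : ℝ) : ℂ) * w R (x - b)) := by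
      unfold JJ
      rw [← lintegral_add_compl _ h.closed.measurableSet]
      have e2 : ∫⁻ x in E, ENNReal.ofReal (U ((x : ℝ) : ℂ) * w R (x - b)) = 0 := by
        rw [setLIntegral_congr_fun (g := fun _ => 0) h.closed.measurableSet]
        · simp
        · intro x hx
          simp only
          rw [h.zero x hx, zero_mul, ENNReal.ofReal_zero]
      rw [e2, zero_add]
    rw [e1, lintegral_lintegral_swap, ← lintegral_const_mul' _ _ ENNReal.ofReal_ne_top]
    · apply lintegral_mono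
      intro x
      simp only
      have e3 := submean_bound h hS x
      rw [ENNReal.ofReal_mul (h.nonneg _)]
      refine (mul_le_mul_left e3 _).trans_eq ?_
      rw [mul_assoc, ← lintegral_mul_const' _ _ ENNReal.ofReal_ne_top]
      congr 1
      apply lintegral_congr
      intro θ
      simp only [F]
      rw [ENNReal.ofReal_mul (h.nonneg _)]
    · apply Measurable.aemeasurable
      have : Continuous (fun p : ℝ × ℝ => F p.1 p.2) := hFc.comp continuous_swap
      exact this.measurable.ennreal_ofReal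
  refine hJ.trans ?_
  -- split the circle
  set A : Set ℝ := Icc (Real.pi / 6) (Real.pi / 2) with hA
  have hAsub : A ⊆ Ioc 0 (2 * Real.pi) := by
    intro θ hθ
    exact ⟨by linarith [hθ.1], by linarith [hθ.2]⟩
  have hsplit : ∫⁻ θ in Ioc 0 (2 * Real.pi), ∫⁻ x in Eᶜ, ENNReal.ofReal (F θ x) =
      (∫⁻ θ in A, ∫⁻ x in Eᶜ, ENNReal.ofReal (F θ x)) +
      (∫⁻ θ in Ioc 0 (2 * Real.pi) \ A, ∫⁻ x in Eᶜ, ENNReal.ofReal (F θ x)) := by
    have := lintegral_inter_add_sdiff (μ := volume)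
      (fun θ => ∫⁻ x in Eᶜ, ENNReal.ofReal (F θ x)) (Ioc 0 (2 * Real.pi))
      (measurableSet_Icc : MeasurableSet A)
    rw [← this, inter_eq_self_of_subset_right hAsub]
  rw [hsplit]
  have hI1 : ∫⁻ θ in A, ∫⁻ x in Eᶜ, ENNReal.ofReal (F θ x) ≤
      ENNReal.ofReal (1 - δ / 900) * K * ENNReal.ofReal (Real.pi / 3) := by
    calc ∫⁻ θ in A, ∫⁻ x in Eᶜ, ENNReal.ofReal (F θ x)
        ≤ ∫⁻ θ in A, ENNReal.ofReal (1 - δ / 900) * K :=
          setLIntegral_mono measurable_const hH
      _ = _ := by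
          rw [setLIntegral_const, hA, Real.volume_Icc]
          congr 2
          ring
  have hI2 : ∫⁻ θ in Ioc 0 (2 * Real.pi) \ A, ∫⁻ x in Eᶜ, ENNReal.ofReal (F θ x) ≤
      K * ENNReal.ofReal (2 * Real.pi - Real.pi / 3) := by
    have hae : ∀ᵐ θ ∂(volume.restrict (Ioc 0 (2 * Real.pi) \ A)), Real.sin θ ≠ 0 := by
      rw [ae_iff]
      have hcount : {θ : ℝ | Real.sin θ = 0}.Countable := by
        have : {θ : ℝ | Real.sin θ = 0} ⊆ Set.range (fun n : ℤ => (n : ℝ) * Real.pi) := by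
          intro θ hθ
          obtain ⟨n, hn⟩ := Real.sin_eq_zero_iff.1 hθ
          exact ⟨n, hn⟩
        exact (countable_range _).mono this
      simp only [ne_eq, not_not]
      exact hcount.measure_zero _
    calc ∫⁻ θ in Ioc 0 (2 * Real.pi) \ A, ∫⁻ x in Eᶜ, ENNReal.ofReal (F θ x)
        ≤ ∫⁻ θ in Ioc 0 (2 * Real.pi) \ A, K := by
          apply lintegral_mono_ae
          filter_upwards [hae] with θ hθ
          exact (setLIntegral_le_lintegral _ _).trans (hG θ hθ)
      _ = K * volume (Ioc 0 (2 * Real.pi) \ A) := setLIntegral_const _ _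
      _ = _ := by
          rw [measure_sdiff hAsub measurableSet_Icc.nullMeasurableSet (by rw [hA]; simp),
            Real.volume_Ioc, hA, Real.volume_Icc, ← ENNReal.ofReal_sub _ (by linarith)]
          congr 2
          ring
  refine (mul_le_mul_right (add_le_add hI1 hI2) _).trans_eq ?_
  have e1 : ENNReal.ofReal (1 - δ / 900) * K * ENNReal.ofReal (Real.pi / 3) +
      K * ENNReal.ofReal (2 * Real.pi - Real.pi / 3) =
      ENNReal.ofReal ((1 - δ / 900) * (Real.pi / 3) + (2 * Real.pi - Real.pi / 3)) * K := by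
    have e0 : (0 : ℝ) ≤ 1 - δ / 900 := by linarith
    rw [ENNReal.ofReal_add (mul_nonneg e0 (by positivity)) (by linarith),
      ENNReal.ofReal_mul e0]
    ring
  rw [e1, ← mul_assoc, ← ENNReal.ofReal_mul (by positivity)]
  congr 2
  field_simp
  ring

end J3

theorem window_bdd_of {E : Set ℝ} {U : ℂ → ℝ} (h : Adm E U)
    (hS : ∀ (z : ℂ) (r : ℝ), 0 < r → U z ≤ Real.circleAverage U z r)
    (hI : Integrable (fun t : ℝ => U (t : ℂ) / (1 + t ^ 2)))
    (hP : ∀ x y : ℝ, 0 < y →
      U (pt x y) = y + ∫ t : ℝ, y / (Real.pi * ((x - t) ^ 2 + y ^ 2)) * U (t : ℂ))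
    {δ : ℝ} (hδ : 0 < δ) (hE : RelDense 1 δ E) :
    ∃ B : ℝ, ∀ α : ℝ, ∫ x in α..(α + 1), U (pt x 0) ≤ B := by
  have hpi := Real.pi_pos
  have hδ1 : δ ≤ 1 := by
    have h1 := (hE 0).trans (measure_mono inter_subset_right)
    rw [Real.volume_Icc, zero_add, sub_zero] at h1
    exact (ENNReal.ofReal_le_ofReal_iff zero_le_one).1 h1
  set c : ℝ := δ / 5400 with hc
  have hc0 : 0 < c := by positivity
  have hc1 : c ≤ 1 := by rw [hc]; linarith
  set lam : ℝ := c / 4 with hlam
  have hlam0 : 0 < lam := by positivity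
  set R : ℝ := (1 + 1 / lam) * 4 / lam with hR
  have hlam1 : lam ≤ 1 := by rw [hlam]; linarith
  have hR1 : 1 ≤ R := by
    rw [hR, le_div_iff₀ hlam0]
    have : 0 ≤ 1 / lam := by positivity
    nlinarith
  have hR0 : 0 < R := by linarith
  have hκ : 1 + lam + (1 + 1 / lam) * (4 / R) = 1 + c / 2 := by
    have e1 : (1 + 1 / lam) * (4 / R) = lam := by
      rw [hR]
      field_simp
    rw [e1, hlam]
    ring
  refine ⟨(R ^ 2 + 1) * (2 * Real.pi / c), fun α => ?_⟩
  have hmain := J3.main_ineq h hS hI hP hδ hδ1 hE hR1 hlam0 α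
  rw [hκ, ← hc] at hmain
  have hJtop := (J3.JJ_lt_top h hI hR1 α).ne
  set j := (J3.JJ U R α).toReal with hj
  have hJ : J3.JJ U R α = ENNReal.ofReal j := (ENNReal.ofReal_toReal hJtop).symm
  have hj0 : 0 ≤ j := ENNReal.toReal_nonneg
  have h1 : j ≤ 2 * Real.pi / c := by
    rw [hJ, ← ENNReal.ofReal_mul (by positivity), ← ENNReal.ofReal_add (by positivity)
      (by positivity), ← ENNReal.ofReal_mul (by linarith),
      ENNReal.ofReal_le_ofReal_iff (mul_nonneg (by linarith) (by positivity))] at hmain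
    have h2 : Real.pi / R ≤ Real.pi := div_le_self hpi.le hR1
    rw [le_div_iff₀ hc0]
    have h3 : (1 - c) * (Real.pi / R + (1 + c / 2) * j) ≤ Real.pi + (1 - c / 2) * j := by
      have h4 : (1 - c) * (Real.pi / R) ≤ Real.pi := by
        have : 0 ≤ Real.pi / R := by positivity
        nlinarith
      have h5 : (1 - c) * ((1 + c / 2) * j) ≤ (1 - c / 2) * j := by
        have : 0 ≤ c ^ 2 * j := by positivity
        nlinarith
      linarith
    linarith
  -- compare the window with the weighted integral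
  have hcont : Continuous fun x : ℝ => U (pt x 0) := by
    simp only [J3.pt_zero]
    exact J3.continuous_u h
  have h2 : ENNReal.ofReal (∫ x in α..(α + 1), U (pt x 0)) ≤
      ENNReal.ofReal ((R ^ 2 + 1) * (2 * Real.pi / c)) := by
    rw [intervalIntegral.integral_of_le (by linarith), ofReal_integral_eq_lintegral_ofReal
      ((hcont.integrableOn_Icc (a := α) (b := α + 1)).mono_set Ioc_subset_Icc_self)
      (Eventually.of_forall fun x => h.nonneg _)]
    calc ∫⁻ x in Ioc α (α + 1), ENNReal.ofReal (U (pt x 0))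
        ≤ ∫⁻ x in Ioc α (α + 1), ENNReal.ofReal (R ^ 2 + 1) *
            ENNReal.ofReal (U ((x : ℝ) : ℂ) * J3.w R (x - α)) := by
          apply setLIntegral_mono' measurableSet_Ioc
          intro x hx
          rw [← ENNReal.ofReal_mul (by positivity), J3.pt_zero]
          apply ENNReal.ofReal_le_ofReal
          have e1 : 1 ≤ (R ^ 2 + 1) * J3.w R (x - α) := by
            unfold J3.w
            rw [mul_one_div, le_div_iff₀ (by positivity), one_mul]
            have : (x - α) ^ 2 ≤ 1 := by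
              rw [← sq_abs]
              apply pow_le_one₀ (abs_nonneg _)
              rw [abs_of_pos (by linarith [hx.1])]
              linarith [hx.2]
            linarith
          have e2 := h.nonneg (x : ℂ)
          calc U (x : ℂ) = U (x : ℂ) * 1 := (mul_one _).symm
            _ ≤ U (x : ℂ) * ((R ^ 2 + 1) * J3.w R (x - α)) := mul_le_mul_of_nonneg_left e1 e2
            _ = _ := by ring
      _ ≤ ∫⁻ x, ENNReal.ofReal (R ^ 2 + 1) *
            ENNReal.ofReal (U ((x : ℝ) : ℂ) * J3.w R (x - α)) := setLIntegral_le_lintegral _ _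
      _ = ENNReal.ofReal (R ^ 2 + 1) * J3.JJ U R α := by
          rw [lintegral_const_mul' _ _ ENNReal.ofReal_ne_top]
          rfl
      _ = ENNReal.ofReal ((R ^ 2 + 1) * j) := by
          rw [hJ, ← ENNReal.ofReal_mul (by positivity)]
      _ ≤ _ := by
          apply ENNReal.ofReal_le_ofReal
          exact mul_le_mul_of_nonneg_left h1 (by positivity)
  exact (ENNReal.ofReal_le_ofReal_iff (by positivity)).1 h2

end Pool.Agent.TH308.RD
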