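import Pool.Agent.TH308.RD.Defs
set_option autoImplicit false

/-! Job 1099 (helper511): windows of `U` at height `y`. -/
namespace Pool.Agent.TH308.RD
open MeasureTheory Set Complex Filter Topology

namespace J3b

/-- the Poisson kernel of the half plane -/
noncomputable def pk (y v : ℝ) : ℝ := y / (Real.pi * (v ^ 2 + y ^ 2))

lemma pk_eq {y : ℝ} (hy : 0 < y) (v : ℝ) :
    pk y v = (Real.pi * y)⁻¹ * (1 + (v / y) ^ 2)⁻¹ := by
  unfold pk
  have := Real.pi_pos
  field_simp
  ring

lemma pk_nonneg {y : ℝ} (hy : 0 < y) (v : ℝ) : 0 ≤ pk y v := by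
  unfold pk
  have := Real.pi_pos
  positivity

lemma pk_cont {y : ℝ} (hy : 0 < y) : Continuous (pk y) := by
  unfold pk
  refine continuous_const.div (by fun_prop) fun v => ?_
  have := Real.pi_pos
  positivity

lemma pk_int {y : ℝ} (hy : 0 < y) : Integrable (pk y) := by
  have h1 : pk y = fun v => (Real.pi * y)⁻¹ * (1 + (v / y) ^ 2)⁻¹ := funext (pk_eq hy)
  rw [h1]
  exact (integrable_inv_one_add_sq.comp_div hy.ne').const_mul _

lemma pk_total {y : ℝ} (hy : 0 < y) : ∫ v, pk y v = 1 := by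
  have h1 : pk y = fun v => (Real.pi * y)⁻¹ * (1 + (v / y) ^ 2)⁻¹ := funext (pk_eq hy)
  rw [h1, integral_const_mul]
  have h2 := MeasureTheory.Measure.integral_comp_div (fun s : ℝ => (1 + s ^ 2)⁻¹) y
  rw [h2, integral_univ_inv_one_add_sq, abs_of_pos hy, smul_eq_mul]
  have := Real.pi_pos
  field_simp

variable {E : Set ℝ} {U : ℂ → ℝ}

lemma hpt (x : ℝ) : pt x 0 = (x : ℂ) := by simp [pt]

lemma ucont (h : Adm E U) : Continuous (fun t : ℝ => U (t : ℂ)) :=
  h.cont.comp Complex.continuous_ofReal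

/-- integrability of the Poisson integrand -/
lemma int1 (h : Adm E U) (hI : Integrable (fun t : ℝ => U (t : ℂ) / (1 + t ^ 2))) (x : ℝ) {y : ℝ}
    (hy : 0 < y) : Integrable (fun t : ℝ => pk y (x - t) * U (t : ℂ)) := by
  refine (hI.const_mul (y / Real.pi * (2 + (1 + 2 * x ^ 2) / y ^ 2))).mono' ?_ ?_
  · exact (((pk_cont hy).comp (by fun_prop)).mul (ucont h)).aestronglyMeasurable
  · refine Filter.Eventually.of_forall fun t => ?_
    have hu := h.nonneg (t : ℂ)
    rw [Real.norm_of_nonneg (mul_nonneg (pk_nonneg hy _) hu)]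
    have hpi := Real.pi_pos
    have hk : pk y (x - t) ≤ y / Real.pi * (2 + (1 + 2 * x ^ 2) / y ^ 2) / (1 + t ^ 2) := by
      unfold pk
      have e1 : y / Real.pi * (2 + (1 + 2 * x ^ 2) / y ^ 2) / (1 + t ^ 2) =
          (y * (2 + (1 + 2 * x ^ 2) / y ^ 2)) / (Real.pi * (1 + t ^ 2)) := by
        field_simp
      rw [e1, div_le_div_iff₀ (by positivity) (by positivity)]
      have e2 : 1 + t ^ 2 ≤ (2 + (1 + 2 * x ^ 2) / y ^ 2) * ((x - t) ^ 2 + y ^ 2) := by
        have e3 : (1 + 2 * x ^ 2) / y ^ 2 * y ^ 2 = 1 + 2 * x ^ 2 := by field_simp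
        have e4 : 0 ≤ (1 + 2 * x ^ 2) / y ^ 2 * (x - t) ^ 2 := by positivity
        nlinarith [sq_nonneg (x - t - x), sq_nonneg (2 * x - t)]
      nlinarith [mul_le_mul_of_nonneg_left e2 (by positivity : 0 ≤ y * Real.pi)]
    calc pk y (x - t) * U (t : ℂ)
        ≤ y / Real.pi * (2 + (1 + 2 * x ^ 2) / y ^ 2) / (1 + t ^ 2) * U (t : ℂ) :=
          mul_le_mul_of_nonneg_right hk hu
      _ = _ := by ring

/-- the window at height `y` as an average of windows on the real line -/
lemma window (h : Adm E U) (hI : Integrable (fun t : ℝ => U (t : ℂ) / (1 + t ^ 2)))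
    (hP : ∀ x y : ℝ, 0 < y →
      U (pt x y) = y + ∫ t : ℝ, y / (Real.pi * ((x - t) ^ 2 + y ^ 2)) * U (t : ℂ))
    (α : ℝ) {y : ℝ} (hy : 0 < y) :
    Integrable (fun v => pk y v * ∫ x in (α - v)..(α - v + 1), U (pt x 0)) ∧
    ∫ x in α..(α + 1), U (pt x y) =
      y + ∫ v, pk y v * ∫ x in (α - v)..(α - v + 1), U (pt x 0) := by
  have hle : α ≤ α + 1 := by linarith
  -- the integrand
  set F : ℝ → ℝ → ℝ := fun x v => pk y v * U ((x - v : ℝ) : ℂ) with hF
  have hFc : Continuous (Function.uncurry F) := by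
    have h1 : Continuous (fun q : ℝ × ℝ => pk y q.2) := (pk_cont hy).comp continuous_snd
    have h2 : Continuous (fun q : ℝ × ℝ => U ((q.1 - q.2 : ℝ) : ℂ)) :=
      (ucont h).comp (continuous_fst.sub continuous_snd)
    exact h1.mul h2
  have hFn : ∀ x v, 0 ≤ F x v := fun x v => mul_nonneg (pk_nonneg hy _) (h.nonneg _)
  have hsub : ∀ x : ℝ, (fun t : ℝ => pk y (x - t) * U (t : ℂ)) = fun t => F x (x - t) := by
    intro x
    funext t
    simp only [hF]
    rw [sub_sub_cancel]
  have hFi : ∀ x, Integrable (F x) := by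
    intro x
    have h1 := int1 h hI x hy
    rw [hsub] at h1
    exact (integrable_comp_sub_left (F x) x).1 h1
  have hval : ∀ x, ∫ v, F x v = U (pt x y) - y := by
    intro x
    have h1 : ∫ t, F x (x - t) = ∫ v, F x v := integral_sub_left_eq_self (F x) volume x
    rw [← h1, ← hsub, hP x y hy]
    unfold pk
    ring
  have hint : Integrable (Function.uncurry F) ((volume.restrict (Ioc α (α + 1))).prod volume) := by
    rw [integrable_prod_iff hFc.aestronglyMeasurable]
    refine ⟨Filter.Eventually.of_forall fun x => hFi x, ?_⟩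
    have h1 : (fun x => ∫ v, ‖Function.uncurry F (x, v)‖) = fun x => U (pt x y) - y := by
      funext x
      rw [← hval x]
      refine integral_congr_ae (Filter.Eventually.of_forall fun v => ?_)
      exact Real.norm_of_nonneg (hFn x v)
    rw [h1]
    have hc : Continuous (fun x => U (pt x y) - y) :=
      (h.cont.comp (continuous_pt.comp (by fun_prop : Continuous fun t : ℝ => (t, y)))).sub
        continuous_const
    exact (hc.integrableOn_Icc (a := α) (b := α + 1)).mono_set Ioc_subset_Icc_self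
  have hin : ∀ v, ∫ x in Ioc α (α + 1), F x v =
      pk y v * ∫ x in (α - v)..(α - v + 1), U (pt x 0) := by
    intro v
    simp only [hF]
    rw [integral_const_mul]
    congr 1
    rw [← intervalIntegral.integral_of_le hle]
    have h1 := intervalIntegral.integral_comp_sub_right (a := α) (b := α + 1)
      (fun s : ℝ => U (s : ℂ)) v
    rw [h1]
    have h2 : α + 1 - v = α - v + 1 := by ring
    rw [h2]
    simp only [hpt]
  constructor
  · have h1 := hint.integral_prod_right
    refine h1.congr (Filter.Eventually.of_forall fun v => ?_)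
    exact hin v
  · have h2 : ∫ x in α..(α + 1), U (pt x y) = ∫ x in Ioc α (α + 1), (y + ∫ v, F x v) := by
      rw [intervalIntegral.integral_of_le hle]
      refine integral_congr_ae (Filter.Eventually.of_forall fun x => ?_)
      show U (pt x y) = y + ∫ v, F x v
      rw [hval]
      ring
    have h3 : Integrable (fun x => ∫ v, F x v) (volume.restrict (Ioc α (α + 1))) :=
      hint.integral_prod_left
    have h4 : ∫ x in Ioc α (α + 1), (y + ∫ v, F x v) =
        (∫ _ in Ioc α (α + 1), y) + ∫ x in Ioc α (α + 1), ∫ v, F x v :=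
      integral_add (integrable_const _) h3
    rw [h2, h4, integral_integral_swap hint]
    congr 1
    · rw [setIntegral_const]
      simp
    · refine integral_congr_ae (Filter.Eventually.of_forall fun v => ?_)
      exact hin v

lemma case_zero (α y : ℝ) (hy : y = 0) (C : ℝ) (h0 : ∫ x in α..(α + 1), U (pt x 0) = C) :
    ∫ x in α..(α + 1), U (pt x y) = |y| + C := by
  rw [hy, h0, abs_zero, zero_add]

lemma abs_eq (h : Adm E U) (α y : ℝ) :
    ∫ x in α..(α + 1), U (pt x y) = ∫ x in α..(α + 1), U (pt x |y|) := by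
  simp only [h.abs_pt]

end J3b

open J3b

theorem window_le_of {E : Set ℝ} {U : ℂ → ℝ} (h : Adm E U)
    (hI : Integrable (fun t : ℝ => U (t : ℂ) / (1 + t ^ 2)))
    (hP : ∀ x y : ℝ, 0 < y →
      U (pt x y) = y + ∫ t : ℝ, y / (Real.pi * ((x - t) ^ 2 + y ^ 2)) * U (t : ℂ)) {M : ℝ}
    (hM : ∀ α : ℝ, ∫ x in α..(α + 1), U (pt x 0) ≤ M) (α y : ℝ) :
    ∫ x in α..(α + 1), U (pt x y) ≤ |y| + M := by
  rcases eq_or_ne y 0 with hy | hy
  · rw [case_zero α y hy _ rfl]
    exact add_le_add_right (hM α) _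
  · have hy' : 0 < |y| := abs_pos.2 hy
    obtain ⟨h1, h2⟩ := window h hI hP α hy'
    rw [abs_eq h, h2]
    refine add_le_add_right ?_ _
    calc ∫ v, pk |y| v * ∫ x in (α - v)..(α - v + 1), U (pt x 0)
        ≤ ∫ v, pk |y| v * M := by
          refine integral_mono h1 ((pk_int hy').mul_const M) fun v => ?_
          exact mul_le_mul_of_nonneg_left (hM (α - v)) (pk_nonneg hy' v)
      _ = M := by rw [integral_mul_const, pk_total hy', one_mul]

theorem window_eq_of {E : Set ℝ} {U : ℂ → ℝ} (h : Adm E U)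
    (hI : Integrable (fun t : ℝ => U (t : ℂ) / (1 + t ^ 2)))
    (hP : ∀ x y : ℝ, 0 < y →
      U (pt x y) = y + ∫ t : ℝ, y / (Real.pi * ((x - t) ^ 2 + y ^ 2)) * U (t : ℂ))
    (hp : ∀ z, U (z + 1) = U z) (α y : ℝ) :
    ∫ x in α..(α + 1), U (pt x y) = |y| + ∫ x in α..(α + 1), U (pt x 0) := by
  rcases eq_or_ne y 0 with hy | hy
  · exact case_zero α y hy _ rfl
  · have hy' : 0 < |y| := abs_pos.2 hy
    obtain ⟨h1, h2⟩ := window h hI hP α hy'
    have hper : Function.Periodic (fun x : ℝ => U (pt x 0)) 1 := by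
      intro x
      simp only [hpt]
      rw [← hp (x : ℂ)]
      push_cast
      rfl
    have h3 : ∀ v, ∫ x in (α - v)..(α - v + 1), U (pt x 0) = ∫ x in α..(α + 1), U (pt x 0) :=
      fun v => hper.intervalIntegral_add_eq (α - v) α
    rw [abs_eq h, h2]
    simp only [h3]
    rw [integral_mul_const, pk_total hy', one_mul]

end Pool.Agent.TH308.RD
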