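import Pool.Agent.TH308.RD.Defs
set_option autoImplicit false

/-! Job 1100 (helper511): level sets of `x ↦ U (x + i y)`. -/
namespace Pool.Agent.TH308.RD
open MeasureTheory Set Complex Filter Topology

/-- a set of positive measure accumulates at one of its points -/
lemma exists_accum {A : Set ℝ} (hA : volume A ≠ 0) : ∃ x ∈ A, ∃ᶠ y in 𝓝[≠] x, y ∈ A := by
  obtain ⟨x, hx, hpos⟩ := exists_mem_forall_mem_nhdsWithin_pos_measure hA
  refine ⟨x, hx, ?_⟩
  rw [frequently_iff]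
  intro V hV
  rw [mem_nhdsWithin] at hV
  obtain ⟨t, ht, hxt, hsub⟩ := hV
  have h1 : 0 < volume (t ∩ A) := hpos _ (inter_mem_nhdsWithin' ht hxt)
  by_contra hcon
  push Not at hcon
  have h2 : t ∩ A ⊆ {x} := by
    rintro y ⟨hy1, hy2⟩
    by_contra hne
    exact hcon y (hsub ⟨hy1, hne⟩) hy2
  have h3 := measure_mono (μ := volume) h2
  rw [Real.volume_singleton] at h3
  exact absurd h1 (not_lt.2 h3)
where
  inter_mem_nhdsWithin' {t A : Set ℝ} {x : ℝ} (ht : IsOpen t) (hx : x ∈ t) :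
      t ∩ A ∈ 𝓝[A] x := by
    rw [inter_comm]
    exact inter_mem_nhdsWithin A (ht.mem_nhds hx)

lemma Adm.analytic {E : Set ℝ} {U : ℂ → ℝ} (h : Adm E U) {x y : ℝ}
    (hz : pt x y ∉ ((fun t : ℝ => (t : ℂ)) '' E)) :
    AnalyticAt ℝ (fun t : ℝ => U (pt t y)) x := by
  have h1 : AnalyticAt ℝ U (pt x y) := HarmonicAt.analyticAt (h.harm _ hz)
  have h2 : AnalyticAt ℝ (fun t : ℝ => pt t y) x := by
    unfold pt
    exact (Complex.ofRealCLM.analyticAt x).add analyticAt_const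
  exact AnalyticAt.fun_comp_of_eq (f := fun t : ℝ => pt t y) h1 h2 rfl

lemma Adm.cont_pt {E : Set ℝ} {U : ℂ → ℝ} (h : Adm E U) (y : ℝ) :
    Continuous (fun t : ℝ => U (pt t y)) :=
  h.cont.comp (continuous_pt.comp (by fun_prop : Continuous fun t : ℝ => (t, y)))

theorem Adm.level {E : Set ℝ} {U : ℂ → ℝ} (h : Adm E U) {δ : ℝ} (hδ : 0 < δ)
    (hE : RelDense 1 δ E) (y c : ℝ) (hyc : y ≠ 0 ∨ c ≠ 0)
    (hlev : volume {x : ℝ | U (pt x y) = c} ≠ 0) : y ≠ 0 ∧ ∀ x : ℝ, U (pt x y) = c := by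
  obtain ⟨x0, hx0, hfr⟩ := exists_accum hlev
  by_cases hy : y = 0
  · exfalso
    have hc : c ≠ 0 := hyc.resolve_left (not_not.2 hy)
    subst hy
    have hpt : ∀ x : ℝ, pt x 0 = (x : ℂ) := fun x => by simp [pt]
    have hE0 : ∀ x ∈ E, U (pt x 0) = 0 := fun x hx => by rw [hpt]; exact h.zero x hx
    have hxE : x0 ∉ E := fun hx => hc ((hE0 x0 hx).symm.trans hx0).symm
    -- a point of `E` to the left of `x0`
    have hne : (E ∩ Iic x0).Nonempty := by
      have h1 := hE (x0 - 1)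
      rw [sub_add_cancel] at h1
      have h2 : 0 < volume (E ∩ Icc (x0 - 1) x0) :=
        lt_of_lt_of_le (ENNReal.ofReal_pos.2 hδ) h1
      obtain ⟨t, ht⟩ := nonempty_of_measure_ne_zero h2.ne'
      exact ⟨t, ht.1, ht.2.2⟩
    have hbd : BddAbove (E ∩ Iic x0) := ⟨x0, fun t ht => ht.2⟩
    have hcl : IsClosed (E ∩ Iic x0) := h.closed.inter isClosed_Iic
    have he := hcl.csSup_mem hne hbd
    set e := sSup (E ∩ Iic x0) with hedef
    have hlt : e < x0 := lt_of_le_of_ne he.2 (fun h' => hxE (h' ▸ he.1))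
    have hempty : ∀ t ∈ Ioc e x0, t ∉ E := fun t ht htE =>
      absurd (le_csSup hbd ⟨htE, ht.2⟩) (not_le.2 ht.1)
    have han : AnalyticOnNhd ℝ (fun t : ℝ => U (pt t 0)) (Ioc e x0) := by
      intro t ht
      refine h.analytic ?_
      rw [hpt]
      rintro ⟨s, hs, hst⟩
      exact hempty t ht (by
        have : s = t := Complex.ofReal_injective hst
        rwa [← this])
    have hEq : EqOn (fun t : ℝ => U (pt t 0)) (fun _ => c) (Ioc e x0) :=
      han.eqOn_of_preconnected_of_frequently_eq analyticOnNhd_const isPreconnected_Ioc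
        ⟨hlt, le_rfl⟩ hfr
    have hcont := h.cont_pt 0
    have hEq2 : EqOn (fun t : ℝ => U (pt t 0)) (fun _ => c) (closure (Ioc e x0)) :=
      hEq.closure hcont continuous_const
    have hmem : e ∈ closure (Ioc e x0) := by
      rw [closure_Ioc hlt.ne]
      exact ⟨le_rfl, hlt.le⟩
    have h5 : U (pt e 0) = c := hEq2 hmem
    rw [hE0 e he.1] at h5
    exact hc h5.symm
  · refine ⟨hy, ?_⟩
    have han : AnalyticOnNhd ℝ (fun t : ℝ => U (pt t y)) univ := fun t _ =>
      h.analytic (not_mem_of_im (by rw [pt_im]; exact hy))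
    have hEq : EqOn (fun t : ℝ => U (pt t y)) (fun _ => c) univ :=
      han.eqOn_of_preconnected_of_frequently_eq analyticOnNhd_const isPreconnected_univ
        (mem_univ x0) hfr
    exact fun x => hEq (mem_univ x)

end Pool.Agent.TH308.RD
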