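import Pool.Agent.TH308.RD.Defs

set_option autoImplicit false

/-! Exchange of pieces of two translates of a set, and the average over small circles. -/

namespace Pool.Agent.TH308.RD

open MeasureTheory Set Complex Filter Topology

/-- the left translate of `F` on `[x0, x1)` and the right translate elsewhere -/
def S1 (F : Set ℝ) (ρ x0 x1 : ℝ) : Set ℝ :=
  ((fun x => x + ρ) ⁻¹' F ∩ Ico x0 x1) ∪ ((fun x => x - ρ) ⁻¹' F \ Ico x0 x1)

/-- the complementary choice -/
def S2 (F : Set ℝ) (ρ x0 x1 : ℝ) : Set ℝ :=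
  ((fun x => x - ρ) ⁻¹' F ∩ Ico x0 x1) ∪ ((fun x => x + ρ) ⁻¹' F \ Ico x0 x1)

section
variable {F : Set ℝ} {α ρ x0 x1 : ℝ}

lemma meas_add (hF : MeasurableSet F) : MeasurableSet ((fun x : ℝ => x + ρ) ⁻¹' F) :=
  (measurable_id.add_const ρ) hF

lemma meas_sub (hF : MeasurableSet F) : MeasurableSet ((fun x : ℝ => x - ρ) ⁻¹' F) :=
  (measurable_id.sub_const ρ) hF

lemma S1_meas (hF : MeasurableSet F) : MeasurableSet (S1 F ρ x0 x1) :=
  ((meas_add hF).inter measurableSet_Ico).union ((meas_sub hF).diff measurableSet_Ico)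

lemma S2_meas (hF : MeasurableSet F) : MeasurableSet (S2 F ρ x0 x1) :=
  ((meas_sub hF).inter measurableSet_Ico).union ((meas_add hF).diff measurableSet_Ico)

lemma S1_sub (hF : F ⊆ Icc α (α + 1)) (hρ : 0 < ρ) (h0 : α + ρ ≤ x0) :
    S1 F ρ x0 x1 ⊆ Icc (α + ρ) (α + ρ + 1) := by
  rintro x (⟨h1, h2⟩ | ⟨h1, h2⟩)
  · have := hF h1
    simp only [mem_Icc, mem_Ico] at *
    constructor <;> linarith
  · have := hF h1
    simp only [mem_Icc] at *
    constructor <;> linarith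

lemma S2_sub (hF : F ⊆ Icc α (α + 1)) (hρ : 0 < ρ) (h1 : x1 ≤ α + 1 - ρ) :
    S2 F ρ x0 x1 ⊆ Icc (α - ρ) (α - ρ + 1) := by
  rintro x (⟨h2, h3⟩ | ⟨h2, h3⟩)
  · have := hF h2
    simp only [mem_Icc, mem_Ico] at *
    constructor <;> linarith
  · have := hF h2
    simp only [mem_Icc] at *
    constructor <;> linarith

lemma vol_fin (hF : F ⊆ Icc α (α + 1)) : volume F ≠ ⊤ :=
  ((measure_mono hF).trans_lt (by simp)).ne

lemma vol_pre_add (s : Set ℝ) : volume.real ((fun x : ℝ => x + ρ) ⁻¹' s) = volume.real s := by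
  simp [Measure.real, measure_preimage_add_right]

lemma vol_pre_sub (s : Set ℝ) : volume.real ((fun x : ℝ => x - ρ) ⁻¹' s) = volume.real s := by
  simp only [sub_eq_add_neg, Measure.real, measure_preimage_add_right]

lemma f_add (hFm : MeasurableSet F) (hF : volume F ≠ ⊤) {a b c : ℝ} (hab : a ≤ b) (hbc : b ≤ c) :
    volume.real (F ∩ Ico a c) = volume.real (F ∩ Ico a b) + volume.real (F ∩ Ico b c) := by
  have h1 : F ∩ Ico a c = (F ∩ Ico a b) ∪ (F ∩ Ico b c) := by
    rw [← inter_union_distrib_left, Ico_union_Ico_eq_Ico hab hbc]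
  rw [h1, measureReal_union]
  · apply Disjoint.mono inter_subset_right inter_subset_right
    rw [Set.disjoint_left]
    intro x hx hx'
    exact absurd hx.2 (not_lt.2 hx'.1)
  · exact hFm.inter measurableSet_Ico

lemma vol_S1 (hFm : MeasurableSet F) (hF : volume F ≠ ⊤) (hρ : 0 < ρ) (h01 : x0 ≤ x1) :
    volume.real (S1 F ρ x0 x1) = volume.real F + volume.real (F ∩ Ico (x1 - ρ) (x1 + ρ)) -
      volume.real (F ∩ Ico (x0 - ρ) (x0 + ρ)) := by
  have e1 : (fun x : ℝ => x + ρ) ⁻¹' F ∩ Ico x0 x1 =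
      (fun x : ℝ => x + ρ) ⁻¹' (F ∩ Ico (x0 + ρ) (x1 + ρ)) := by
    ext x
    simp only [mem_inter_iff, mem_preimage, mem_Ico]
    constructor
    · rintro ⟨h1, h2, h3⟩
      exact ⟨h1, by linarith, by linarith⟩
    · rintro ⟨h1, h2, h3⟩
      exact ⟨h1, by linarith, by linarith⟩
  have e2 : (fun x : ℝ => x - ρ) ⁻¹' F \ Ico x0 x1 =
      (fun x : ℝ => x - ρ) ⁻¹' (F \ Ico (x0 - ρ) (x1 - ρ)) := by
    ext x
    simp only [Set.mem_sdiff, mem_preimage, mem_Ico]
    constructor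
    · rintro ⟨h1, h2⟩
      exact ⟨h1, fun h => h2 ⟨by linarith [h.1], by linarith [h.2]⟩⟩
    · rintro ⟨h1, h2⟩
      exact ⟨h1, fun h => h2 ⟨by linarith [h.1], by linarith [h.2]⟩⟩
  have hfin : ∀ s : Set ℝ, volume (F ∩ s) ≠ ⊤ := fun s =>
    ((measure_mono inter_subset_left).trans_lt hF.lt_top).ne
  have hdisj : Disjoint ((fun x : ℝ => x + ρ) ⁻¹' F ∩ Ico x0 x1)
      ((fun x : ℝ => x - ρ) ⁻¹' F \ Ico x0 x1) := by
    rw [Set.disjoint_left]
    rintro x ⟨_, hx⟩ ⟨_, hx'⟩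
    exact hx' hx
  have hm := (meas_sub (ρ := ρ) hFm).diff (measurableSet_Ico (a := x0) (b := x1))
  unfold S1
  rw [measureReal_union hdisj hm (by rw [e1, measure_preimage_add_right]; exact hfin _)
    (by
      rw [e2]
      simp only [sub_eq_add_neg, measure_preimage_add_right]
      exact ((measure_mono sdiff_subset).trans_lt hF.lt_top).ne), e1, e2, vol_pre_add, vol_pre_sub]
  have e3 : volume.real (F \ Ico (x0 - ρ) (x1 - ρ)) =
      volume.real F - volume.real (F ∩ Ico (x0 - ρ) (x1 - ρ)) := by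
    have := measureReal_inter_add_sdiff (μ := volume) (s := F)
      (measurableSet_Ico (a := x0 - ρ) (b := x1 - ρ)) hF
    linarith
  rw [e3]
  have e4 := f_add hFm hF (show x0 - ρ ≤ x0 + ρ by linarith) (show x0 + ρ ≤ x1 + ρ by linarith)
  have e5 := f_add hFm hF (show x0 - ρ ≤ x1 - ρ by linarith) (show x1 - ρ ≤ x1 + ρ by linarith)
  linarith

lemma int_exchange (hFm : MeasurableSet F) (hF : F ⊆ Icc α (α + 1)) {g : ℝ → ℝ}
    (hg : Continuous g) :
    (∫ x in S1 F ρ x0 x1, g x) + (∫ x in S2 F ρ x0 x1, g x) =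
      ∫ x in F, (g (x + ρ) + g (x - ρ)) := by
  have hint : ∀ s : Set ℝ, s ⊆ Icc (α - |ρ|) (α + 1 + |ρ|) → IntegrableOn g s := fun s hs =>
    (hg.integrableOn_Icc).mono_set hs
  have hA : (fun x : ℝ => x + ρ) ⁻¹' F ⊆ Icc (α - |ρ|) (α + 1 + |ρ|) := by
    intro x hx
    have := hF hx
    have h1 := le_abs_self ρ
    have h2 := neg_abs_le ρ
    simp only [mem_Icc] at *
    constructor <;> linarith
  have hB : (fun x : ℝ => x - ρ) ⁻¹' F ⊆ Icc (α - |ρ|) (α + 1 + |ρ|) := by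
    intro x hx
    have := hF hx
    have h1 := le_abs_self ρ
    have h2 := neg_abs_le ρ
    simp only [mem_Icc] at *
    constructor <;> linarith
  have hmA := meas_add (ρ := ρ) hFm
  have hmB := meas_sub (ρ := ρ) hFm
  have hI := measurableSet_Ico (a := x0) (b := x1)
  have d1 : Disjoint ((fun x : ℝ => x + ρ) ⁻¹' F ∩ Ico x0 x1)
      ((fun x : ℝ => x - ρ) ⁻¹' F \ Ico x0 x1) := by
    rw [Set.disjoint_left]
    rintro x ⟨_, hx⟩ ⟨_, hx'⟩
    exact hx' hx
  have d2 : Disjoint ((fun x : ℝ => x - ρ) ⁻¹' F ∩ Ico x0 x1)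
      ((fun x : ℝ => x + ρ) ⁻¹' F \ Ico x0 x1) := by
    rw [Set.disjoint_left]
    rintro x ⟨_, hx⟩ ⟨_, hx'⟩
    exact hx' hx
  unfold S1 S2
  rw [setIntegral_union d1 (hmB.diff hI) (hint _ (inter_subset_left.trans hA))
      (hint _ (sdiff_subset.trans hB)),
    setIntegral_union d2 (hmA.diff hI) (hint _ (inter_subset_left.trans hB))
      (hint _ (sdiff_subset.trans hA))]
  have e1 := integral_inter_add_sdiff (μ := volume) hI (hint _ hA)
  have e2 := integral_inter_add_sdiff (μ := volume) hI (hint _ hB)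
  have e3 : ∫ x in F, g (x - ρ) = ∫ x in (fun x : ℝ => x + ρ) ⁻¹' F, g x := by
    have := (measurePreserving_add_right volume ρ).setIntegral_preimage_emb
      (measurableEmbedding_addRight ρ) (fun x => g (x - ρ)) F
    rw [← this]
    simp
  have e4 : ∫ x in F, g (x + ρ) = ∫ x in (fun x : ℝ => x - ρ) ⁻¹' F, g x := by
    have := (measurePreserving_add_right volume (-ρ)).setIntegral_preimage_emb
      (measurableEmbedding_addRight (-ρ)) (fun x => g (x + ρ)) F
    rw [← this]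
    simp [sub_eq_add_neg]
  rw [integral_add, e3, e4, ← e1, ← e2]
  · ring
  · exact ((hg.comp (continuous_add_const ρ)).integrableOn_Icc).mono_set hF
  · exact ((hg.comp (continuous_sub_right ρ)).integrableOn_Icc).mono_set hF

end

end Pool.Agent.TH308.RD
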