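import Pool.Agent.TH308.RD.M9

set_option autoImplicit false

/-! The final statements for general `N`. -/

namespace Pool.Agent.TH308.RD

open MeasureTheory Set Complex Filter Topology

lemma Eper_iff {δ s : ℝ} (h0 : 0 < δ) (h1 : δ < 1) (n : ℤ) (hs : |s - n| ≤ 1 / 2) :
    s + 1 / 2 ∈ Eper δ ↔ |s - n| ≤ δ / 2 := by
  have hpi := Real.pi_pos
  have e1 : |Real.cos (Real.pi * (s + 1 / 2))| = Real.sin (Real.pi * |s - n|) := by
    have e2 : Real.cos (Real.pi * (s + 1 / 2)) = -Real.sin (Real.pi * s) := by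
      rw [show Real.pi * (s + 1 / 2) = Real.pi * s + Real.pi / 2 by ring, Real.cos_add_pi_div_two]
    have e3 : |Real.sin (Real.pi * s)| = |Real.sin (Real.pi * (s - n))| := by
      rw [show Real.pi * (s - n) = Real.pi * s - n * Real.pi by ring, Real.sin_sub_int_mul_pi,
        abs_mul, abs_zpow, abs_neg, abs_one, one_zpow, one_mul]
    have e4 : |Real.sin (Real.pi * (s - n))| = |Real.sin (Real.pi * |s - n|)| := by
      rcases abs_cases (s - n) with ⟨h, _⟩ | ⟨h, _⟩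
      · rw [h]
      · rw [h, mul_neg, Real.sin_neg, abs_neg]
    rw [e2, abs_neg, e3, e4]
    apply abs_of_nonneg
    apply Real.sin_nonneg_of_nonneg_of_le_pi
    · positivity
    · nlinarith
  show |Real.cos (Real.pi * (s + 1 / 2))| ≤ Real.sin (Real.pi * δ / 2) ↔ _
  rw [e1, Real.strictMonoOn_sin.le_iff_le]
  · constructor
    · intro h
      have : Real.pi * |s - n| ≤ Real.pi * (δ / 2) := by linarith
      exact le_of_mul_le_mul_left this hpi
    · intro h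
      have : Real.pi * |s - n| ≤ Real.pi * (δ / 2) := mul_le_mul_of_nonneg_left h hpi.le
      linarith
  · constructor
    · have : 0 ≤ Real.pi * |s - n| := by positivity
      linarith
    · nlinarith
  · constructor
    · have : 0 ≤ Real.pi * δ / 2 := by positivity
      linarith
    · nlinarith

lemma Eper_iff' {δ s : ℝ} (h0 : 0 < δ) (h1 : δ < 1) :
    s + 1 / 2 ∈ Eper δ ↔ ∃ n : ℤ, |s - n| ≤ δ / 2 := by
  constructor
  · intro h
    exact ⟨round s, (Eper_iff h0 h1 (round s) (abs_sub_round s)).1 h⟩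
  · rintro ⟨n, hn⟩
    exact (Eper_iff h0 h1 n (by linarith)).2 hn

lemma Eper_scaled {N δ : ℝ} (h0 : 0 < δ) (h1 : δ < N) (x : ℝ) :
    N⁻¹ * x + 1 / 2 ∈ Eper (δ / N) ↔ ∃ n : ℤ, |x - n * N| ≤ δ / 2 := by
  have hN : 0 < N := h0.trans h1
  rw [Eper_iff' (by positivity) ((div_lt_one hN).2 h1)]
  have e : ∀ n : ℤ, |N⁻¹ * x - n| ≤ δ / N / 2 ↔ |x - n * N| ≤ δ / 2 := by
    intro n
    have e1 : N⁻¹ * x - n = (x - n * N) / N := by
      field_simp
    have e2 : δ / N / 2 = δ / 2 / N := by ring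
    rw [e1, abs_div, abs_of_pos hN, e2, div_le_div_iff_of_pos_right hN]
  simp only [e]

/-- the upper bound -/
theorem upper {E : Set ℝ} {U : ℂ → ℝ} (h : Adm E U) {N δ : ℝ} (hδ : 0 < δ) (hN : δ < N)
    (hE : RelDense N δ E) (x : ℝ) :
    U (x : ℂ) ≤ N / Real.pi * Real.log (Real.cot (Real.pi * δ / (4 * N))) := by
  have hN0 : 0 < N := hδ.trans hN
  have hE' := hE.affine hN0 0
  rw [div_self hN0.ne'] at hE'
  have h1 : 0 < δ / N := by positivity
  have h2 : δ / N < 1 := (div_lt_one hN0).2 hN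
  have hb := bound_per (h.affine hN0 0) h1 h2 hE' (x / N)
  rw [Uper_zero h1 h2] at hb
  have e1 : (N : ℂ) * ((x / N : ℝ) : ℂ) + ((0 : ℝ) : ℂ) = (x : ℂ) := by
    have : (N : ℂ) ≠ 0 := by exact_mod_cast hN0.ne'
    push_cast
    field_simp
    ring
  rw [e1, div_le_div_iff₀ hN0 Real.pi_pos] at hb
  have e2 : Real.pi * (δ / N) / 4 = Real.pi * δ / (4 * N) := by
    field_simp
  rw [e2] at hb
  rw [div_mul_eq_mul_div, le_div_iff₀ Real.pi_pos]
  linarith

/-- the extremal set -/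
theorem extremal_adm {N δ : ℝ} (hδ : 0 < δ) (hN : δ < N) :
    RelDense N δ {x : ℝ | ∃ n : ℤ, |x - n * N| ≤ δ / 2} ∧
    ∃ U : ℂ → ℝ, Adm {x : ℝ | ∃ n : ℤ, |x - n * N| ≤ δ / 2} U ∧
      U ((N / 2 : ℝ) : ℂ) = N / Real.pi * Real.log (Real.cot (Real.pi * δ / (4 * N))) := by
  have hN0 : 0 < N := hδ.trans hN
  have h1 : 0 < δ / N := by positivity
  have h2 : δ / N < 1 := (div_lt_one hN0).2 hN
  have hi : 0 < N⁻¹ := inv_pos.2 hN0
  have hset : {x : ℝ | N⁻¹ * x + 1 / 2 ∈ Eper (δ / N)} = {x : ℝ | ∃ n : ℤ, |x - n * N| ≤ δ / 2} := by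
    ext x
    exact Eper_scaled hδ hN x
  have hA := (Uper_adm h1 h2).affine hi (1 / 2)
  have hR := (Eper_relDense h1 h2).affine hi (1 / 2)
  rw [hset] at hA hR
  have e1 : 1 / N⁻¹ = N := by simp
  have e2 : δ / N / N⁻¹ = δ := by field_simp
  rw [e1, e2] at hR
  refine ⟨hR, _, hA, ?_⟩
  have e3 : ((N⁻¹ : ℝ) : ℂ) * ((N / 2 : ℝ) : ℂ) + ((1 / 2 : ℝ) : ℂ) = 0 + 1 := by
    have : (N : ℂ) ≠ 0 := by exact_mod_cast hN0.ne'
    push_cast
    field_simp
    ring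
  simp only [e3]
  rw [Uper_period, Uper_zero h1 h2]
  have e4 : Real.pi * (δ / N) / 4 = Real.pi * δ / (4 * N) := by
    field_simp
  rw [e4]
  field_simp

/-- uniqueness of the extremal set -/
theorem extremal_unique {E : Set ℝ} {U : ℂ → ℝ} (h : Adm E U) {N δ : ℝ} (hδ : 0 < δ) (hN : δ < N)
    (hE : RelDense N δ E) {x0 : ℝ}
    (heq : U (x0 : ℂ) = N / Real.pi * Real.log (Real.cot (Real.pi * δ / (4 * N)))) :
    E = {x : ℝ | x - (x0 + N / 2) ∈ {x : ℝ | ∃ n : ℤ, |x - n * N| ≤ δ / 2}} := by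
  have hN0 : 0 < N := hδ.trans hN
  have hE' := hE.affine hN0 0
  rw [div_self hN0.ne'] at hE'
  have h1 : 0 < δ / N := by positivity
  have h2 : δ / N < 1 := (div_lt_one hN0).2 hN
  have e4 : Real.pi * (δ / N) / 4 = Real.pi * δ / (4 * N) := by
    field_simp
  have heq' : U ((N : ℂ) * ((x0 / N : ℝ) : ℂ) + ((0 : ℝ) : ℂ)) / N = Uper (δ / N) 0 := by
    have e1 : (N : ℂ) * ((x0 / N : ℝ) : ℂ) + ((0 : ℝ) : ℂ) = (x0 : ℂ) := by
      have : (N : ℂ) ≠ 0 := by exact_mod_cast hN0.ne'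
      push_cast
      field_simp
      ring
    rw [e1, heq, Uper_zero h1 h2, e4]
    field_simp
  obtain ⟨_, hu⟩ := unique_one (h.affine hN0 0) h1 h2 hE' heq'
  ext x
  have h3 := hu ((x - x0) / N)
  have e5 : N * ((x - x0) / N + x0 / N) + 0 = x := by
    field_simp
    ring
  have h4 : (x - x0) / N + x0 / N ∈ {x : ℝ | N * x + 0 ∈ E} ↔ x ∈ E := by
    show N * ((x - x0) / N + x0 / N) + 0 ∈ E ↔ x ∈ E
    rw [e5]
  rw [← h4, h3]
  show _ ↔ ∃ n : ℤ, |x - (x0 + N / 2) - n * N| ≤ δ / 2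
  rw [← Eper_scaled hδ hN]
  have e6 : N⁻¹ * (x - (x0 + N / 2)) + 1 / 2 = (x - x0) / N := by
    field_simp
    ring
  rw [e6]

end Pool.Agent.TH308.RD
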