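import Pool.Agent.TH308.RD.M1

set_option autoImplicit false

/-! Averages over small circles of integrals along horizontal segments. -/

namespace Pool.Agent.TH308.RD

open MeasureTheory Set Complex Filter Topology

lemma refl_avg {f : ℝ → ℝ} (hp : Function.Periodic f (2 * Real.pi)) :
    ∫ s in (0 : ℝ)..(2 * Real.pi), f (Real.pi - s) = ∫ s in (0 : ℝ)..(2 * Real.pi), f s := by
  rw [intervalIntegral.integral_comp_sub_left (fun s => f s)]
  have := hp.intervalIntegral_add_eq (-Real.pi) 0
  rw [zero_add] at this
  rw [← this]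
  congr 1 <;> ring

lemma circleMap_pt (x y r s : ℝ) :
    circleMap (pt x y) r s = pt (x + r * Real.cos s) (y + r * Real.sin s) := by
  rw [circleMap, Complex.exp_mul_I, ← Complex.ofReal_cos, ← Complex.ofReal_sin]
  apply Complex.ext <;> simp [pt]

/-- the symmetric pair -/
noncomputable def pairW (W : ℂ → ℝ) (x y r s : ℝ) : ℝ :=
  W (pt (x + r * Real.cos s) (y + r * Real.sin s)) + W (pt (x - r * Real.cos s) (y + r * Real.sin s))

lemma pairW_cont {W : ℂ → ℝ} (hW : Continuous W) (y r : ℝ) :
    Continuous (fun p : ℝ × ℝ => pairW W p.2 y r p.1) := by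
  unfold pairW pt
  fun_prop

lemma pair_avg {W : ℂ → ℝ} (hW : Continuous W) (x y r : ℝ) :
    ∫ s in (0 : ℝ)..(2 * Real.pi), pairW W x y r s =
      4 * Real.pi * Real.circleAverage W (pt x y) r := by
  have h1 : ∫ s in (0 : ℝ)..(2 * Real.pi), W (pt (x + r * Real.cos s) (y + r * Real.sin s)) =
      2 * Real.pi * Real.circleAverage W (pt x y) r := by
    rw [Real.circleAverage_def]
    simp only [circleMap_pt, smul_eq_mul]
    have := Real.pi_pos
    field_simp
  have h2 : ∫ s in (0 : ℝ)..(2 * Real.pi), W (pt (x - r * Real.cos s) (y + r * Real.sin s)) =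
      ∫ s in (0 : ℝ)..(2 * Real.pi), W (pt (x + r * Real.cos s) (y + r * Real.sin s)) := by
    have hp : Function.Periodic
        (fun s => W (pt (x + r * Real.cos s) (y + r * Real.sin s))) (2 * Real.pi) := by
      intro s
      simp
    rw [← refl_avg hp]
    congr 1
    ext s
    rw [Real.cos_pi_sub, Real.sin_pi_sub]
    ring_nf
  unfold pairW
  rw [intervalIntegral.integral_add, h1, h2, h1]
  · ring
  · apply Continuous.intervalIntegrable
    unfold pt
    fun_prop
  · apply Continuous.intervalIntegrable
    unfold pt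
    fun_prop

lemma swap_avg {W : ℂ → ℝ} (hW : Continuous W) {F : Set ℝ} {a b : ℝ}
    (hF : F ⊆ Icc a b) (y r : ℝ) :
    ∫ s in (0 : ℝ)..(2 * Real.pi), (∫ x in F, pairW W x y r s) =
      4 * Real.pi * ∫ x in F, Real.circleAverage W (pt x y) r := by
  have hpi := Real.pi_pos
  rw [intervalIntegral.integral_of_le (by positivity), integral_integral_swap, ← integral_const_mul]
  · congr 1
    ext x
    rw [← pair_avg hW, intervalIntegral.integral_of_le (by positivity)]
  · rw [Measure.prod_restrict]
    have : IntegrableOn (Function.uncurry fun s x => pairW W x y r s)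
        (Icc (0 : ℝ) (2 * Real.pi) ×ˢ Icc a b) (volume.prod volume) := by
      apply ContinuousOn.integrableOn_compact (isCompact_Icc.prod isCompact_Icc)
      exact (pairW_cont hW y r).continuousOn
    exact this.mono_set (prod_mono Ioc_subset_Icc_self hF)

/-- the primitive along symmetric segments -/
noncomputable def TT (V : ℂ → ℝ) (θ y : ℝ) : ℝ := ∫ x in (-θ)..θ, V (pt x y)

lemma TT_pair {V : ℂ → ℝ} (hV : Continuous V) {θ : ℝ} (hθ : 0 ≤ θ) (y r s : ℝ) :
    TT V (θ + r * Real.cos s) (y + r * Real.sin s) + TT V (θ - r * Real.cos s) (y + r * Real.sin s) =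
      ∫ x in Ioc (-θ) θ, pairW V x y r s := by
  have hc : Continuous (fun x : ℝ => V (pt x (y + r * Real.sin s))) := by
    unfold pt
    fun_prop
  have hi : ∀ a b : ℝ, IntervalIntegrable (fun x : ℝ => V (pt x (y + r * Real.sin s))) volume a b :=
    fun a b => hc.intervalIntegrable a b
  rw [← intervalIntegral.integral_of_le (by linarith)]
  unfold pairW
  rw [intervalIntegral.integral_add]
  · rw [intervalIntegral.integral_comp_add_right (fun x => V (pt x (y + r * Real.sin s))),
      intervalIntegral.integral_comp_sub_right (fun x => V (pt x (y + r * Real.sin s)))]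
    unfold TT
    have e1 := intervalIntegral.integral_add_adjacent_intervals
      (hi (-(θ + r * Real.cos s)) (-(θ - r * Real.cos s))) (hi (-(θ - r * Real.cos s)) (θ + r * Real.cos s))
    have e2 := intervalIntegral.integral_add_adjacent_intervals
      (hi (-(θ + r * Real.cos s)) (-(θ - r * Real.cos s))) (hi (-(θ - r * Real.cos s)) (θ - r * Real.cos s))
    have e3 : -(θ - r * Real.cos s) = -θ + r * Real.cos s := by ring
    have e4 : -(θ + r * Real.cos s) = -θ - r * Real.cos s := by ring
    rw [e3, e4] at e1 e2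
    rw [e3, e4]
    linarith
  · exact (hc.comp (continuous_add_const _)).intervalIntegrable _ _
  · exact (hc.comp (continuous_sub_right _)).intervalIntegrable _ _

lemma TT_avg {V : ℂ → ℝ} (hV : Continuous V) {θ : ℝ} (hθ : 0 ≤ θ) (y r : ℝ)
    (hm : ∀ x ∈ Ioc (-θ) θ, Real.circleAverage V (pt x y) r = V (pt x y)) :
    ∫ s in (0 : ℝ)..(2 * Real.pi), (TT V (θ + r * Real.cos s) (y + r * Real.sin s) +
      TT V (θ - r * Real.cos s) (y + r * Real.sin s)) = 4 * Real.pi * TT V θ y := by
  simp_rw [TT_pair hV hθ]
  rw [swap_avg hV Ioc_subset_Icc_self, setIntegral_congr_fun measurableSet_Ioc hm, TT,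
    intervalIntegral.integral_of_le (by linarith)]

lemma TT_cont {V : ℂ → ℝ} (hV : Continuous V) : Continuous (fun p : ℝ × ℝ => TT V p.1 p.2) := by
  have e : (fun p : ℝ × ℝ => TT V p.1 p.2) =
      fun p : ℝ × ℝ => ∫ u in (-1 : ℝ)..1, p.1 * V (pt (p.1 * u) p.2) := by
    ext p
    unfold TT
    rw [intervalIntegral.integral_const_mul]
    have := intervalIntegral.smul_integral_comp_mul_left (a := -1) (b := 1)
      (fun x => V (pt x p.2)) p.1
    simp only [smul_eq_mul, mul_neg, mul_one] at this
    exact this.symm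
  rw [e]
  apply intervalIntegral.continuous_parametric_intervalIntegral_of_continuous'
  unfold pt
  fun_prop

end Pool.Agent.TH308.RD
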