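import Pool.Agent.TH308.RD.M2

set_option autoImplicit false

/-! The bathtub principle by duality. -/

namespace Pool.Agent.TH308.RD

open MeasureTheory Set Complex Filter Topology

/-- the dual function -/
noncomputable def phi (g : ℝ → ℝ) (α t c : ℝ) : ℝ := t * c + ∫ x in α..(α + 1), max (g x - c) 0

section
variable {g : ℝ → ℝ} {α t : ℝ}

lemma max_int (hg : Continuous g) (c : ℝ) (a b : ℝ) :
    IntervalIntegrable (fun x => max (g x - c) 0) volume a b :=
  ((hg.sub continuous_const).max continuous_const).intervalIntegrable _ _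

lemma phi_eq (g : ℝ → ℝ) (α t c : ℝ) :
    phi g α t c = t * c + ∫ x in Icc α (α + 1), max (g x - c) 0 := by
  rw [phi, intervalIntegral.integral_of_le (by linarith), integral_Icc_eq_integral_Ioc]

/-- weak duality -/
lemma weak (hg : Continuous g) {F : Set ℝ} (hF : MeasurableSet F) (hFα : F ⊆ Icc α (α + 1))
    (hv : volume.real F = t) (c : ℝ) : ∫ x in F, g x ≤ phi g α t c := by
  have hfin : volume F ≠ ⊤ := ((measure_mono hFα).trans_lt (by simp)).ne
  have h1 : ∫ x in F, g x = (∫ x in F, (g x - c)) + t * c := by
    rw [integral_sub]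
    · rw [setIntegral_const, hv, smul_eq_mul]; ring
    · exact hg.integrableOn_Icc.mono_set hFα
    · exact integrableOn_const hfin
  have hmi : ∀ s : Set ℝ, s ⊆ Icc α (α + 1) → IntegrableOn (fun x => max (g x - c) 0) s := fun s hs =>
    (((hg.sub continuous_const).max continuous_const).integrableOn_Icc).mono_set hs
  have h2 : ∫ x in F, (g x - c) ≤ ∫ x in F, max (g x - c) 0 := by
    apply setIntegral_mono_on
    · exact ((hg.sub continuous_const).integrableOn_Icc).mono_set hFα
    · exact hmi F hFα
    · exact hF
    · intro x _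
      exact le_max_left _ _
  have h3 : ∫ x in F, max (g x - c) 0 ≤ ∫ x in Icc α (α + 1), max (g x - c) 0 := by
    apply setIntegral_mono_set (hmi _ subset_rfl)
    · exact ae_of_all _ fun x => le_max_right _ _
    · exact (LE.le.eventuallyLE hFα)
  rw [phi_eq]
  linarith

lemma lvl_lower (hg : Continuous g) {c Λ : ℝ} (hc : c ≤ Λ) (hΛ : ∀ x ∈ Icc α (α + 1), g x < Λ)
    (hmin : ∀ c' ∈ Icc 0 Λ, phi g α t c ≤ phi g α t c') (hc0 : 0 ≤ c) (ht : 0 ≤ t) :
    volume.real (Icc α (α + 1) ∩ {x | c < g x}) ≤ t := by
  have key : ∀ s : ℝ, 0 < s → c + s ≤ Λ →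
      volume.real (Icc α (α + 1) ∩ {x | c + s ≤ g x}) ≤ t := by
    intro s hs hs1
    have h1 := hmin (c + s) ⟨by linarith, hs1⟩
    rw [phi_eq, phi_eq] at h1
    have hI : ∀ c : ℝ, IntegrableOn (fun x => max (g x - c) 0) (Icc α (α + 1)) := fun c =>
      (((hg.sub continuous_const).max continuous_const).integrableOn_Icc)
    have h2 : s * volume.real (Icc α (α + 1) ∩ {x | c + s ≤ g x}) ≤
        ∫ x in Icc α (α + 1), (max (g x - c) 0 - max (g x - (c + s)) 0) := by
      have hm : MeasurableSet {x | c + s ≤ g x} := measurableSet_le measurable_const hg.measurable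
      have h3 : s * volume.real (Icc α (α + 1) ∩ {x | c + s ≤ g x}) =
          ∫ x in Icc α (α + 1), ({x | c + s ≤ g x}.indicator (fun _ => s)) x := by
        rw [setIntegral_indicator hm, setIntegral_const, smul_eq_mul, mul_comm]
      rw [h3]
      apply setIntegral_mono_on
      · exact (integrable_const s).indicator hm
      · exact (hI c).sub (hI (c + s))
      · exact measurableSet_Icc
      · intro x _
        by_cases hx : c + s ≤ g x
        · rw [indicator_of_mem (by exact hx)]
          rw [max_eq_left (by linarith), max_eq_left (by linarith)]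
          linarith
        · rw [indicator_of_notMem (by exact hx)]
          have : max (g x - (c + s)) 0 ≤ max (g x - c) 0 := max_le_max (by linarith) le_rfl
          linarith
    rw [integral_sub (hI c) (hI (c + s))] at h2
    have h4 : s * volume.real (Icc α (α + 1) ∩ {x | c + s ≤ g x}) ≤ s * t := by nlinarith
    exact le_of_mul_le_mul_left h4 hs
  rcases hc.eq_or_lt with hcΛ | hcΛ
  · have : Icc α (α + 1) ∩ {x | c < g x} = ∅ := by
      ext x
      simp only [mem_inter_iff, mem_ofPred_eq, mem_empty_iff_false, iff_false, not_and, not_lt]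
      intro hx
      rw [hcΛ]
      exact (hΛ x hx).le
    rw [this]
    simpa using ht
  · have hun : Icc α (α + 1) ∩ {x | c < g x} =
        ⋃ n : ℕ, (Icc α (α + 1) ∩ {x | c + (Λ - c) / (n + 1) ≤ g x}) := by
      ext x
      simp only [mem_inter_iff, mem_ofPred_eq, mem_iUnion]
      constructor
      · rintro ⟨h1, h2⟩
        obtain ⟨n, hn⟩ := exists_nat_gt ((Λ - c) / (g x - c))
        refine ⟨n, h1, ?_⟩
        have h3 : 0 < g x - c := by linarith
        rw [div_lt_iff₀ h3] at hn
        have h4 : (Λ - c) / (n + 1) ≤ g x - c := by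
          rw [div_le_iff₀ (by positivity)]
          nlinarith
        linarith
      · rintro ⟨n, h1, h2⟩
        refine ⟨h1, ?_⟩
        have : 0 < (Λ - c) / (n + 1) := div_pos (by linarith) (by positivity)
        linarith
    have hmono : Monotone fun n : ℕ => (Icc α (α + 1) ∩ {x | c + (Λ - c) / (n + 1) ≤ g x}) := by
      intro n m hnm x hx
      refine ⟨hx.1, ?_⟩
      have h1 : c + (Λ - c) / (n + 1) ≤ g x := hx.2
      have h2 : (Λ - c) / ((m : ℝ) + 1) ≤ (Λ - c) / ((n : ℝ) + 1) := by
        apply div_le_div_of_nonneg_left (by linarith) (by positivity)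
        have : (n : ℝ) ≤ m := by exact_mod_cast hnm
        linarith
      show c + (Λ - c) / ((m : ℝ) + 1) ≤ g x
      linarith
    have hlim := tendsto_measure_iUnion_atTop (μ := volume) hmono
    rw [← hun] at hlim
    have hle : volume (Icc α (α + 1) ∩ {x | c < g x}) ≤ ENNReal.ofReal t := by
      apply le_of_tendsto hlim
      filter_upwards with n
      have h5 := key ((Λ - c) / (n + 1)) (div_pos (by linarith) (by positivity)) (by
        have : (Λ - c) / ((n : ℝ) + 1) ≤ (Λ - c) / 1 := by
          apply div_le_div_of_nonneg_left (by linarith) (by norm_num)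
          have : (0 : ℝ) ≤ n := by positivity
          linarith
        linarith [this, div_one (Λ - c)])
      rw [Measure.real] at h5
      simp only [Function.comp]
      rw [← ENNReal.ofReal_toReal (a := volume (Icc α (α + 1) ∩ {x | c + (Λ - c) / (↑n + 1) ≤ g x}))
        (((measure_mono inter_subset_left).trans_lt (by simp)).ne)]
      exact ENNReal.ofReal_le_ofReal h5
    rw [Measure.real]
    exact ENNReal.toReal_le_of_le_ofReal ht hle

lemma lvl_upper (hg : Continuous g) {c Λ : ℝ} (hc : c ≤ Λ) (hc0 : 0 < c)
    (hmin : ∀ c' ∈ Icc 0 Λ, phi g α t c ≤ phi g α t c') :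
    t ≤ volume.real (Icc α (α + 1) ∩ {x | c ≤ g x}) := by
  have key : ∀ s : ℝ, 0 < s → s ≤ c →
      t ≤ volume.real (Icc α (α + 1) ∩ {x | c - s < g x}) := by
    intro s hs hs1
    have h1 := hmin (c - s) ⟨by linarith, by linarith⟩
    rw [phi_eq, phi_eq] at h1
    have hI : ∀ c : ℝ, IntegrableOn (fun x => max (g x - c) 0) (Icc α (α + 1)) := fun c =>
      (((hg.sub continuous_const).max continuous_const).integrableOn_Icc)
    have h2 : ∫ x in Icc α (α + 1), (max (g x - (c - s)) 0 - max (g x - c) 0) ≤
        s * volume.real (Icc α (α + 1) ∩ {x | c - s < g x}) := by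
      have hm : MeasurableSet {x | c - s < g x} := measurableSet_lt measurable_const hg.measurable
      have h3 : s * volume.real (Icc α (α + 1) ∩ {x | c - s < g x}) =
          ∫ x in Icc α (α + 1), ({x | c - s < g x}.indicator (fun _ => s)) x := by
        rw [setIntegral_indicator hm, setIntegral_const, smul_eq_mul, mul_comm]
      rw [h3]
      apply setIntegral_mono_on
      · exact (hI (c - s)).sub (hI c)
      · exact (integrable_const s).indicator hm
      · exact measurableSet_Icc
      · intro x _
        by_cases hx : c - s < g x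
        · rw [indicator_of_mem (by exact hx)]
          rw [max_eq_left (a := g x - (c - s)) (by linarith)]
          have := le_max_left (g x - c) 0
          linarith
        · rw [indicator_of_notMem (by exact hx)]
          rw [max_eq_right (a := g x - (c - s)) (by linarith)]
          have := le_max_right (g x - c) 0
          linarith
    rw [integral_sub (hI (c - s)) (hI c)] at h2
    have h4 : s * t ≤ s * volume.real (Icc α (α + 1) ∩ {x | c - s < g x}) := by nlinarith
    exact le_of_mul_le_mul_left h4 hs
  have hun : Icc α (α + 1) ∩ {x | c ≤ g x} =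
      ⋂ n : ℕ, (Icc α (α + 1) ∩ {x | c - c / (n + 1) < g x}) := by
    ext x
    simp only [mem_inter_iff, mem_ofPred_eq, mem_iInter]
    constructor
    · rintro ⟨h1, h2⟩ n
      refine ⟨h1, ?_⟩
      have : 0 < c / ((n : ℝ) + 1) := div_pos hc0 (by positivity)
      linarith
    · intro h
      refine ⟨(h 0).1, ?_⟩
      by_contra hlt
      push Not at hlt
      obtain ⟨n, hn⟩ := exists_nat_gt (c / (c - g x))
      have h3 : 0 < c - g x := by linarith
      rw [div_lt_iff₀ h3] at hn
      have h4 : c / ((n : ℝ) + 1) ≤ c - g x := by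
        rw [div_le_iff₀ (by positivity)]
        nlinarith
      have := (h n).2
      linarith
  have hanti : Antitone fun n : ℕ => (Icc α (α + 1) ∩ {x | c - c / (n + 1) < g x}) := by
    intro n m hnm x hx
    refine ⟨hx.1, ?_⟩
    have h1 : c - c / (m + 1) < g x := hx.2
    have h2 : c / ((m : ℝ) + 1) ≤ c / ((n : ℝ) + 1) := by
      apply div_le_div_of_nonneg_left (by linarith) (by positivity)
      have : (n : ℝ) ≤ m := by exact_mod_cast hnm
      linarith
    show c - c / ((n : ℝ) + 1) < g x
    linarith
  have hlim := tendsto_measure_iInter_atTop (μ := volume)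
    (s := fun n : ℕ => (Icc α (α + 1) ∩ {x | c - c / (n + 1) < g x}))
    (fun n => (measurableSet_Icc.inter (measurableSet_lt measurable_const hg.measurable)).nullMeasurableSet)
    hanti ⟨0, ((measure_mono inter_subset_left).trans_lt (by simp)).ne⟩
  rw [← hun] at hlim
  have hfin : volume (Icc α (α + 1) ∩ {x | c ≤ g x}) ≠ ⊤ :=
    ((measure_mono inter_subset_left).trans_lt (by simp)).ne
  have hge : ENNReal.ofReal t ≤ volume (Icc α (α + 1) ∩ {x | c ≤ g x}) := by
    apply ge_of_tendsto hlim
    filter_upwards with n
    have h5 := key (c / (n + 1)) (div_pos hc0 (by positivity)) (by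
      have : c / ((n : ℝ) + 1) ≤ c / 1 := by
        apply div_le_div_of_nonneg_left (by linarith) (by norm_num)
        have : (0 : ℝ) ≤ n := by positivity
        linarith
      linarith [this, div_one c])
    simp only [Function.comp]
    exact ENNReal.ofReal_le_of_le_toReal h5
  rw [Measure.real]
  exact (ENNReal.ofReal_le_iff_le_toReal hfin).1 hge

/-- the value at a null level -/
lemma value (hg : Continuous g) {c : ℝ}
    (hv : volume.real (Icc α (α + 1) ∩ {x | c < g x}) = t) :
    phi g α t c = ∫ x in Icc α (α + 1) ∩ {x | c < g x}, g x := by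
  rw [phi_eq]
  have hm : MeasurableSet {x | c < g x} := measurableSet_lt measurable_const hg.measurable
  have h1 : ∫ x in Icc α (α + 1), max (g x - c) 0 =
      ∫ x in Icc α (α + 1) ∩ {x | c < g x}, (g x - c) := by
    rw [← setIntegral_indicator hm]
    apply setIntegral_congr_fun measurableSet_Icc
    intro x _
    by_cases hx : c < g x
    · simp only
      rw [indicator_of_mem (by exact hx), max_eq_left (by linarith)]
    · simp only
      rw [indicator_of_notMem (by exact hx), max_eq_right (by linarith)]
  rw [h1, integral_sub, setIntegral_const, hv, smul_eq_mul]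
  · ring
  · exact hg.integrableOn_Icc.mono_set inter_subset_left
  · exact integrableOn_const ((measure_mono inter_subset_left).trans_lt (by simp)).ne

end

end Pool.Agent.TH308.RD
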