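import Pool.Agent.TH308.RD.M3

set_option autoImplicit false

/-! The comparison function has no interior maximum. -/

namespace Pool.Agent.TH308.RD

open MeasureTheory Set Complex Filter Topology

/-- `F` contains an interval and its complement in the window contains an interval -/
def HasBlocks (F : Set ℝ) (α : ℝ) : Prop :=
  ∃ a b c d : ℝ, α ≤ a ∧ a < b ∧ b ≤ c ∧ c < d ∧ d ≤ α + 1 ∧
    ((Disjoint F (Ioo a b) ∧ Ioo c d ⊆ F) ∨ (Ioo a b ⊆ F ∧ Disjoint F (Ioo c d)))

lemma blocks_level {g : ℝ → ℝ} (hg : Continuous g) {α c : ℝ}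
    (h0 : 0 < volume.real (Icc α (α + 1) ∩ {x | c < g x}))
    (h1 : volume.real (Icc α (α + 1) ∩ {x | c ≤ g x}) < 1) :
    HasBlocks (Icc α (α + 1) ∩ {x | c < g x}) α := by
  have hO1 : IsOpen (Ioo α (α + 1) ∩ {x | c < g x}) :=
    isOpen_Ioo.inter (isOpen_lt continuous_const hg)
  have hO2 : IsOpen (Ioo α (α + 1) ∩ {x | g x < c}) :=
    isOpen_Ioo.inter (isOpen_lt hg continuous_const)
  have n1 : (Ioo α (α + 1) ∩ {x | c < g x}).Nonempty := by
    by_contra hne
    rw [not_nonempty_iff_eq_empty] at hne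
    have hsub : Icc α (α + 1) ∩ {x | c < g x} ⊆ {α, α + 1} := by
      rintro x ⟨hx1, hx2⟩
      by_contra hx3
      simp only [mem_insert_iff, mem_singleton_iff, not_or] at hx3
      have : x ∈ Ioo α (α + 1) ∩ {x | c < g x} :=
        ⟨⟨lt_of_le_of_ne hx1.1 (Ne.symm hx3.1), lt_of_le_of_ne hx1.2 hx3.2⟩, hx2⟩
      rw [hne] at this
      exact this
    have : volume (Icc α (α + 1) ∩ {x | c < g x}) = 0 :=
      measure_mono_null hsub ((Set.toFinite _).measure_zero _)
    rw [Measure.real, this] at h0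
    simp at h0
  have n2 : (Ioo α (α + 1) ∩ {x | g x < c}).Nonempty := by
    by_contra hne
    rw [not_nonempty_iff_eq_empty] at hne
    have hsub : Ioo α (α + 1) ⊆ Icc α (α + 1) ∩ {x | c ≤ g x} := by
      intro x hx
      refine ⟨Ioo_subset_Icc_self hx, ?_⟩
      by_contra hx3
      have hx4 : ¬ c ≤ g x := hx3
      have : x ∈ Ioo α (α + 1) ∩ {x | g x < c} := ⟨hx, not_le.1 hx4⟩
      rw [hne] at this
      exact this
    have h2 := measureReal_mono (μ := volume) hsub
      ((measure_mono inter_subset_left).trans_lt (by simp)).ne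
    simp only [measureReal_def, Real.volume_Ioo] at h2 h1
    rw [show α + 1 - α = 1 by ring] at h2
    simp at h2
    linarith
  obtain ⟨p, hp⟩ := n1
  obtain ⟨q, hq⟩ := n2
  have hpq : p ≠ q := by
    rintro rfl
    have h3 : c < g p := hp.2
    have h4 : g p < c := hq.2
    linarith
  obtain ⟨e1, he1, hs1⟩ := Metric.isOpen_iff.1 hO1 p hp
  obtain ⟨e2, he2, hs2⟩ := Metric.isOpen_iff.1 hO2 q hq
  rw [Real.ball_eq_Ioo] at hs1 hs2
  set e := min (min e1 e2) (|p - q| / 2) with he
  have hepos : 0 < e := lt_min (lt_min he1 he2) (by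
    have : 0 < |p - q| := abs_pos.2 (sub_ne_zero.2 hpq)
    linarith)
  have hee1 : e ≤ e1 := (min_le_left _ _).trans (min_le_left _ _)
  have hee2 : e ≤ e2 := (min_le_left _ _).trans (min_le_right _ _)
  have hee3 : e ≤ |p - q| / 2 := min_le_right _ _
  have T1 : Ioo (p - e) (p + e) ⊆ Ioo α (α + 1) ∩ {x | c < g x} :=
    (Ioo_subset_Ioo (by linarith) (by linarith)).trans hs1
  have T2 : Ioo (q - e) (q + e) ⊆ Ioo α (α + 1) ∩ {x | g x < c} :=
    (Ioo_subset_Ioo (by linarith) (by linarith)).trans hs2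
  have edge : ∀ w : ℝ, Ioo (w - e) (w + e) ⊆ Ioo α (α + 1) → α ≤ w - e ∧ w + e ≤ α + 1 := by
    intro w hw
    exact (Ioo_subset_Ioo_iff (by linarith)).1 hw
  have E1 := edge p (T1.trans inter_subset_left)
  have E2 := edge q (T2.trans inter_subset_left)
  have S1' : Ioo (p - e) (p + e) ⊆ Icc α (α + 1) ∩ {x | c < g x} :=
    T1.trans (inter_subset_inter_left _ Ioo_subset_Icc_self)
  have S2' : Disjoint (Icc α (α + 1) ∩ {x | c < g x}) (Ioo (q - e) (q + e)) := by
    rw [Set.disjoint_left]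
    intro x hx hx'
    have h3 : c < g x := hx.2
    have h4 : g x < c := (T2 hx').2
    linarith
  rcases lt_or_gt_of_ne hpq with hlt | hgt
  · rw [abs_of_neg (by linarith)] at hee3
    exact ⟨p - e, p + e, q - e, q + e, E1.1, by linarith, by linarith, by linarith, E2.2,
      Or.inr ⟨S1', S2'⟩⟩
  · rw [abs_of_pos (by linarith)] at hee3
    exact ⟨q - e, q + e, p - e, p + e, E2.1, by linarith, by linarith, by linarith, E1.2,
      Or.inl ⟨S2', S1'⟩⟩

lemma blocks_Icc {α t : ℝ} (h0 : 0 < t) (h1 : t < 1) : HasBlocks (Icc α (α + t)) α := by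
  refine ⟨α, α + t, α + t, α + 1, le_rfl, by linarith, le_rfl, by linarith, le_rfl,
    Or.inr ⟨Ioo_subset_Icc_self, ?_⟩⟩
  rw [Set.disjoint_left]
  intro x hx hx'
  exact absurd hx.2 (not_le.2 hx'.1)

/-- the pieces for one translation -/
lemma pieces {F : Set ℝ} {α θ : ℝ} (hFm : MeasurableSet F) (hF : F ⊆ Icc α (α + 1))
    (hv : volume.real F = 2 * θ) (hb : HasBlocks F α) :
    ∃ r1 : ℝ, 0 < r1 ∧ ∀ ρ : ℝ, 0 < ρ → ρ < r1 → ∃ (A B : Set ℝ) (τ : ℝ), MeasurableSet A ∧
      MeasurableSet B ∧ A ⊆ Icc (α + ρ) (α + ρ + 1) ∧ B ⊆ Icc (α - ρ) (α - ρ + 1) ∧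
      (τ = ρ ∨ τ = -ρ) ∧ volume.real A = 2 * (θ + τ) ∧ volume.real B = 2 * (θ - τ) ∧
      ∀ g : ℝ → ℝ, Continuous g → (∫ x in A, g x) + (∫ x in B, g x) =
        ∫ x in F, (g (x + ρ) + g (x - ρ)) := by
  obtain ⟨a, b, c, d, h1, h2, h3, h4, h5, h6⟩ := hb
  refine ⟨min ((b - a) / 2) ((d - c) / 2), lt_min (by linarith) (by linarith), ?_⟩
  intro ρ hρ hρ1
  have hρa : ρ < (b - a) / 2 := hρ1.trans_le (min_le_left _ _)
  have hρb : ρ < (d - c) / 2 := hρ1.trans_le (min_le_right _ _)
  have hfin := vol_fin hF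
  have hI : ∀ (u v : ℝ), Ioo u v ⊆ F → ∀ w : ℝ, u < w - ρ → w + ρ ≤ v →
      volume.real (F ∩ Ico (w - ρ) (w + ρ)) = 2 * ρ := by
    intro u v huv w hw1 hw2
    have : F ∩ Ico (w - ρ) (w + ρ) = Ico (w - ρ) (w + ρ) := by
      apply inter_eq_right.2
      intro x hx
      exact huv ⟨by linarith [hx.1], by linarith [hx.2]⟩
    rw [this, measureReal_def, Real.volume_Ico, show w + ρ - (w - ρ) = 2 * ρ by ring,
      ENNReal.toReal_ofReal (by linarith)]
  have hJ : ∀ (u v : ℝ), Disjoint F (Ioo u v) → ∀ w : ℝ, u < w - ρ → w + ρ ≤ v →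
      volume.real (F ∩ Ico (w - ρ) (w + ρ)) = 0 := by
    intro u v huv w hw1 hw2
    have : F ∩ Ico (w - ρ) (w + ρ) = ∅ := by
      rw [← disjoint_iff_inter_eq_empty]
      apply huv.mono_right
      intro x hx
      exact ⟨by linarith [hx.1], by linarith [hx.2]⟩
    rw [this]
    simp
  have hx01 : b - ρ ≤ d - ρ := by linarith
  have hS1 := vol_S1 (x0 := b - ρ) (x1 := d - ρ) hFm hfin hρ hx01
  have hS1s := S1_sub (x0 := b - ρ) (x1 := d - ρ) hF hρ (by linarith)
  have hS2s := S2_sub (x0 := b - ρ) (x1 := d - ρ) hF hρ (by linarith)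
  have hex := fun (g : ℝ → ℝ) (hg : Continuous g) =>
    int_exchange (ρ := ρ) (x0 := b - ρ) (x1 := d - ρ) hFm hF hg
  have hS2 : volume.real (S2 F ρ (b - ρ) (d - ρ)) = 2 * (2 * θ) -
      volume.real (S1 F ρ (b - ρ) (d - ρ)) := by
    have := hex (fun _ => 1) continuous_const
    rw [setIntegral_const, setIntegral_const, setIntegral_const, hv] at this
    simp only [smul_eq_mul, mul_one] at this
    linarith
  rcases h6 with ⟨h6, h7⟩ | ⟨h6, h7⟩
  · have v0 := hJ a b h6 (b - ρ) (by linarith) (by linarith)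
    have v1 := hI c d h7 (d - ρ) (by linarith) (by linarith)
    rw [v0, v1, hv] at hS1
    exact ⟨_, _, ρ, S1_meas hFm, S2_meas hFm, hS1s, hS2s, Or.inl rfl, by rw [hS1]; ring,
      by rw [hS2, hS1]; ring, hex⟩
  · have v0 := hI a b h6 (b - ρ) (by linarith) (by linarith)
    have v1 := hJ c d h7 (d - ρ) (by linarith) (by linarith)
    rw [v0, v1, hv] at hS1
    exact ⟨_, _, -ρ, S1_meas hFm, S2_meas hFm, hS1s, hS2s, Or.inr rfl, by rw [hS1]; ring,
      by rw [hS2, hS1]; ring, hex⟩

lemma pairW_swap {W : ℂ → ℝ} {x y r s ρ : ℝ} (hρ : ρ = |r * Real.cos s|) :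
    pairW W x y r s = W (pt (x + ρ) (y + r * Real.sin s)) + W (pt (x - ρ) (y + r * Real.sin s)) := by
  unfold pairW
  rcases abs_cases (r * Real.cos s) with ⟨h, _⟩ | ⟨h, _⟩
  · rw [hρ, h]
  · rw [hρ, h, sub_neg_eq_add, ← sub_eq_add_neg, add_comm]

lemma integrable_pair {W : ℂ → ℝ} (hW : Continuous W) {F : Set ℝ} {a b : ℝ}
    (hF : F ⊆ Icc a b) (y r : ℝ) :
    IntervalIntegrable (fun s => ∫ x in F, pairW W x y r s) volume 0 (2 * Real.pi) := by
  have hpi := Real.pi_pos
  rw [intervalIntegrable_iff_integrableOn_Ioc_of_le (by positivity)]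
  have h : IntegrableOn (Function.uncurry fun s x => pairW W x y r s)
      (Ioc (0 : ℝ) (2 * Real.pi) ×ˢ F) (volume.prod volume) := by
    have : IntegrableOn (Function.uncurry fun s x => pairW W x y r s)
        (Icc (0 : ℝ) (2 * Real.pi) ×ˢ Icc a b) (volume.prod volume) := by
      apply ContinuousOn.integrableOn_compact (isCompact_Icc.prod isCompact_Icc)
      exact (pairW_cont hW y r).continuousOn
    exact this.mono_set (prod_mono Ioc_subset_Icc_self hF)
  rw [IntegrableOn, ← Measure.prod_restrict] at h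
  exact h.integral_prod_left

lemma interior {U V : ℂ → ℝ} (cU : Continuous U)
    (sU : ∀ (z : ℂ) (r : ℝ), 0 < r → U z ≤ Real.circleAverage U z r) (cV : Continuous V)
    {α θ y κ A : ℝ} {F : Set ℝ} (hFm : MeasurableSet F) (hF : F ⊆ Icc α (α + 1))
    (hv : volume.real F = 2 * θ) (hθ : 0 < θ) (hθ2 : θ < 1 / 2) (hb : HasBlocks F α)
    {r0 : ℝ} (hr0 : 0 < r0)
    (hV : ∀ r, 0 < r → r < r0 → ∀ x ∈ Ioc (-θ) θ, Real.circleAverage V (pt x y) r = V (pt x y))
    (hκ : 0 < κ)
    (hA : A + κ * α ^ 2 + TT V θ y + κ * y ^ 2 + 3 * κ * (θ - θ ^ 2) ≤ ∫ x in F, U (pt x y))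
    (hmax : ∀ (α' θ' y' : ℝ) (F' : Set ℝ), |α' - α| < r0 → |y' - y| < r0 → 0 ≤ θ' → θ' ≤ 1 / 2 →
      MeasurableSet F' → F' ⊆ Icc α' (α' + 1) → volume.real F' = 2 * θ' →
      ∫ x in F', U (pt x y') ≤
        A + κ * α' ^ 2 + TT V θ' y' + κ * y' ^ 2 + 3 * κ * (θ' - θ' ^ 2)) : False := by
  obtain ⟨r1, hr1, hp⟩ := pieces hFm hF hv hb
  obtain ⟨r, hr, hrr⟩ : ∃ r : ℝ, 0 < r ∧ r < min (min r0 r1) (min θ (1 / 2 - θ)) :=
    exists_between (lt_min (lt_min hr0 hr1) (lt_min hθ (by linarith)))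
  have q1 : r < r0 := hrr.trans_le ((min_le_left _ _).trans (min_le_left _ _))
  have q2 : r < r1 := hrr.trans_le ((min_le_left _ _).trans (min_le_right _ _))
  have q3 : r < θ := hrr.trans_le ((min_le_right _ _).trans (min_le_left _ _))
  have q4 : r < 1 / 2 - θ := hrr.trans_le ((min_le_right _ _).trans (min_le_right _ _))
  have hcU : ∀ y' : ℝ, Continuous fun x : ℝ => U (pt x y') := fun y' => by
    unfold pt; fun_prop
  have key : ∀ s : ℝ, ∫ x in F, pairW U x y r s ≤
      2 * A + 2 * κ * α ^ 2 + 2 * κ * (r * Real.cos s) ^ 2 +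
      (TT V (θ + r * Real.cos s) (y + r * Real.sin s) +
        TT V (θ - r * Real.cos s) (y + r * Real.sin s)) +
      2 * κ * (y + r * Real.sin s) ^ 2 + 6 * κ * (θ - θ ^ 2) - 6 * κ * (r * Real.cos s) ^ 2 := by
    intro s
    set ρ := |r * Real.cos s| with hρ
    have hρ0 : 0 ≤ ρ := abs_nonneg _
    have hρr : ρ ≤ r := by
      rw [hρ, abs_mul, abs_of_pos hr]
      exact mul_le_of_le_one_right hr.le (Real.abs_cos_le_one s)
    have hsq : ρ ^ 2 = (r * Real.cos s) ^ 2 := sq_abs _
    have hy' : |y + r * Real.sin s - y| < r0 := by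
      rw [add_sub_cancel_left, abs_mul, abs_of_pos hr]
      exact (mul_le_of_le_one_right hr.le (Real.abs_sin_le_one s)).trans_lt q1
    have hTT : TT V (θ + ρ) (y + r * Real.sin s) + TT V (θ - ρ) (y + r * Real.sin s) =
        TT V (θ + r * Real.cos s) (y + r * Real.sin s) +
        TT V (θ - r * Real.cos s) (y + r * Real.sin s) := by
      rcases abs_cases (r * Real.cos s) with ⟨h, _⟩ | ⟨h, _⟩
      · rw [hρ, h]
      · rw [hρ, h, sub_neg_eq_add, ← sub_eq_add_neg, add_comm]
    have hL : ∫ x in F, pairW U x y r s = ∫ x in F, (U (pt (x + ρ) (y + r * Real.sin s)) +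
        U (pt (x - ρ) (y + r * Real.sin s))) := by
      congr 1
      ext x
      exact pairW_swap hρ
    rw [hL, ← hTT, ← hsq]
    rcases hρ0.eq_or_lt with h0 | h0
    · rw [← h0]
      simp only [add_zero, sub_zero]
      have := hmax α θ (y + r * Real.sin s) F (by simpa using hr0) hy' hθ.le hθ2.le hFm hF hv
      rw [integral_add]
      · nlinarith
      · exact (hcU _).integrableOn_Icc.mono_set hF
      · exact (hcU _).integrableOn_Icc.mono_set hF
    · obtain ⟨B1, B2, τ, m1, m2, s1, s2, hτ, w1, w2, hex⟩ := hp ρ h0 (hρr.trans_lt q2)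
      have hτ1 : |τ| ≤ r := by
        rcases hτ with h | h
        · rw [h, abs_of_pos h0]; exact hρr
        · rw [h, abs_neg, abs_of_pos h0]; exact hρr
      have hτ2 := abs_le.1 hτ1
      have i1 := hmax (α + ρ) (θ + τ) (y + r * Real.sin s) B1
        (by rw [add_sub_cancel_left, abs_of_pos h0]; linarith) hy' (by linarith) (by linarith)
        m1 s1 w1
      have i2 := hmax (α - ρ) (θ - τ) (y + r * Real.sin s) B2
        (by rw [sub_sub_cancel_left, abs_neg, abs_of_pos h0]; linarith) hy' (by linarith)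
        (by linarith) m2 s2 w2
      have i3 := hex (fun x => U (pt x (y + r * Real.sin s))) (hcU _)
      rw [← i3]
      have hτT : TT V (θ + τ) (y + r * Real.sin s) + TT V (θ - τ) (y + r * Real.sin s) =
          TT V (θ + ρ) (y + r * Real.sin s) + TT V (θ - ρ) (y + r * Real.sin s) := by
        rcases hτ with h | h
        · rw [h]
        · rw [h, sub_neg_eq_add, ← sub_eq_add_neg, add_comm]
      have hτs : τ ^ 2 = ρ ^ 2 := by
        rcases hτ with h | h
        · rw [h]
        · rw [h, neg_sq]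
      nlinarith
  have hTc := TT_cont cV
  have hint : ∫ s in (0 : ℝ)..(2 * Real.pi), (∫ x in F, pairW U x y r s) ≤
      ∫ s in (0 : ℝ)..(2 * Real.pi), (2 * A + 2 * κ * α ^ 2 + 2 * κ * (r * Real.cos s) ^ 2 +
      (TT V (θ + r * Real.cos s) (y + r * Real.sin s) +
        TT V (θ - r * Real.cos s) (y + r * Real.sin s)) +
      2 * κ * (y + r * Real.sin s) ^ 2 + 6 * κ * (θ - θ ^ 2) - 6 * κ * (r * Real.cos s) ^ 2) := by
    apply intervalIntegral.integral_mono_on (by positivity) (integrable_pair cU hF y r)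
    · apply Continuous.intervalIntegrable
      have c1 : Continuous fun s : ℝ => TT V (θ + r * Real.cos s) (y + r * Real.sin s) :=
        hTc.comp (f := fun s : ℝ => ((θ + r * Real.cos s, y + r * Real.sin s) : ℝ × ℝ)) (by fun_prop)
      have c2 : Continuous fun s : ℝ => TT V (θ - r * Real.cos s) (y + r * Real.sin s) :=
        hTc.comp (f := fun s : ℝ => ((θ - r * Real.cos s, y + r * Real.sin s) : ℝ × ℝ)) (by fun_prop)
      fun_prop
    · intro s _
      exact key s
  rw [swap_avg cU hF] at hint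
  have hpi := Real.pi_pos
  have hge : ∫ x in F, U (pt x y) ≤ ∫ x in F, Real.circleAverage U (pt x y) r := by
    apply setIntegral_mono_on
    · exact (hcU _).integrableOn_Icc.mono_set hF
    · have : Continuous fun x : ℝ => Real.circleAverage U (pt x y) r := by
        have e : (fun x : ℝ => Real.circleAverage U (pt x y) r) = fun x : ℝ =>
            (2 * Real.pi)⁻¹ * ∫ s in (0 : ℝ)..(2 * Real.pi),
              U (pt (x + r * Real.cos s) (y + r * Real.sin s)) := by
          ext x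
          rw [Real.circleAverage_def]
          simp only [circleMap_pt, smul_eq_mul]
        rw [e]
        apply Continuous.mul continuous_const
        apply intervalIntegral.continuous_parametric_intervalIntegral_of_continuous'
        unfold pt
        fun_prop
      exact this.integrableOn_Icc.mono_set hF
    · exact hFm
    · intro x _
      exact sU _ _ hr
  have hval : ∫ s in (0 : ℝ)..(2 * Real.pi), (2 * A + 2 * κ * α ^ 2 + 2 * κ * (r * Real.cos s) ^ 2 +
      (TT V (θ + r * Real.cos s) (y + r * Real.sin s) +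
        TT V (θ - r * Real.cos s) (y + r * Real.sin s)) +
      2 * κ * (y + r * Real.sin s) ^ 2 + 6 * κ * (θ - θ ^ 2) - 6 * κ * (r * Real.cos s) ^ 2) =
      4 * Real.pi * (A + κ * α ^ 2 + TT V θ y + κ * y ^ 2 + 3 * κ * (θ - θ ^ 2)) -
        2 * κ * Real.pi * r ^ 2 := by
    have e : (fun s : ℝ => (2 * A + 2 * κ * α ^ 2 + 2 * κ * (r * Real.cos s) ^ 2 +
      (TT V (θ + r * Real.cos s) (y + r * Real.sin s) +
        TT V (θ - r * Real.cos s) (y + r * Real.sin s)) +
      2 * κ * (y + r * Real.sin s) ^ 2 + 6 * κ * (θ - θ ^ 2) - 6 * κ * (r * Real.cos s) ^ 2)) =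
      fun s : ℝ => ((2 * A + 2 * κ * α ^ 2 + 2 * κ * y ^ 2 + 6 * κ * (θ - θ ^ 2)) -
        (4 * κ * r ^ 2) * (Real.cos s) ^ 2 + (4 * κ * y * r) * Real.sin s +
        (2 * κ * r ^ 2) * (Real.sin s) ^ 2) + (TT V (θ + r * Real.cos s) (y + r * Real.sin s) +
        TT V (θ - r * Real.cos s) (y + r * Real.sin s)) := by
      ext s
      ring
    rw [e]
    have c1 : Continuous fun s : ℝ => TT V (θ + r * Real.cos s) (y + r * Real.sin s) :=
      hTc.comp (f := fun s : ℝ => ((θ + r * Real.cos s, y + r * Real.sin s) : ℝ × ℝ)) (by fun_prop)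
    have c2 : Continuous fun s : ℝ => TT V (θ - r * Real.cos s) (y + r * Real.sin s) :=
      hTc.comp (f := fun s : ℝ => ((θ - r * Real.cos s, y + r * Real.sin s) : ℝ × ℝ)) (by fun_prop)
    rw [intervalIntegral.integral_add (by apply Continuous.intervalIntegrable; fun_prop)
      (by apply Continuous.intervalIntegrable; exact c1.add c2), TT_avg cV hθ.le y r (hV r hr q1)]
    rw [intervalIntegral.integral_add (by apply Continuous.intervalIntegrable; fun_prop)
      (by apply Continuous.intervalIntegrable; fun_prop),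
      intervalIntegral.integral_add (by apply Continuous.intervalIntegrable; fun_prop)
      (by apply Continuous.intervalIntegrable; fun_prop),
      intervalIntegral.integral_sub (by apply Continuous.intervalIntegrable; fun_prop)
      (by apply Continuous.intervalIntegrable; fun_prop)]
    simp only [intervalIntegral.integral_const, intervalIntegral.integral_const_mul,
      integral_cos_sq, integral_sin_sq, integral_sin, Real.cos_zero, Real.sin_zero,
      Real.cos_two_pi, Real.sin_two_pi, smul_eq_mul]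
    ring
  rw [hval] at hint
  have hr2 : 0 < 2 * κ * Real.pi * r ^ 2 := by positivity
  nlinarith

end Pool.Agent.TH308.RD
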