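import Pool.Agent.TH308.RD.M4

set_option autoImplicit false

/-! The comparison theorem. -/

namespace Pool.Agent.TH308.RD

open MeasureTheory Set Complex Filter Topology

/-- the dual value -/
noncomputable def GG (U : ℂ → ℝ) (Λ : ℝ) (p : ℝ × ℝ × ℝ) : ℝ :=
  sInf ((fun c => phi (fun x => U (pt x p.2.2)) p.1 (2 * p.2.1) c) '' Icc 0 Λ)

lemma phi_shift (g : ℝ → ℝ) (α t c : ℝ) :
    phi g α t c = t * c + ∫ u in (0 : ℝ)..1, max (g (α + u) - c) 0 := by
  rw [phi, intervalIntegral.integral_comp_add_left (fun x => max (g x - c) 0), add_zero]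

lemma phi_cont {U : ℂ → ℝ} (cU : Continuous U) :
    Continuous (fun q : (ℝ × ℝ × ℝ) × ℝ =>
      phi (fun x => U (pt x q.1.2.2)) q.1.1 (2 * q.1.2.1) q.2) := by
  simp_rw [phi_shift]
  apply Continuous.add (by fun_prop)
  apply intervalIntegral.continuous_parametric_intervalIntegral_of_continuous'
  unfold pt
  fun_prop

lemma GG_cont {U : ℂ → ℝ} (cU : Continuous U) (Λ : ℝ) : Continuous (GG U Λ) :=
  (isCompact_Icc (a := (0 : ℝ)) (b := Λ)).continuous_sInf
    (f := fun (p : ℝ × ℝ × ℝ) (c : ℝ) => phi (fun x => U (pt x p.2.2)) p.1 (2 * p.2.1) c)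
    (phi_cont cU)

lemma GG_spec {U : ℂ → ℝ} (cU : Continuous U) {Λ : ℝ} (hΛ : 0 ≤ Λ) (α θ y : ℝ) :
    ∃ c ∈ Icc 0 Λ, GG U Λ (α, θ, y) = phi (fun x => U (pt x y)) α (2 * θ) c ∧
      ∀ c' ∈ Icc 0 Λ, phi (fun x => U (pt x y)) α (2 * θ) c ≤
        phi (fun x => U (pt x y)) α (2 * θ) c' := by
  have hc : Continuous fun c : ℝ => phi (fun x => U (pt x y)) α (2 * θ) c :=
    (phi_cont cU).comp (f := fun c : ℝ => (((α, θ, y), c) : (ℝ × ℝ × ℝ) × ℝ)) (by fun_prop)
  obtain ⟨c, hc1, hc2⟩ := (isCompact_Icc (a := (0 : ℝ)) (b := Λ)).exists_isMinOn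
    ⟨0, left_mem_Icc.2 hΛ⟩ hc.continuousOn
  refine ⟨c, hc1, ?_, fun c' hc' => hc2 hc'⟩
  apply le_antisymm
  · apply csInf_le
    · refine ⟨phi (fun x => U (pt x y)) α (2 * θ) c, ?_⟩
      rintro _ ⟨c', hc', rfl⟩
      exact hc2 hc'
    · exact ⟨c, hc1, rfl⟩
  · apply le_csInf (Set.Nonempty.image _ ⟨0, left_mem_Icc.2 hΛ⟩)
    rintro _ ⟨c', hc', rfl⟩
    exact hc2 hc'

lemma GG_le {U : ℂ → ℝ} (cU : Continuous U) {Λ : ℝ} (hΛ : 0 ≤ Λ) (α θ y : ℝ) {c : ℝ}
    (hc : c ∈ Icc 0 Λ) : GG U Λ (α, θ, y) ≤ phi (fun x => U (pt x y)) α (2 * θ) c := by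
  obtain ⟨c0, _, h1, h2⟩ := GG_spec cU hΛ α θ y
  rw [h1]
  exact h2 c hc

lemma le_GG {U : ℂ → ℝ} (cU : Continuous U) {Λ : ℝ} (hΛ : 0 ≤ Λ) {α θ y : ℝ} {F : Set ℝ}
    (hFm : MeasurableSet F) (hF : F ⊆ Icc α (α + 1)) (hv : volume.real F = 2 * θ) :
    ∫ x in F, U (pt x y) ≤ GG U Λ (α, θ, y) := by
  obtain ⟨c0, _, h1, _⟩ := GG_spec cU hΛ α θ y
  rw [h1]
  exact weak (g := fun x => U (pt x y)) (by unfold pt; fun_prop) hFm hF hv c0

lemma phi_zero {g : ℝ → ℝ} (hg : ∀ x, 0 ≤ g x) (α t : ℝ) :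
    phi g α t 0 = ∫ x in α..(α + 1), g x := by
  rw [phi, mul_zero, zero_add]
  congr 1
  ext x
  rw [sub_zero, max_eq_left (hg x)]

lemma TT_nonneg {V : ℂ → ℝ} (V0 : ∀ z, 0 ≤ V z) {θ : ℝ} (hθ : 0 ≤ θ) (y : ℝ) : 0 ≤ TT V θ y :=
  intervalIntegral.integral_nonneg (by linarith) fun _ _ => V0 _

lemma mean_of_harm {V : ℂ → ℝ} {z : ℂ} {r : ℝ} (hr : 0 < r)
    (h : ∀ w ∈ Metric.closedBall z r, InnerProductSpace.HarmonicAt V w) :
    Real.circleAverage V z r = V z := by
  apply InnerProductSpace.HarmonicOnNhd.circleAverage_eq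
  rw [abs_of_pos hr]
  exact h

theorem comp_abs {U V : ℂ → ℝ}
    (cU : Continuous U)
    (sU : ∀ (z : ℂ) (r : ℝ), 0 < r → U z ≤ Real.circleAverage U z r)
    (U0 : ∀ z, 0 ≤ U z) (Upos : ∀ x y : ℝ, y ≠ 0 → 0 < U (pt x y))
    (lev : ∀ y c : ℝ, (y ≠ 0 ∨ c ≠ 0) → volume {x : ℝ | U (pt x y) = c} ≠ 0 →
      y ≠ 0 ∧ ∀ x : ℝ, U (pt x y) = c)
    {M : ℝ} (hM : ∀ α y : ℝ, ∫ x in α..(α + 1), U (pt x y) ≤ |y| + M)
    (cV : Continuous V) (V0 : ∀ z, 0 ≤ V z) {t0 : ℝ} (ht0' : t0 ≤ 1 / 2)
    (hVh : ∀ z : ℂ, (z.im ≠ 0 ∨ |z.re| < t0) → InnerProductSpace.HarmonicAt V z)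
    (hVpos : ∀ x : ℝ, |x| < t0 → 0 < V (pt x 0))
    (hVz : ∀ x : ℝ, t0 ≤ |x| → |x| ≤ 1 / 2 → V (pt x 0) = 0)
    (hVw : ∀ y : ℝ, TT V (1 / 2) y = |y| + TT V (1 / 2) 0)
    {κ : ℝ} (hκ : 0 < κ) (α θ y : ℝ) (hθ0 : 0 ≤ θ) (hθ1 : θ ≤ 1 / 2) {F : Set ℝ}
    (hFm : MeasurableSet F) (hF : F ⊆ Icc α (α + 1)) (hv : volume.real F = 2 * θ) :
    ∫ x in F, U (pt x y) ≤ max 0 (M - TT V (1 / 2) 0) + κ * α ^ 2 + TT V θ y + κ * y ^ 2 +
      3 * κ * (θ - θ ^ 2) := by
  set b := max 0 (M - TT V (1 / 2) 0) with hb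
  have hb0 : 0 ≤ b := le_max_left _ _
  have hb1 : M - TT V (1 / 2) 0 ≤ b := le_max_right _ _
  have hcU : ∀ y' : ℝ, Continuous fun x : ℝ => U (pt x y') := fun y' => by
    unfold pt; fun_prop
  have hcV : ∀ y' : ℝ, Continuous fun x : ℝ => V (pt x y') := fun y' => by
    unfold pt; fun_prop
  have hM0 : 0 ≤ M := by
    have h1 := hM 0 0
    have h2 : 0 ≤ ∫ x in (0 : ℝ)..(0 + 1), U (pt x 0) :=
      intervalIntegral.integral_nonneg (by norm_num) fun _ _ => U0 _
    simp only [abs_zero, zero_add] at h1 h2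
    linarith
  -- coercivity
  obtain ⟨R, hR0, hR⟩ : ∃ R : ℝ, 0 < R ∧ ∀ a w : ℝ, (R ≤ |a| ∨ R ≤ |w|) →
      |w| + M - κ * a ^ 2 - κ * w ^ 2 ≤ 0 := by
    refine ⟨1 + (2 / κ) * (M + 1 / (2 * κ)), by positivity, ?_⟩
    intro a w haw
    set R := 1 + (2 / κ) * (M + 1 / (2 * κ)) with hRdef
    have hR1 : 1 ≤ R := by
      have : 0 ≤ (2 / κ) * (M + 1 / (2 * κ)) := by positivity
      linarith
    have h1 : R ≤ a ^ 2 + w ^ 2 := by
      rcases haw with h | h
      · have : R ^ 2 ≤ a ^ 2 := by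
          rw [← sq_abs a]
          exact pow_le_pow_left₀ (by linarith) h 2
        nlinarith [sq_nonneg w]
      · have : R ^ 2 ≤ w ^ 2 := by
          rw [← sq_abs w]
          exact pow_le_pow_left₀ (by linarith) h 2
        nlinarith [sq_nonneg a]
    have h2 : |w| ≤ κ * w ^ 2 / 2 + 1 / (2 * κ) := by
      have h3 : 0 ≤ (κ * |w| - 1) ^ 2 := sq_nonneg _
      have h4 : κ * w ^ 2 / 2 + 1 / (2 * κ) - |w| = (κ * |w| - 1) ^ 2 / (2 * κ) := by
        rw [← sq_abs w]
        field_simp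
        ring
      have h5 : 0 ≤ (κ * |w| - 1) ^ 2 / (2 * κ) := by positivity
      linarith
    have h6 : κ / 2 * R = κ / 2 + (M + 1 / (2 * κ)) := by
      rw [hRdef]
      field_simp
    have h7 : κ / 2 * R ≤ κ / 2 * (a ^ 2 + w ^ 2) := by
      apply mul_le_mul_of_nonneg_left h1 (by positivity)
    nlinarith [sq_nonneg a]
  -- the bound on a compact set
  obtain ⟨Λ, hΛ0, hΛ⟩ : ∃ Λ : ℝ, 0 < Λ ∧ ∀ x w : ℝ, |x| ≤ R + 2 → |w| ≤ R + 1 → U (pt x w) < Λ := by
    have hK : IsCompact (Icc (-(R + 2)) (R + 2) ×ˢ Icc (-(R + 1)) (R + 1)) :=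
      isCompact_Icc.prod isCompact_Icc
    have hc : ContinuousOn (fun q : ℝ × ℝ => U (pt q.1 q.2))
        (Icc (-(R + 2)) (R + 2) ×ˢ Icc (-(R + 1)) (R + 1)) :=
      (cU.comp continuous_pt).continuousOn
    obtain ⟨B, hB⟩ := (hK.bddAbove_image hc)
    refine ⟨|B| + 1, by positivity, ?_⟩
    intro x w hx hw
    have : U (pt x w) ≤ B := hB ⟨(x, w), ⟨abs_le.1 hx, abs_le.1 hw⟩, rfl⟩
    linarith [le_abs_self B]
  -- the maximum
  set Ψ : ℝ × ℝ × ℝ → ℝ := fun p => GG U Λ p - κ * p.1 ^ 2 - TT V p.2.1 p.2.2 - κ * p.2.2 ^ 2 -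
    3 * κ * (p.2.1 - p.2.1 ^ 2) with hΨ
  have hΨc : Continuous Ψ := by
    have h1 := GG_cont cU Λ
    have h2 : Continuous fun p : ℝ × ℝ × ℝ => TT V p.2.1 p.2.2 :=
      (TT_cont cV).comp (f := fun p : ℝ × ℝ × ℝ => ((p.2.1, p.2.2) : ℝ × ℝ)) (by fun_prop)
    rw [hΨ]
    fun_prop
  have hGM : ∀ a s w : ℝ, GG U Λ (a, s, w) ≤ |w| + M := by
    intro a s w
    have h1 := GG_le cU hΛ0.le a s w (c := 0) (left_mem_Icc.2 hΛ0.le)
    rw [phi_zero (fun x => U0 _)] at h1
    exact h1.trans (hM a w)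
  have hTTn : ∀ s w : ℝ, 0 ≤ s → 0 ≤ TT V s w := fun s w hs => TT_nonneg V0 hs w
  have main : ∀ a s w : ℝ, |a| ≤ R → |w| ≤ R → 0 ≤ s → s ≤ 1 / 2 → Ψ (a, s, w) ≤ b := by
    have hK : IsCompact (Icc (-R) R ×ˢ (Icc (0 : ℝ) (1 / 2) ×ˢ Icc (-R) R)) :=
      isCompact_Icc.prod (isCompact_Icc.prod isCompact_Icc)
    obtain ⟨⟨a0, s0, w0⟩, hp0, hmax⟩ := hK.exists_isMaxOn
      ⟨(0, 0, 0), by constructor <;> [skip; constructor] <;> simp [hR0.le]⟩ hΨc.continuousOn
    have hmax' : ∀ a s w : ℝ, |a| ≤ R → |w| ≤ R → 0 ≤ s → s ≤ 1 / 2 →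
        Ψ (a, s, w) ≤ Ψ (a0, s0, w0) := by
      intro a s w ha hw hs0 hs1
      exact hmax (a := (a, s, w)) ⟨abs_le.1 ha, ⟨hs0, hs1⟩, abs_le.1 hw⟩
    have ha0 : |a0| ≤ R := abs_le.2 hp0.1
    have hw0 : |w0| ≤ R := abs_le.2 hp0.2.2
    have hs0 : 0 ≤ s0 := hp0.2.1.1
    have hs1 : s0 ≤ 1 / 2 := hp0.2.1.2
    suffices hfin : Ψ (a0, s0, w0) ≤ b from
      fun a s w ha hw hs0 hs1 => (hmax' a s w ha hw hs0 hs1).trans hfin
    by_contra hcon
    push Not at hcon
    set A := Ψ (a0, s0, w0) with hAdef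
    have hAeq : GG U Λ (a0, s0, w0) = A + κ * a0 ^ 2 + TT V s0 w0 + κ * w0 ^ 2 +
        3 * κ * (s0 - s0 ^ 2) := by
      rw [hAdef, hΨ]
      ring
    have hq : 0 ≤ 3 * κ * (s0 - s0 ^ 2) := by
      have : 0 ≤ s0 - s0 ^ 2 := by nlinarith
      positivity
    have hTT0 := hTTn s0 w0 hs0
    have hka : 0 ≤ κ * a0 ^ 2 := by positivity
    have hkw : 0 ≤ κ * w0 ^ 2 := by positivity
    have ha0' : |a0| < R := by
      by_contra hh
      push Not at hh
      have := hR a0 w0 (Or.inl hh)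
      have := hGM a0 s0 w0
      linarith
    have hw0' : |w0| < R := by
      by_contra hh
      push Not at hh
      have := hR a0 w0 (Or.inr hh)
      have := hGM a0 s0 w0
      linarith
    have hlt : ∀ x ∈ Icc a0 (a0 + 1), U (pt x w0) < Λ := by
      intro x hx
      apply hΛ
      · have := abs_le.1 ha0
        rw [abs_le]
        constructor <;> linarith [hx.1, hx.2, this.1, this.2]
      · linarith
    -- `s0 ≠ 0`
    have hs0' : 0 < s0 := by
      apply lt_of_le_of_ne hs0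
      intro h0
      have h1 := GG_le cU hΛ0.le a0 s0 w0 (c := Λ) (right_mem_Icc.2 hΛ0.le)
      have h2 : phi (fun x => U (pt x w0)) a0 (2 * s0) Λ = 0 := by
        rw [phi_eq, ← h0]
        rw [setIntegral_congr_fun (g := fun _ => (0 : ℝ)) measurableSet_Icc]
        · simp
        · intro x hx
          exact max_eq_right (by linarith [hlt x hx])
      linarith
    -- `s0 ≠ 1/2`
    have hs1' : s0 < 1 / 2 := by
      apply lt_of_le_of_ne hs1
      intro h0
      have h1 := hGM a0 s0 w0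
      have h2 := hVw w0
      rw [← h0] at h2 hb1
      linarith
    -- `w0 ≠ 0 ∨ s0 < t0`
    have hcase : w0 ≠ 0 ∨ s0 < t0 := by
      by_contra hh
      push Not at hh
      obtain ⟨hh1, hh2⟩ := hh
      have h1 := hGM a0 s0 w0
      have h2 : TT V s0 w0 = TT V (1 / 2) 0 := by
        rw [hh1]
        unfold TT
        have hi : ∀ a b : ℝ, IntervalIntegrable (fun x : ℝ => V (pt x 0)) volume a b :=
          fun a b => (hcV 0).intervalIntegrable a b
        rw [← intervalIntegral.integral_add_adjacent_intervals (hi (-(1 / 2)) (-s0)) (hi (-s0) (1 / 2)),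
          ← intervalIntegral.integral_add_adjacent_intervals (hi (-s0) s0) (hi s0 (1 / 2))]
        have e1 : ∫ x in (-(1 / 2))..(-s0), V (pt x 0) = 0 := by
          rw [intervalIntegral.integral_of_le (by linarith)]
          rw [setIntegral_congr_fun (g := fun _ => (0 : ℝ)) measurableSet_Ioc]
          · simp
          · intro x hx
            have hx0 : |x| = -x := abs_of_neg (by linarith [hx.2])
            exact hVz x (by rw [hx0]; linarith [hx.2]) (by rw [hx0]; linarith [hx.1])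
        have e2 : ∫ x in s0..(1 / 2), V (pt x 0) = 0 := by
          rw [intervalIntegral.integral_of_le (by linarith)]
          rw [setIntegral_congr_fun (g := fun _ => (0 : ℝ)) measurableSet_Ioc]
          · simp
          · intro x hx
            have hx0 : |x| = x := abs_of_pos (by linarith [hx.1])
            exact hVz x (by rw [hx0]; linarith [hx.1]) (by rw [hx0]; linarith [hx.2])
        rw [e1, e2]
        ring
      have hw00 : |w0| = 0 := by rw [hh1, abs_zero]
      linarith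
    -- the main alternative
    have alt : ∀ c ∈ Icc 0 Λ, GG U Λ (a0, s0, w0) = phi (fun x => U (pt x w0)) a0 (2 * s0) c →
        (∀ c' ∈ Icc 0 Λ, phi (fun x => U (pt x w0)) a0 (2 * s0) c ≤
          phi (fun x => U (pt x w0)) a0 (2 * s0) c') → (w0 ≠ 0 ∨ c ≠ 0) → False := by
      intro c hc hGc hcmin hwc
      have hlow := lvl_lower (hcU w0) hc.2 hlt hcmin hc.1 (t := 2 * s0) (by linarith)
      have hcpos : 0 < c := by
        rcases hwc with hw | hw
        · apply lt_of_le_of_ne hc.1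
          intro h0
          rw [← h0] at hlow
          have : Icc a0 (a0 + 1) ∩ {x | 0 < U (pt x w0)} = Icc a0 (a0 + 1) :=
            inter_eq_left.2 fun x _ => Upos x w0 hw
          rw [this, measureReal_def, Real.volume_Icc, show a0 + 1 - a0 = 1 by ring] at hlow
          simp at hlow
          linarith
        · exact lt_of_le_of_ne hc.1 (Ne.symm hw)
      have hupp := lvl_upper (hcU w0) hc.2 hcpos hcmin
      -- the set
      obtain ⟨F0, hF0m, hF0s, hF0v, hF0b, hF0i⟩ : ∃ F0 : Set ℝ, MeasurableSet F0 ∧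
          F0 ⊆ Icc a0 (a0 + 1) ∧ volume.real F0 = 2 * s0 ∧ HasBlocks F0 a0 ∧
          phi (fun x => U (pt x w0)) a0 (2 * s0) c = ∫ x in F0, U (pt x w0) := by
        by_cases hl : volume {x : ℝ | U (pt x w0) = c} = 0
        · have heq : volume.real (Icc a0 (a0 + 1) ∩ {x | c ≤ U (pt x w0)}) ≤
              volume.real (Icc a0 (a0 + 1) ∩ {x | c < U (pt x w0)}) := by
            have hsub : Icc a0 (a0 + 1) ∩ {x | c ≤ U (pt x w0)} ⊆
                (Icc a0 (a0 + 1) ∩ {x | c < U (pt x w0)}) ∪ {x : ℝ | U (pt x w0) = c} := by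
              rintro x ⟨hx1, hx2⟩
              have hx3 : c ≤ U (pt x w0) := hx2
              rcases hx3.eq_or_lt with h | h
              · exact Or.inr h.symm
              · exact Or.inl ⟨hx1, h⟩
            have h1 : volume (Icc a0 (a0 + 1) ∩ {x | c ≤ U (pt x w0)}) ≤
                volume (Icc a0 (a0 + 1) ∩ {x | c < U (pt x w0)}) := by
              refine (measure_mono hsub).trans ((measure_union_le _ _).trans ?_)
              rw [hl, add_zero]
            exact ENNReal.toReal_mono ((measure_mono inter_subset_left).trans_lt (by simp)).ne h1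
          have hv1 : volume.real (Icc a0 (a0 + 1) ∩ {x | c < U (pt x w0)}) = 2 * s0 :=
            le_antisymm hlow (hupp.trans heq)
          have hmlt : MeasurableSet {x | c < U (pt x w0)} :=
            measurableSet_lt measurable_const (hcU w0).measurable
          refine ⟨_, measurableSet_Icc.inter hmlt, inter_subset_left, hv1, ?_, ?_⟩
          · apply blocks_level (hcU w0)
            · rw [hv1]; linarith
            · linarith
          · exact value (hcU w0) hv1
        · obtain ⟨_, hall⟩ := lev w0 c (Or.inr hcpos.ne') hl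
          refine ⟨Icc a0 (a0 + 2 * s0), measurableSet_Icc,
            Icc_subset_Icc_right (by linarith), ?_, blocks_Icc (by linarith) (by linarith), ?_⟩
          · rw [measureReal_def, Real.volume_Icc, show a0 + 2 * s0 - a0 = 2 * s0 by ring,
              ENNReal.toReal_ofReal (by linarith)]
          · rw [phi]
            simp only [hall, sub_self, max_self, intervalIntegral.integral_zero, add_zero]
            rw [setIntegral_const, measureReal_def, Real.volume_Icc,
              show a0 + 2 * s0 - a0 = 2 * s0 by ring, ENNReal.toReal_ofReal (by linarith),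
              smul_eq_mul]
      -- radius
      obtain ⟨r2, hr2, hV2⟩ : ∃ r2 : ℝ, 0 < r2 ∧ ∀ r, 0 < r → r < r2 →
          ∀ x ∈ Ioc (-s0) s0, Real.circleAverage V (pt x w0) r = V (pt x w0) := by
        by_cases hw : w0 = 0
        · have hst : s0 < t0 := hcase.resolve_left (not_not.2 hw)
          refine ⟨t0 - s0, by linarith, fun r hr hr' x hx => ?_⟩
          apply mean_of_harm hr
          intro z hz
          apply hVh
          right
          rw [Metric.mem_closedBall, dist_eq_norm] at hz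
          have h1 : |(z - pt x w0).re| ≤ ‖z - pt x w0‖ := abs_re_le_norm _
          rw [sub_re, pt_re] at h1
          have h2 := abs_le.1 (h1.trans hz)
          rw [abs_lt]
          constructor <;> linarith [hx.1, hx.2, h2.1, h2.2]
        · refine ⟨|w0|, abs_pos.2 hw, fun r hr hr' x hx => ?_⟩
          apply mean_of_harm hr
          intro z hz
          apply hVh
          left
          intro hz0
          rw [Metric.mem_closedBall, dist_eq_norm] at hz
          have h1 : |(z - pt x w0).im| ≤ ‖z - pt x w0‖ := abs_im_le_norm _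
          rw [sub_im, pt_im, hz0, zero_sub, abs_neg] at h1
          linarith
      set r0 := min (min (R - |a0|) (R - |w0|)) r2 with hr0def
      have hr0 : 0 < r0 := lt_min (lt_min (by linarith) (by linarith)) hr2
      have g1 : r0 ≤ R - |a0| := (min_le_left _ _).trans (min_le_left _ _)
      have g2 : r0 ≤ R - |w0| := (min_le_left _ _).trans (min_le_right _ _)
      have g3 : r0 ≤ r2 := min_le_right _ _
      apply interior cU sU cV (A := A) hF0m hF0s hF0v hs0' hs1' hF0b hr0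
        (fun r hr hr' => hV2 r hr (hr'.trans_le g3)) hκ
      · rw [← hAeq, hGc, hF0i]
      · intro a' s' w' F' ha' hw' hs' hs'' hF'm hF's hF'v
        have i1 := hmax' a' s' w' (by
            have := abs_sub_abs_le_abs_sub a' a0
            linarith) (by
            have := abs_sub_abs_le_abs_sub w' w0
            linarith) hs' hs''
        have i2 := le_GG cU hΛ0.le (y := w') hF'm hF's hF'v
        rw [hΨ] at i1
        simp only at i1
        linarith
    obtain ⟨c, hc, hGc, hcmin⟩ := GG_spec cU hΛ0.le a0 s0 w0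
    by_cases hex : ∃ c' ∈ Icc 0 Λ, c' ≠ 0 ∧
        phi (fun x => U (pt x w0)) a0 (2 * s0) c' = GG U Λ (a0, s0, w0)
    · obtain ⟨c', hc', hne, heq⟩ := hex
      exact alt c' hc' heq.symm (fun c'' hc'' => by rw [heq, hGc]; exact hcmin c'' hc'')
        (Or.inr hne)
    · push Not at hex
      have hc0 : c = 0 := by
        by_contra hne
        exact hex c hc hne hGc.symm
      by_cases hw : w0 ≠ 0
      · exact alt c hc hGc hcmin (Or.inl hw)
      push Not at hw
      have hst : s0 < t0 := hcase.resolve_left (not_not.2 hw)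
      -- lower bound of `V`
      obtain ⟨m, hm0, hm⟩ : ∃ m : ℝ, 0 < m ∧ ∀ x ∈ Icc (-s0) s0, m ≤ V (pt x 0) := by
        obtain ⟨x1, hx1, hx1m⟩ := (isCompact_Icc (a := -s0) (b := s0)).exists_isMinOn
          ⟨0, by constructor <;> linarith⟩ (hcV 0).continuousOn
        refine ⟨V (pt x1 0), hVpos x1 ?_, fun x hx => hx1m hx⟩
        exact (abs_le.2 hx1).trans_lt hst
      -- lower bound of `phi` away from 0
      set ε := min (m / 2) Λ with hε
      have hε0 : 0 < ε := lt_min (by linarith) hΛ0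
      have hε1 : ε ≤ m / 2 := min_le_left _ _
      have hε2 : ε ≤ Λ := min_le_right _ _
      have hpc : Continuous fun c : ℝ => phi (fun x => U (pt x w0)) a0 (2 * s0) c :=
        (phi_cont cU).comp (f := fun c : ℝ => (((a0, s0, w0), c) : (ℝ × ℝ × ℝ) × ℝ)) (by fun_prop)
      obtain ⟨c1, hc1, hc1m⟩ := (isCompact_Icc (a := ε) (b := Λ)).exists_isMinOn
        ⟨ε, left_mem_Icc.2 hε2⟩ hpc.continuousOn
      have hgap : GG U Λ (a0, s0, w0) < phi (fun x => U (pt x w0)) a0 (2 * s0) c1 := by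
        apply lt_of_le_of_ne
        · rw [hGc]
          exact hcmin c1 ⟨hε0.le.trans hc1.1, hc1.2⟩
        · exact (hex c1 ⟨hε0.le.trans hc1.1, hc1.2⟩ (by linarith [hc1.1])).symm
      set D := phi (fun x => U (pt x w0)) a0 (2 * s0) c1 - GG U Λ (a0, s0, w0) with hD
      have hD0 : 0 < D := by linarith
      obtain ⟨s, hs, hss⟩ : ∃ s : ℝ, 0 < s ∧ s < min s0 (D / (2 * Λ)) :=
        exists_between (lt_min hs0' (by positivity))
      have k1 : s < s0 := hss.trans_le (min_le_left _ _)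
      have k2 : s < D / (2 * Λ) := hss.trans_le (min_le_right _ _)
      rw [lt_div_iff₀ (by positivity)] at k2
      have hGs : GG U Λ (a0, s0, w0) - 2 * s * ε ≤ GG U Λ (a0, s0 - s, w0) := by
        obtain ⟨c2, hc2, hGc2, _⟩ := GG_spec cU hΛ0.le a0 (s0 - s) w0
        have e1 : phi (fun x => U (pt x w0)) a0 (2 * (s0 - s)) c2 =
            phi (fun x => U (pt x w0)) a0 (2 * s0) c2 - 2 * s * c2 := by
          unfold phi
          ring
        rw [hGc2, e1]
        by_cases hcc : c2 ≤ ε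
        · have h1 := hcmin c2 hc2
          rw [← hGc] at h1
          have h2 : 2 * s * c2 ≤ 2 * s * ε := by nlinarith
          linarith
        · push Not at hcc
          have h1 : phi (fun x => U (pt x w0)) a0 (2 * s0) c1 ≤
            phi (fun x => U (pt x w0)) a0 (2 * s0) c2 := hc1m ⟨hcc.le, hc2.2⟩
          have h2 : 2 * s * c2 ≤ s * (2 * Λ) := by nlinarith [hc2.2]
          have h3 : 0 ≤ 2 * s * ε := by positivity
          linarith
      have hTs : 2 * s * m ≤ TT V s0 0 - TT V (s0 - s) 0 := by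
        unfold TT
        have hi : ∀ a b : ℝ, IntervalIntegrable (fun x : ℝ => V (pt x 0)) volume a b :=
          fun a b => (hcV 0).intervalIntegrable a b
        rw [← intervalIntegral.integral_add_adjacent_intervals (hi (-s0) (-(s0 - s)))
            (hi (-(s0 - s)) s0),
          ← intervalIntegral.integral_add_adjacent_intervals (hi (-(s0 - s)) (s0 - s))
            (hi (s0 - s) s0)]
        have e1 : s * m ≤ ∫ x in (-s0)..(-(s0 - s)), V (pt x 0) := by
          have := intervalIntegral.integral_mono_on (a := -s0) (b := -(s0 - s)) (μ := volume)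
            (f := fun _ => m) (g := fun x : ℝ => V (pt x 0)) (by linarith)
            (by simp) (hi _ _) (fun x hx => hm x ⟨hx.1, by linarith [hx.2]⟩)
          rw [intervalIntegral.integral_const, smul_eq_mul] at this
          have e : -(s0 - s) - -s0 = s := by ring
          rw [e] at this
          exact this
        have e2 : s * m ≤ ∫ x in (s0 - s)..s0, V (pt x 0) := by
          have := intervalIntegral.integral_mono_on (a := s0 - s) (b := s0) (μ := volume)
            (f := fun _ => m) (g := fun x : ℝ => V (pt x 0)) (by linarith)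
            (by simp) (hi _ _) (fun x hx => hm x ⟨by linarith [hx.1], hx.2⟩)
          rw [intervalIntegral.integral_const, smul_eq_mul] at this
          have e : s0 - (s0 - s) = s := by ring
          rw [e] at this
          exact this
        linarith
      have i1 := hmax' a0 (s0 - s) w0 ha0 hw0 (by linarith) (by linarith)
      have i2 : Ψ (a0, s0 - s, w0) = GG U Λ (a0, s0 - s, w0) - κ * a0 ^ 2 - TT V (s0 - s) w0 -
        κ * w0 ^ 2 - 3 * κ * ((s0 - s) - (s0 - s) ^ 2) := rfl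
      rw [i2] at i1
      rw [hw] at i1 hAeq hGs
      have h8 : 0 ≤ κ * s * (1 - 2 * s0 + s) := by
        have : 0 ≤ 1 - 2 * s0 + s := by linarith
        positivity
      have h9 : 2 * s * ε ≤ s * m := by nlinarith
      have h10 : 0 < s * m := by positivity
      nlinarith
  -- conclusion
  have hFW : ∫ x in F, U (pt x y) ≤ |y| + M := by
    have h1 := le_GG cU hΛ0.le (θ := θ) (y := y) hFm hF hv
    exact h1.trans (hGM α θ y)
  have hq : 0 ≤ 3 * κ * (θ - θ ^ 2) := by
    have : 0 ≤ θ - θ ^ 2 := by nlinarith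
    positivity
  have hTT0 := hTTn θ y hθ0
  by_cases hin : |α| ≤ R ∧ |y| ≤ R
  · have h1 := main α θ y hin.1 hin.2 hθ0 hθ1
    have h2 := le_GG cU hΛ0.le (θ := θ) (y := y) hFm hF hv
    rw [hΨ] at h1
    simp only at h1
    linarith
  · have h1 := hR α y (by
      rw [not_and_or] at hin
      push Not at hin
      rcases hin with h | h
      · exact Or.inl h.le
      · exact Or.inr h.le)
    linarith

end Pool.Agent.TH308.RD
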