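import Pool.Agent.TH308.RD.M5
import Pool.Agent.TH304.RD.J1096
import Pool.Agent.TH304.RD.J1101
import Pool.Agent.TH308.RD.J2
import Pool.Agent.TH308.RD.J3
import Pool.Agent.TH308.RD.J3b
import Pool.Agent.TH308.RD.J4

set_option autoImplicit false

/-! The sharp comparison with the periodic set. -/

namespace Pool.Agent.TH308.RD

open MeasureTheory Set Complex Filter Topology

lemma pt_zero_eq (x : ℝ) : pt x 0 = (x : ℂ) := by simp [pt]

lemma Adm.pos_pt {E : Set ℝ} {U : ℂ → ℝ} (h : Adm E U) {x y : ℝ} (hy : y ≠ 0) : 0 < U (pt x y) :=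
  h.pos _ (not_mem_of_im (by simpa using hy))

/-- comparison with the periodic set of density `δ'`, any constant -/
theorem comp_per {E : Set ℝ} {U : ℂ → ℝ} (h : Adm E U) {δ : ℝ} (hδ : 0 < δ) (hE : RelDense 1 δ E)
    {δ' : ℝ} (h0 : 0 < δ') (h1 : δ' < 1) {M : ℝ}
    (hM : ∀ α : ℝ, ∫ x in α..(α + 1), U (pt x 0) ≤ M) (α θ y : ℝ) (hθ0 : 0 ≤ θ) (hθ1 : θ ≤ 1 / 2)
    {F : Set ℝ} (hFm : MeasurableSet F) (hF : F ⊆ Icc α (α + 1)) (hv : volume.real F = 2 * θ) :
    ∫ x in F, U (pt x y) ≤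
      TT (Uper δ') θ y + max 0 (M - TT (Uper δ') (1 / 2) 0) := by
  obtain ⟨hI, hP⟩ := h.poisson
  have hV := Uper_adm h0 h1
  obtain ⟨hI', hP'⟩ := hV.poisson
  have hnot : ∀ z : ℂ, (z.im ≠ 0 ∨ |z.re| < (1 - δ') / 2) →
      z ∉ ((fun t : ℝ => (t : ℂ)) '' (Eper δ')) := by
    rintro z hz ⟨x, hx, rfl⟩
    rcases hz with hz | hz
    · simp at hz
    · simp only [ofReal_re] at hz
      have := (Eper_inter h0 h1 (x := x) (by linarith)).1 hx
      linarith
  have key : ∀ κ : ℝ, 0 < κ → ∫ x in F, U (pt x y) ≤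
      max 0 (M - TT (Uper δ') (1 / 2) 0) + κ * α ^ 2 + TT (Uper δ') θ y + κ * y ^ 2 +
        3 * κ * (θ - θ ^ 2) := by
    intro κ hκ
    apply comp_abs (U := U) (V := Uper δ') h.cont (fun z r hr => h.submean z hr) h.nonneg
      (fun x y hy => h.pos_pt hy) (fun y c hyc hl => h.level hδ hE y c hyc hl)
      (fun a w => window_le_of h hI hP hM a w) hV.cont hV.nonneg (t0 := (1 - δ') / 2)
      (by linarith) (fun z hz => hV.harm z (hnot z hz)) ?_ ?_ ?_ hκ α θ y hθ0 hθ1 hFm hF hv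
    · intro x hx
      apply hV.pos
      apply hnot
      right
      simpa using hx
    · intro x hx1 hx2
      rw [pt_zero_eq]
      exact hV.zero x ((Eper_inter h0 h1 hx2).2 hx1)
    · intro w
      have := window_eq_of hV hI' hP' (Uper_period δ') (-(1 / 2)) w
      rw [show (-(1 / 2) + 1 : ℝ) = 1 / 2 by norm_num] at this
      exact this
  apply le_of_forall_pos_le_add
  intro ε hε
  set D := α ^ 2 + y ^ 2 + 3 * (θ - θ ^ 2) + 1 with hD
  have hD0 : 0 < D := by
    have : 0 ≤ θ - θ ^ 2 := by nlinarith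
    positivity
  have hk := key (ε / D) (by positivity)
  have e : ε / D * α ^ 2 + ε / D * y ^ 2 + 3 * (ε / D) * (θ - θ ^ 2) = ε - ε / D := by
    field_simp
    rw [hD]
    ring
  have e2 : 0 < ε / D := by positivity
  linarith

lemma TT_mono {V : ℂ → ℝ} (cV : Continuous V) (V0 : ∀ z, 0 ≤ V z) {s t : ℝ} (hs : 0 ≤ s)
    (hst : s ≤ t) : TT V s 0 ≤ TT V t 0 := by
  have _ := hs
  have hc : Continuous fun x : ℝ => V (pt x 0) := by unfold pt; fun_prop
  apply intervalIntegral.integral_mono_interval (by linarith) (by linarith) hst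
  · exact ae_of_all _ fun x => V0 _
  · exact hc.intervalIntegrable _ _

lemma TT_strict {V : ℂ → ℝ} (cV : Continuous V) (V0 : ∀ z, 0 ≤ V z) {s t : ℝ} (hs : 0 ≤ s)
    (hst : s < t) (hp : 0 < V (pt s 0)) : TT V s 0 < TT V t 0 := by
  have hc : Continuous fun x : ℝ => V (pt x 0) := by unfold pt; fun_prop
  have hi : ∀ a b : ℝ, IntervalIntegrable (fun x : ℝ => V (pt x 0)) volume a b :=
    fun a b => hc.intervalIntegrable a b
  unfold TT
  rw [← intervalIntegral.integral_add_adjacent_intervals (hi (-t) (-s)) (hi (-s) t),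
    ← intervalIntegral.integral_add_adjacent_intervals (hi (-s) s) (hi s t)]
  have h1 : 0 ≤ ∫ x in (-t)..(-s), V (pt x 0) :=
    intervalIntegral.integral_nonneg (by linarith) fun _ _ => V0 _
  have h2 : 0 < ∫ x in s..t, V (pt x 0) :=
    intervalIntegral.integral_pos hst hc.continuousOn (fun _ _ => V0 _) ⟨s, ⟨le_rfl, hst.le⟩, hp⟩
  linarith

/-- the integral over a window -/
lemma window_E {E : Set ℝ} {U : ℂ → ℝ} (h : Adm E U) {δ : ℝ} (hE : RelDense 1 δ E)
    {B : ℝ} (hδ1 : δ ≤ 1) (α : ℝ) {V : ℂ → ℝ} (cV : Continuous V) (V0 : ∀ z, 0 ≤ V z)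
    (hcomp : ∀ (θ : ℝ) (F : Set ℝ), 0 ≤ θ → θ ≤ 1 / 2 → MeasurableSet F → F ⊆ Icc α (α + 1) →
      volume.real F = 2 * θ → ∫ x in F, U (pt x 0) ≤ TT V θ 0 + B) :
    ∫ x in α..(α + 1), U (pt x 0) ≤ TT V ((1 - δ) / 2) 0 + B := by
  have hc : Continuous fun x : ℝ => U (pt x 0) := by
    have := h.cont
    unfold pt; fun_prop
  have _ := hδ1
  have hEm := h.closed.measurableSet
  have hvol : volume.real (Icc α (α + 1) \ E) ≤ 1 - δ := by
    have e1 := measureReal_inter_add_sdiff (μ := volume) (s := Icc α (α + 1)) hEm (by simp)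
    have e2 : volume.real (Icc α (α + 1)) = 1 := by
      rw [measureReal_def, Real.volume_Icc]
      simp
    have e3 : δ ≤ volume.real (Icc α (α + 1) ∩ E) := by
      rw [inter_comm, measureReal_def]
      apply (ENNReal.ofReal_le_iff_le_toReal _).1 (hE α)
      exact ((measure_mono inter_subset_right).trans_lt (by simp)).ne
    linarith
  have hpos : 0 ≤ volume.real (Icc α (α + 1) \ E) := measureReal_nonneg
  have h1 := hcomp (volume.real (Icc α (α + 1) \ E) / 2) (Icc α (α + 1) \ E) (by linarith)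
    (by
      have : volume.real (Icc α (α + 1) \ E) ≤ volume.real (Icc α (α + 1)) :=
        measureReal_mono sdiff_subset (by simp)
      rw [measureReal_def (s := Icc α (α + 1)), Real.volume_Icc] at this
      simp at this
      linarith) (measurableSet_Icc.diff hEm) sdiff_subset (by ring)
  have h2 := TT_mono cV V0 (s := volume.real (Icc α (α + 1) \ E) / 2) (t := (1 - δ) / 2)
    (by linarith) (by linarith)
  have h3 : ∫ x in α..(α + 1), U (pt x 0) = ∫ x in Icc α (α + 1) \ E, U (pt x 0) := by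
    rw [intervalIntegral.integral_of_le (by linarith), ← integral_Icc_eq_integral_Ioc,
      ← integral_inter_add_sdiff hEm hc.integrableOn_Icc]
    rw [setIntegral_congr_fun (g := fun _ => (0 : ℝ)) (measurableSet_Icc.inter hEm)]
    · simp
    · intro x hx
      show U (pt x 0) = 0
      rw [pt_zero_eq]
      exact h.zero x hx.2
  rw [h3]
  linarith

lemma relDense_le_one {E : Set ℝ} {δ : ℝ} (hE : RelDense 1 δ E) : δ ≤ 1 := by
  have h1 := hE 0
  have h2 : volume (E ∩ Icc 0 (0 + 1)) ≤ 1 := by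
    refine (measure_mono inter_subset_right).trans ?_
    simp
  have h3 := h1.trans h2
  by_contra hh
  push Not at hh
  have : (1 : ENNReal) < ENNReal.ofReal δ := by
    rw [← ENNReal.ofReal_one]
    exact (ENNReal.ofReal_lt_ofReal_iff (by linarith)).2 hh
  exact absurd h3 (not_le.2 this)

/-- comparison with the periodic set of any smaller density -/
theorem comp_lt {E : Set ℝ} {U : ℂ → ℝ} (h : Adm E U) {δ : ℝ} (hE : RelDense 1 δ E)
    {δ' : ℝ} (h0 : 0 < δ') (h1 : δ' < δ) (α θ y : ℝ) (hθ0 : 0 ≤ θ) (hθ1 : θ ≤ 1 / 2)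
    {F : Set ℝ} (hFm : MeasurableSet F) (hF : F ⊆ Icc α (α + 1)) (hv : volume.real F = 2 * θ) :
    ∫ x in F, U (pt x y) ≤ TT (Uper δ') θ y := by
  have hδ : 0 < δ := h0.trans h1
  have hδ1 := relDense_le_one hE
  have h1' : δ' < 1 := h1.trans_le hδ1
  have hV := Uper_adm h0 h1'
  obtain ⟨hI, hP⟩ := h.poisson
  obtain ⟨B, hB⟩ := window_bdd_of h (fun z r hr => h.submean z hr) hI hP hδ hE
  set M := sSup (range fun α : ℝ => ∫ x in α..(α + 1), U (pt x 0)) with hMdef
  have hbdd : BddAbove (range fun α : ℝ => ∫ x in α..(α + 1), U (pt x 0)) := by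
    refine ⟨B, ?_⟩
    rintro _ ⟨a, rfl⟩
    exact hB a
  have hM : ∀ α : ℝ, ∫ x in α..(α + 1), U (pt x 0) ≤ M := fun a => le_csSup hbdd ⟨a, rfl⟩
  have hcomp := fun (α θ y : ℝ) (hθ0 : 0 ≤ θ) (hθ1 : θ ≤ 1 / 2) (F : Set ℝ)
    (hFm : MeasurableSet F) (hF : F ⊆ Icc α (α + 1)) (hv : volume.real F = 2 * θ) =>
    comp_per h hδ hE h0 h1' hM α θ y hθ0 hθ1 hFm hF hv
  have hle : M ≤ TT (Uper δ') ((1 - δ) / 2) 0 + max 0 (M - TT (Uper δ') (1 / 2) 0) := by
    apply csSup_le (range_nonempty _)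
    rintro _ ⟨a, rfl⟩
    exact window_E h hE hδ1 a hV.cont hV.nonneg
      (fun θ F hθ0 hθ1 hFm hF hv => hcomp a θ 0 hθ0 hθ1 F hFm hF hv)
  have hst : TT (Uper δ') ((1 - δ) / 2) 0 < TT (Uper δ') (1 / 2) 0 := by
    apply TT_strict hV.cont hV.nonneg (by linarith) (by linarith)
    apply hV.pos
    rintro ⟨x, hx, hx'⟩
    rw [pt_zero_eq] at hx'
    have hx2 : x = (1 - δ) / 2 := Complex.ofReal_injective hx'
    have hab : |(1 - δ) / 2| = (1 - δ) / 2 := abs_of_nonneg (by linarith)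
    have := (Eper_inter h0 h1' (x := x) (by rw [hx2, hab]; linarith)).1 hx
    rw [hx2, hab] at this
    linarith
  have hb : max 0 (M - TT (Uper δ') (1 / 2) 0) = 0 := by
    apply max_eq_left
    by_contra hh
    push Not at hh
    rw [max_eq_right hh.le] at hle
    linarith
  have := hcomp α θ y hθ0 hθ1 F hFm hF hv
  rw [hb] at this
  linarith

lemma green_cont : Continuous green := by
  unfold green
  apply Continuous.log (by fun_prop)
  intro q
  have h1 : 2 ≤ ‖q - 1‖ + ‖q + 1‖ := by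
    have := norm_sub_le (q + 1) (q - 1)
    have e : (q + 1) - (q - 1) = (2 : ℂ) := by ring
    rw [e] at this
    simp at this
    linarith
  have : 0 ≤ √(((‖q - 1‖ + ‖q + 1‖) / 2) ^ 2 - 1) := Real.sqrt_nonneg _
  linarith

/-- comparison with the periodic set of the same density -/
theorem comp_eq {E : Set ℝ} {U : ℂ → ℝ} (h : Adm E U) {δ : ℝ} (hδ : 0 < δ) (hE : RelDense 1 δ E)
    (α θ y : ℝ) (hθ0 : 0 ≤ θ) (hθ1 : θ ≤ 1 / 2)
    {F : Set ℝ} (hFm : MeasurableSet F) (hF : F ⊆ Icc α (α + 1)) (hv : volume.real F = 2 * θ) :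
    ∫ x in F, U (pt x y) ≤ TT (Uper δ) θ y := by
  have hδ1 := relDense_le_one hE
  have hcont : Continuous fun k : ℝ =>
      ∫ x in (-θ)..θ, green (Complex.cos (Real.pi * pt x y) * k) / Real.pi := by
    apply intervalIntegral.continuous_parametric_intervalIntegral_of_continuous'
    have := green_cont
    unfold pt
    fun_prop
  have hk : ContinuousAt (fun d : ℝ => (Real.sin (Real.pi * d / 2))⁻¹) δ := by
    apply ContinuousAt.inv₀ (by fun_prop)
    have hpi := Real.pi_pos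
    apply ne_of_gt
    apply Real.sin_pos_of_pos_of_lt_pi (by positivity)
    nlinarith
  have heq : ∀ d : ℝ, TT (Uper d) θ y =
      ∫ x in (-θ)..θ, green (Complex.cos (Real.pi * pt x y) * ((Real.sin (Real.pi * d / 2))⁻¹ : ℝ)) /
        Real.pi := by
    intro d
    unfold TT Uper
    push_cast
    simp only [div_eq_mul_inv]
  have hlim : Tendsto (fun d : ℝ => TT (Uper d) θ y) (𝓝[<] δ) (𝓝 (TT (Uper δ) θ y)) := by
    simp only [heq]
    exact ((hcont.continuousAt.comp hk).tendsto).mono_left nhdsWithin_le_nhds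
  apply ge_of_tendsto hlim
  filter_upwards [Ioo_mem_nhdsLT hδ] with d hd
  exact comp_lt h hE hd.1 hd.2 α θ y hθ0 hθ1 hFm hF hv

/-- intervals -/
theorem comp_Icc {E : Set ℝ} {U : ℂ → ℝ} (h : Adm E U) {δ : ℝ} (hδ : 0 < δ) (hE : RelDense 1 δ E)
    (a θ y : ℝ) (hθ0 : 0 ≤ θ) (hθ1 : θ ≤ 1 / 2) :
    ∫ x in (a - θ)..(a + θ), U (pt x y) ≤ TT (Uper δ) θ y := by
  rw [intervalIntegral.integral_of_le (by linarith), ← integral_Icc_eq_integral_Ioc]
  apply comp_eq h hδ hE (a - θ) θ y hθ0 hθ1 measurableSet_Icc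
    (Icc_subset_Icc_right (by linarith))
  rw [measureReal_def, Real.volume_Icc, ENNReal.toReal_ofReal (by linarith)]
  ring

/-- pointwise bound -/
theorem bound_per {E : Set ℝ} {U : ℂ → ℝ} (h : Adm E U) {δ : ℝ} (hδ : 0 < δ) (hδ1 : δ < 1)
    (hE : RelDense 1 δ E) (a : ℝ) : U (a : ℂ) ≤ Uper δ 0 := by
  by_contra hh
  push Not at hh
  obtain ⟨m, hm1, hm2⟩ := exists_between hh
  have hcU : Continuous fun x : ℝ => U (pt x 0) := by
    have := h.cont
    unfold pt; fun_prop
  have cV := (Uper_adm hδ hδ1).cont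
  have hcV : Continuous fun x : ℝ => Uper δ (pt x 0) := by
    unfold pt; fun_prop
  have e1 : ∀ᶠ x in 𝓝 a, m < U (pt x 0) :=
    hcU.continuousAt.eventually_const_lt (by show m < U (pt a 0); rw [pt_zero_eq]; exact hm2)
  have e2 : ∀ᶠ x in 𝓝 (0 : ℝ), Uper δ (pt x 0) < m :=
    hcV.continuousAt.eventually_lt_const (by show Uper δ (pt 0 0) < m; rw [pt_zero_eq]; simpa using hm1)
  obtain ⟨r1, hr1, H1⟩ := Metric.eventually_nhds_iff.1 e1
  obtain ⟨r2, hr2, H2⟩ := Metric.eventually_nhds_iff.1 e2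
  obtain ⟨θ, hθ, hθ'⟩ : ∃ θ : ℝ, 0 < θ ∧ θ < min (min r1 r2) (1 / 2) :=
    exists_between (lt_min (lt_min hr1 hr2) (by norm_num))
  have k1 : θ < r1 := hθ'.trans_le ((min_le_left _ _).trans (min_le_left _ _))
  have k2 : θ < r2 := hθ'.trans_le ((min_le_left _ _).trans (min_le_right _ _))
  have k3 : θ < 1 / 2 := hθ'.trans_le (min_le_right _ _)
  have hc := comp_Icc h hδ hE a θ 0 hθ.le k3.le
  have b1 : 2 * θ * m < ∫ x in (a - θ)..(a + θ), U (pt x 0) := by
    have : 0 < ∫ x in (a - θ)..(a + θ), (U (pt x 0) - m) := by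
      have hcm : Continuous fun x : ℝ => U (pt x 0) - m := hcU.sub continuous_const
      apply intervalIntegral.integral_pos (by linarith) hcm.continuousOn
      · intro x hx
        have := H1 (y := x) (by rw [Real.dist_eq, abs_lt]; constructor <;> linarith [hx.1, hx.2])
        linarith
      · refine ⟨a, ⟨by linarith, by linarith⟩, ?_⟩
        have := H1 (y := a) (by simpa using hr1)
        linarith
    rw [intervalIntegral.integral_sub (hcU.intervalIntegrable _ _) (by simp),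
      intervalIntegral.integral_const, smul_eq_mul] at this
    linarith
  have b2 : TT (Uper δ) θ 0 ≤ 2 * θ * m := by
    unfold TT
    have := intervalIntegral.integral_mono_on (a := -θ) (b := θ) (μ := volume)
      (f := fun x : ℝ => Uper δ (pt x 0)) (g := fun _ => m) (by linarith)
      (hcV.intervalIntegrable _ _) (by simp) (fun x hx => (H2 (y := x) (by
        rw [Real.dist_eq, abs_lt]; constructor <;> linarith [hx.1, hx.2])).le)
    rw [intervalIntegral.integral_const, smul_eq_mul] at this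
    linarith
  linarith

end Pool.Agent.TH308.RD
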