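import Pool.Agent.TH308.RD.M6

set_option autoImplicit false

/-! The area mean value, and the case of equality. -/

namespace Pool.Agent.TH308.RD

open MeasureTheory Set Complex Filter Topology

lemma circleAverage_zero_eq (W : ℂ → ℝ) (ρ : ℝ) :
    2 * Real.pi * Real.circleAverage W 0 ρ =
      ∫ s in (-Real.pi)..Real.pi, W (pt (ρ * Real.cos s) (ρ * Real.sin s)) := by
  have hper : Function.Periodic (fun s : ℝ => W (pt (ρ * Real.cos s) (ρ * Real.sin s)))
      (2 * Real.pi) := by
    intro s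
    simp
  have h1 := hper.intervalIntegral_add_eq (-Real.pi) 0
  rw [show -Real.pi + 2 * Real.pi = Real.pi by ring, zero_add] at h1
  rw [h1, Real.circleAverage_def]
  have h2 : ∀ s : ℝ, circleMap 0 ρ s = pt (ρ * Real.cos s) (ρ * Real.sin s) := by
    intro s
    have := circleMap_pt 0 0 ρ s
    rw [zero_add, zero_add] at this
    rw [← this]
    congr 1
    simp [pt]
  simp only [h2, smul_eq_mul]
  have := Real.pi_pos
  field_simp

lemma area_eq {W : ℂ → ℝ} (hW : Continuous W) {r : ℝ} (hr : 0 < r) :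
    ∫ y in (-r)..r, TT W (√(r ^ 2 - y ^ 2)) y =
      ∫ ρ in (0 : ℝ)..r, ρ * (2 * Real.pi * Real.circleAverage W 0 ρ) := by
  have hpi := Real.pi_pos
  set B : Set (ℝ × ℝ) := {p | p.1 ^ 2 + p.2 ^ 2 < r ^ 2} with hB
  have hBo : IsOpen B := isOpen_lt (by fun_prop) continuous_const
  have hBm : MeasurableSet B := hBo.measurableSet
  set f : ℝ × ℝ → ℝ := B.indicator (fun p => W (pt p.1 p.2)) with hf
  have hWc : Continuous fun p : ℝ × ℝ => W (pt p.1 p.2) := hW.comp continuous_pt
  have hBsub : B ⊆ Icc (-r) r ×ˢ Icc (-r) r := by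
    rintro ⟨x, y⟩ hp
    have hp' : x ^ 2 + y ^ 2 < r ^ 2 := hp
    have h1 : |x| ≤ r := abs_le_of_sq_le_sq (by nlinarith [sq_nonneg y]) hr.le
    have h2 : |y| ≤ r := abs_le_of_sq_le_sq (by nlinarith [sq_nonneg x]) hr.le
    exact ⟨abs_le.1 h1, abs_le.1 h2⟩
  have hfi : Integrable f (volume.prod volume) := by
    rw [hf, integrable_indicator_iff hBm]
    exact (hWc.continuousOn.integrableOn_compact (isCompact_Icc.prod isCompact_Icc)).mono_set hBsub
  -- Cartesian
  have hcart : ∫ p, f p = ∫ y in (-r)..r, TT W (√(r ^ 2 - y ^ 2)) y := by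
    have e0 : ∫ p, f p = ∫ y, ∫ x, f (x, y) := integral_prod_symm f hfi
    rw [e0, intervalIntegral.integral_of_le (by linarith), integral_Ioc_eq_integral_Ioo,
      ← integral_indicator measurableSet_Ioo]
    congr 1
    ext y
    by_cases hy : y ∈ Ioo (-r) r
    · rw [indicator_of_mem hy]
      have hy2 : 0 < r ^ 2 - y ^ 2 := by nlinarith [hy.1, hy.2]
      have hs : 0 < √(r ^ 2 - y ^ 2) := Real.sqrt_pos.2 hy2
      have hs2 : √(r ^ 2 - y ^ 2) ^ 2 = r ^ 2 - y ^ 2 := Real.sq_sqrt hy2.le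
      rw [TT, intervalIntegral.integral_of_le (by linarith), integral_Ioc_eq_integral_Ioo,
        ← integral_indicator measurableSet_Ioo]
      congr 1
      ext x
      by_cases hx : x ∈ Ioo (-√(r ^ 2 - y ^ 2)) (√(r ^ 2 - y ^ 2))
      · rw [indicator_of_mem hx, hf, indicator_of_mem]
        show x ^ 2 + y ^ 2 < r ^ 2
        have := abs_lt.2 hx
        have h3 : x ^ 2 < √(r ^ 2 - y ^ 2) ^ 2 := sq_lt_sq' hx.1 hx.2
        linarith
      · rw [indicator_of_notMem hx, hf, indicator_of_notMem]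
        intro hxB
        have hxB' : x ^ 2 + y ^ 2 < r ^ 2 := hxB
        apply hx
        have h3 : |x| < √(r ^ 2 - y ^ 2) := by
          apply abs_lt_of_sq_lt_sq _ hs.le
          linarith
        exact abs_lt.1 h3
    · rw [indicator_of_notMem hy]
      have : ∀ x : ℝ, f (x, y) = 0 := by
        intro x
        rw [hf, indicator_of_notMem]
        intro hxB
        have hxB' : x ^ 2 + y ^ 2 < r ^ 2 := hxB
        apply hy
        exact abs_lt.1 (abs_lt_of_sq_lt_sq (by nlinarith [sq_nonneg x]) hr.le)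
      simp [this]
  -- polar
  have hpol : ∫ p, f p = ∫ ρ in (0 : ℝ)..r, ρ * (2 * Real.pi * Real.circleAverage W 0 ρ) := by
    rw [← integral_comp_polarCoord_symm f]
    have e1 : ∫ p in polarCoord.target, p.1 • f (polarCoord.symm p) =
        ∫ p in polarCoord.target, (Iio r ×ˢ (univ : Set ℝ)).indicator
          (fun p : ℝ × ℝ => p.1 * W (pt (p.1 * Real.cos p.2) (p.1 * Real.sin p.2))) p := by
      apply setIntegral_congr_fun polarCoord.open_target.measurableSet
      rintro ⟨ρ, s⟩ hp
      have hρ : 0 < ρ := hp.1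
      have hsq : (ρ * Real.cos s) ^ 2 + (ρ * Real.sin s) ^ 2 = ρ ^ 2 := by
        have := Real.sin_sq_add_cos_sq s
        linear_combination ρ ^ 2 * this
      show ρ • f (ρ * Real.cos s, ρ * Real.sin s) = _
      by_cases h1 : ρ < r
      · rw [indicator_of_mem (by exact ⟨h1, mem_univ _⟩), hf, indicator_of_mem]
        · rfl
        · show (ρ * Real.cos s) ^ 2 + (ρ * Real.sin s) ^ 2 < r ^ 2
          rw [hsq]
          exact pow_lt_pow_left₀ h1 hρ.le (by norm_num)
      · rw [indicator_of_notMem (fun hh => h1 hh.1), hf, indicator_of_notMem, smul_zero]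
        intro hxB
        have hxB' : (ρ * Real.cos s) ^ 2 + (ρ * Real.sin s) ^ 2 < r ^ 2 := hxB
        rw [hsq] at hxB'
        exact h1 (lt_of_pow_lt_pow_left₀ 2 hr.le hxB')
    have hm : MeasurableSet (Iio r ×ˢ (univ : Set ℝ)) := measurableSet_Iio.prod MeasurableSet.univ
    have e2 : polarCoord.target ∩ (Iio r ×ˢ (univ : Set ℝ)) = Ioo 0 r ×ˢ Ioo (-Real.pi) Real.pi := by
      ext ⟨ρ, s⟩
      rw [polarCoord_target]
      simp only [mem_inter_iff, mem_prod, mem_Ioi, mem_Ioo, mem_Iio, mem_univ, and_true]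
      tauto
    have hcont : Continuous (fun p : ℝ × ℝ => p.1 * W (pt (p.1 * Real.cos p.2) (p.1 * Real.sin p.2))) := by
      unfold pt
      fun_prop
    rw [e1, setIntegral_indicator hm, e2]
    have e3 : ∫ p in Ioo 0 r ×ˢ Ioo (-Real.pi) Real.pi,
        p.1 * W (pt (p.1 * Real.cos p.2) (p.1 * Real.sin p.2)) =
        ∫ ρ in Ioo 0 r, ∫ s in Ioo (-Real.pi) Real.pi,
          ρ * W (pt (ρ * Real.cos s) (ρ * Real.sin s)) := by
      apply setIntegral_prod
      apply IntegrableOn.mono_set (t := Icc 0 r ×ˢ Icc (-Real.pi) Real.pi)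
      · exact hcont.continuousOn.integrableOn_compact (isCompact_Icc.prod isCompact_Icc)
      · exact prod_mono Ioo_subset_Icc_self Ioo_subset_Icc_self
    rw [e3, intervalIntegral.integral_of_le hr.le, integral_Ioc_eq_integral_Ioo]
    congr 1
    ext ρ
    rw [circleAverage_zero_eq, integral_const_mul, intervalIntegral.integral_of_le (by linarith),
      integral_Ioc_eq_integral_Ioo]
  rw [← hcart, hpol]

end Pool.Agent.TH308.RD
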