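import Pool.Agent.TH308.RD.M7

set_option autoImplicit false

/-! The case of equality. -/

namespace Pool.Agent.TH308.RD

open MeasureTheory Set Complex Filter Topology

lemma hasDerivAt_shift {g : ℝ → ℝ} (hg : Continuous g) (a c : ℝ) (s : ℝ) :
    HasDerivAt (fun t : ℝ => ∫ x in a..(c + s * t), g x) (s * g c) 0 := by
  have h1 : HasDerivAt (fun t : ℝ => ∫ x in a..t, g x) (g (c + s * 0)) (c + s * 0) :=
    (hg.integral_hasStrictDerivAt a (c + s * 0)).hasDerivAt
  have h2 : HasDerivAt (fun t : ℝ => c + s * t) s 0 := by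
    simpa using ((hasDerivAt_id (0 : ℝ)).const_mul s).const_add c
  have h3 := h1.comp (0 : ℝ) h2
  rw [mul_zero, add_zero, mul_comm] at h3
  exact h3

lemma hasDerivAt_TT {W : ℂ → ℝ} (cW : Continuous W) (θ y : ℝ) :
    HasDerivAt (fun t : ℝ => TT W (θ + t) y) (W (pt θ y) + W (pt (-θ) y)) 0 := by
  have hc : Continuous fun x : ℝ => W (pt x y) := by unfold pt; fun_prop
  have e : (fun t : ℝ => TT W (θ + t) y) = fun t : ℝ =>
      (∫ x in (0 : ℝ)..(θ + 1 * t), W (pt x y)) - ∫ x in (0 : ℝ)..(-θ + (-1) * t), W (pt x y) := by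
    ext t
    unfold TT
    rw [intervalIntegral.integral_interval_sub_left (hc.intervalIntegrable _ _)
      (hc.intervalIntegrable _ _)]
    congr 1 <;> ring
  rw [e]
  have := (hasDerivAt_shift hc 0 θ 1).sub (hasDerivAt_shift hc 0 (-θ) (-1))
  have e2 : W (pt θ y) + W (pt (-θ) y) = 1 * W (pt θ y) - -1 * W (pt (-θ) y) := by ring
  rw [e2]
  exact this

lemma cA_cont {W : ℂ → ℝ} (cW : Continuous W) :
    Continuous fun ρ : ℝ => ρ * (2 * Real.pi * Real.circleAverage W 0 ρ) := by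
  simp_rw [circleAverage_zero_eq]
  apply Continuous.mul continuous_id
  apply intervalIntegral.continuous_parametric_intervalIntegral_of_continuous'
  unfold pt
  fun_prop

lemma disc_zero {u V : ℂ → ℝ} (cu : Continuous u) (cV : Continuous V) {t0 : ℝ} (ht0 : t0 ≤ 1 / 2)
    (hsub : ∀ ρ : ℝ, 0 < ρ → u 0 ≤ Real.circleAverage u 0 ρ)
    (hmean : ∀ ρ : ℝ, 0 < ρ → ρ < t0 → Real.circleAverage V 0 ρ = V 0) (heq : u 0 = V 0)
    (hle : ∀ θ y : ℝ, 0 ≤ θ → θ ≤ 1 / 2 → TT u θ y ≤ TT V θ y) {θ y : ℝ} (hθ : 0 ≤ θ)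
    (hr : θ ^ 2 + y ^ 2 < t0 ^ 2) (ht00 : 0 < t0) : TT u θ y = TT V θ y := by
  have hpi := Real.pi_pos
  rcases hθ.eq_or_lt with h0 | hθ0
  · rw [← h0]
    simp [TT]
  set r := √(θ ^ 2 + y ^ 2) with hrdef
  have hr0 : 0 < r := Real.sqrt_pos.2 (by positivity)
  have hr2 : r ^ 2 = θ ^ 2 + y ^ 2 := Real.sq_sqrt (by positivity)
  have hrt : r < t0 := lt_of_pow_lt_pow_left₀ 2 ht00.le (by rw [hr2]; exact hr)
  set f : ℝ → ℝ := fun y => TT V (√(r ^ 2 - y ^ 2)) y - TT u (√(r ^ 2 - y ^ 2)) y with hf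
  have hc1 : Continuous fun y : ℝ => TT V (√(r ^ 2 - y ^ 2)) y :=
    (TT_cont cV).comp (f := fun y : ℝ => ((√(r ^ 2 - y ^ 2), y) : ℝ × ℝ)) (by fun_prop)
  have hc2 : Continuous fun y : ℝ => TT u (√(r ^ 2 - y ^ 2)) y :=
    (TT_cont cu).comp (f := fun y : ℝ => ((√(r ^ 2 - y ^ 2), y) : ℝ × ℝ)) (by fun_prop)
  have hint : ∫ y in (-r)..r, f y ≤ 0 := by
    rw [hf, intervalIntegral.integral_sub (hc1.intervalIntegrable _ _) (hc2.intervalIntegrable _ _),
      area_eq cV hr0, area_eq cu hr0, ← intervalIntegral.integral_sub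
        ((cA_cont cV).intervalIntegrable _ _) ((cA_cont cu).intervalIntegrable _ _)]
    rw [intervalIntegral.integral_of_le hr0.le, integral_Ioc_eq_integral_Ioo]
    apply setIntegral_nonpos measurableSet_Ioo
    intro ρ hρ
    rw [hmean ρ hρ.1 (hρ.2.trans hrt), ← heq]
    have := hsub ρ hρ.1
    have h1 : 0 ≤ ρ * (2 * Real.pi) * (Real.circleAverage u 0 ρ - u 0) := by
      have : 0 ≤ Real.circleAverage u 0 ρ - u 0 := by linarith
      have := hρ.1
      positivity
    linarith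
  have hnn : ∀ w ∈ Icc (-r) r, 0 ≤ f w := by
    intro w hw
    have hs0 : 0 ≤ √(r ^ 2 - w ^ 2) := Real.sqrt_nonneg _
    have hs1 : √(r ^ 2 - w ^ 2) ≤ 1 / 2 := by
      apply (Real.sqrt_le_sqrt (show r ^ 2 - w ^ 2 ≤ r ^ 2 by nlinarith [sq_nonneg w])).trans
      rw [Real.sqrt_sq hr0.le]
      linarith
    have := hle _ w hs0 hs1
    rw [hf]
    simp only
    linarith
  have hyr : y ∈ Icc (-r) r := abs_le.1 (abs_le_of_sq_le_sq (by nlinarith) hr0.le)
  have hfy : f y = 0 := by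
    apply le_antisymm _ (hnn y hyr)
    by_contra hh
    push Not at hh
    have : 0 < ∫ y in (-r)..r, f y :=
      intervalIntegral.integral_pos (by linarith) (hc1.sub hc2).continuousOn
        (fun x hx => hnn x (Ioc_subset_Icc_self hx)) ⟨y, hyr, hh⟩
    linarith
  have hsq : √(r ^ 2 - y ^ 2) = θ := by
    rw [hr2, add_sub_cancel_right, Real.sqrt_sq hθ]
  rw [hf] at hfy
  simp only [hsq] at hfy
  linarith

lemma pt_self (z : ℂ) : pt z.re z.im = z := by
  apply Complex.ext <;> simp [pt]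

/-- the reflection in the imaginary axis -/
noncomputable def rfl' (z : ℂ) : ℂ := pt (-z.re) z.im

lemma analytic_rfl {f : ℂ → ℝ} {z : ℂ} (h : AnalyticAt ℝ f (rfl' z)) :
    AnalyticAt ℝ (fun z => f (rfl' z)) z := by
  have h1 : AnalyticAt ℝ rfl' z := by
    have e : rfl' = fun z : ℂ => -(starRingEnd ℂ) z := by
      ext z
      apply Complex.ext <;> simp [rfl', pt]
    rw [e]
    exact (Complex.conjCLE.toContinuousLinearMap.analyticAt z).neg
  exact AnalyticAt.fun_comp_of_eq h h1 rfl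

theorem eq_case {u V : ℂ → ℝ} (cu : Continuous u) (cV : Continuous V) {t0 : ℝ} (ht0 : t0 ≤ 1 / 2)
    (ht00 : 0 < t0)
    (hsub : ∀ ρ : ℝ, 0 < ρ → u 0 ≤ Real.circleAverage u 0 ρ)
    (hmean : ∀ ρ : ℝ, 0 < ρ → ρ < t0 → Real.circleAverage V 0 ρ = V 0) (heq : u 0 = V 0)
    (hcomp : ∀ a θ y : ℝ, 0 ≤ θ → θ ≤ 1 / 2 → ∫ x in (a - θ)..(a + θ), u (pt x y) ≤ TT V θ y)
    (au : ∀ z : ℂ, 0 < z.im → AnalyticAt ℝ u z) (aV : ∀ z : ℂ, 0 < z.im → AnalyticAt ℝ V z)
    (hVe : ∀ x y : ℝ, V (pt (-x) y) = V (pt x y)) : ∀ z : ℂ, 0 < z.im → u z = V z := by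
  have hle : ∀ θ y : ℝ, 0 ≤ θ → θ ≤ 1 / 2 → TT u θ y ≤ TT V θ y := by
    intro θ y h0 h1
    have := hcomp 0 θ y h0 h1
    rw [zero_sub, zero_add] at this
    exact this
  have hD : ∀ θ y : ℝ, 0 ≤ θ → θ ^ 2 + y ^ 2 < t0 ^ 2 → TT u θ y = TT V θ y :=
    fun θ y h0 h1 => disc_zero cu cV ht0 hsub hmean heq hle h0 h1 ht00
  -- symmetrisation near the origin
  have hB : ∀ θ y : ℝ, 0 < θ → θ ^ 2 + y ^ 2 < t0 ^ 2 →
      u (pt θ y) + u (pt (-θ) y) = V (pt θ y) + V (pt (-θ) y) := by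
    intro θ y h0 h1
    have e1 := hasDerivAt_TT cu θ y
    have e2 := hasDerivAt_TT cV θ y
    apply e1.unique
    apply e2.congr_of_eventuallyEq
    have o1 : ∀ᶠ t in 𝓝 (0 : ℝ), 0 < θ + t :=
      (show Continuous fun t : ℝ => θ + t by fun_prop).continuousAt.eventually_const_lt
        (by simpa using h0)
    have o2 : ∀ᶠ t in 𝓝 (0 : ℝ), (θ + t) ^ 2 + y ^ 2 < t0 ^ 2 :=
      (show Continuous fun t : ℝ => (θ + t) ^ 2 + y ^ 2 by fun_prop).continuousAt.eventually_lt_const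
        (by simpa using h1)
    filter_upwards [o1, o2] with t ht1 ht2
    exact hD _ _ ht1.le ht2
  have hHP : IsPreconnected {z : ℂ | 0 < z.im} := (convex_halfSpace_im_gt 0).isPreconnected
  have hpos : ∀ z : ℂ, 0 < z.im → 0 < (rfl' z).im := by
    intro z hz
    simpa [rfl', pt] using hz
  have hC : ∀ z : ℂ, 0 < z.im → u z + u (rfl' z) = V z + V (rfl' z) := by
    have a1 : AnalyticOnNhd ℝ (fun z => u z + u (rfl' z)) {z : ℂ | 0 < z.im} :=
      fun z hz => (au z hz).add (analytic_rfl (au _ (hpos z hz)))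
    have a2 : AnalyticOnNhd ℝ (fun z => V z + V (rfl' z)) {z : ℂ | 0 < z.im} :=
      fun z hz => (aV z hz).add (analytic_rfl (aV _ (hpos z hz)))
    have hz0 : pt (t0 / 2) (t0 / 2) ∈ {z : ℂ | 0 < z.im} := by
      show 0 < (pt (t0 / 2) (t0 / 2)).im
      rw [pt_im]
      linarith
    have hev : (fun z => u z + u (rfl' z)) =ᶠ[𝓝 (pt (t0 / 2) (t0 / 2))]
        (fun z => V z + V (rfl' z)) := by
      have o1 : ∀ᶠ z in 𝓝 (pt (t0 / 2) (t0 / 2)), 0 < z.re :=
        Complex.continuous_re.continuousAt.eventually_const_lt (by rw [pt_re]; linarith)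
      have o2 : ∀ᶠ z in 𝓝 (pt (t0 / 2) (t0 / 2)), z.re ^ 2 + z.im ^ 2 < t0 ^ 2 := by
        apply (show Continuous fun z : ℂ => z.re ^ 2 + z.im ^ 2 by
          fun_prop).continuousAt.eventually_lt_const
        show (pt (t0 / 2) (t0 / 2)).re ^ 2 + (pt (t0 / 2) (t0 / 2)).im ^ 2 < t0 ^ 2
        rw [pt_re, pt_im]
        nlinarith
      filter_upwards [o1, o2] with z h1 h2
      have := hB z.re z.im h1 h2
      rw [pt_self] at this
      exact this
    exact fun z hz => a1.eqOn_of_preconnected_of_eventuallyEq a2 hHP hz0 hev hz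
  -- integrals over symmetric segments
  have hTT : ∀ θ y : ℝ, 0 < y → TT u θ y = TT V θ y := by
    intro θ y hy
    have hcu : Continuous fun x : ℝ => u (pt x y) := by unfold pt; fun_prop
    have hcV : Continuous fun x : ℝ => V (pt x y) := by unfold pt; fun_prop
    have hcu' : Continuous fun x : ℝ => u (pt (-x) y) := by unfold pt; fun_prop
    have hcV' : Continuous fun x : ℝ => V (pt (-x) y) := by unfold pt; fun_prop
    have e1 : ∀ W : ℂ → ℝ, ∫ x in (-θ)..θ, W (pt (-x) y) = TT W θ y := by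
      intro W
      have := intervalIntegral.integral_comp_neg (fun x => W (pt x y)) (a := -θ) (b := θ)
      rw [neg_neg] at this
      exact this
    have e2 : ∫ x in (-θ)..θ, (u (pt x y) + u (pt (-x) y)) =
        ∫ x in (-θ)..θ, (V (pt x y) + V (pt (-x) y)) := by
      congr 1
      ext x
      have := hC (pt x y) (by rw [pt_im]; exact hy)
      simpa [rfl'] using this
    rw [intervalIntegral.integral_add (hcu.intervalIntegrable _ _)
        (hcu'.intervalIntegrable _ _),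
      intervalIntegral.integral_add (hcV.intervalIntegrable _ _)
        (hcV'.intervalIntegrable _ _)] at e2
    have e3 := e1 u
    have e4 := e1 V
    have e5 : ∫ x in (-θ)..θ, u (pt x y) = TT u θ y := rfl
    have e6 : ∫ x in (-θ)..θ, V (pt x y) = TT V θ y := rfl
    linarith
  -- symmetry
  have hE : ∀ a y : ℝ, 0 < y → 0 ≤ a → a ≤ 1 / 2 → u (pt a y) = u (pt (-a) y) := by
    intro a y hy ha0 ha1
    have hcu : Continuous fun x : ℝ => u (pt x y) := by unfold pt; fun_prop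
    have hd := (hasDerivAt_shift hcu 0 a 1).sub (hasDerivAt_shift hcu 0 (-a) 1)
    have hmax : IsLocalMax ((fun t : ℝ => ∫ x in (0 : ℝ)..(a + 1 * t), u (pt x y)) -
        fun t : ℝ => ∫ x in (0 : ℝ)..(-a + 1 * t), u (pt x y)) 0 := by
      apply Filter.Eventually.of_forall
      intro t
      simp only [Pi.sub_apply]
      rw [intervalIntegral.integral_interval_sub_left (hcu.intervalIntegrable _ _)
        (hcu.intervalIntegrable _ _), intervalIntegral.integral_interval_sub_left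
        (hcu.intervalIntegrable _ _) (hcu.intervalIntegrable _ _)]
      have h1 := hcomp t a y ha0 ha1
      have h2 := hTT a y hy
      rw [show -a + 1 * t = t - a by ring, show a + 1 * t = t + a by ring, mul_zero, add_zero,
        add_zero]
      have h3 : ∫ x in (-a)..a, u (pt x y) = TT u a y := rfl
      rw [h3, h2]
      exact h1
    have := hmax.hasDerivAt_eq_zero hd
    linarith
  have hF : ∀ a y : ℝ, 0 < y → 0 < a → a < 1 / 2 → u (pt a y) = V (pt a y) := by
    intro a y hy ha0 ha1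
    have h1 := hE a y hy ha0.le ha1.le
    have h2 := hC (pt a y) (by rw [pt_im]; exact hy)
    have h3 := hVe a y
    simp only [rfl', pt_re, pt_im] at h2
    linarith
  have a1 : AnalyticOnNhd ℝ u {z : ℂ | 0 < z.im} := au
  have a2 : AnalyticOnNhd ℝ V {z : ℂ | 0 < z.im} := aV
  have hz0 : pt (1 / 4) 1 ∈ {z : ℂ | 0 < z.im} := by
    show 0 < (pt (1 / 4) 1).im
    rw [pt_im]
    norm_num
  have hev : u =ᶠ[𝓝 (pt (1 / 4) 1)] V := by
    have o1 : ∀ᶠ z in 𝓝 (pt (1 / 4) 1), 0 < z.re :=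
      Complex.continuous_re.continuousAt.eventually_const_lt (by rw [pt_re]; norm_num)
    have o2 : ∀ᶠ z in 𝓝 (pt (1 / 4) 1), z.re < 1 / 2 :=
      Complex.continuous_re.continuousAt.eventually_lt_const (by rw [pt_re]; norm_num)
    have o3 : ∀ᶠ z in 𝓝 (pt (1 / 4) 1), 0 < z.im :=
      Complex.continuous_im.continuousAt.eventually_const_lt (by rw [pt_im]; norm_num)
    filter_upwards [o1, o2, o3] with z h1 h2 h3
    have := hF z.re z.im h3 h1 h2
    rw [pt_self] at this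
    exact this
  exact fun z hz => a1.eqOn_of_preconnected_of_eventuallyEq a2 hHP hz0 hev hz

end Pool.Agent.TH308.RD
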