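import Pool.Agent.TH308.RD.M8

set_option autoImplicit false

/-! Affine changes of variable, uniqueness, and the final theorem. -/

namespace Pool.Agent.TH308.RD

open MeasureTheory Set Complex Filter Topology

/-- the normalisation along any vertical line -/
theorem Adm.norm_shift {E : Set ℝ} {U : ℂ → ℝ} (h : Adm E U) (a : ℝ) :
    Tendsto (fun y : ℝ => U (pt a y) / y) atTop (𝓝 1) := by
  obtain ⟨hI, hP⟩ := h.poisson
  have hpi := Real.pi_pos
  have hcu : Continuous fun t : ℝ => U (t : ℂ) := by
    have := h.cont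
    fun_prop
  set G : ℝ → ℝ := fun y => ∫ t : ℝ, 1 / (Real.pi * ((a - t) ^ 2 + y ^ 2)) * U (t : ℂ) with hG
  have hlim : Tendsto G atTop (𝓝 (∫ _ : ℝ, (0 : ℝ))) := by
    rw [hG]
    apply tendsto_integral_filter_of_dominated_convergence
      (fun t : ℝ => (2 + 2 * a ^ 2) / Real.pi * (U (t : ℂ) / (1 + t ^ 2)))
    · filter_upwards [eventually_gt_atTop 0] with y hy
      apply Continuous.aestronglyMeasurable
      apply Continuous.mul _ hcu
      apply Continuous.div continuous_const (by fun_prop)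
      intro t
      positivity
    · filter_upwards [eventually_ge_atTop 1] with y hy
      apply ae_of_all
      intro t
      have hU := h.nonneg (t : ℂ)
      rw [Real.norm_of_nonneg (by positivity)]
      have h1 : 1 / (Real.pi * ((a - t) ^ 2 + y ^ 2)) ≤ (2 + 2 * a ^ 2) / (Real.pi * (1 + t ^ 2)) := by
        rw [div_le_div_iff₀ (by positivity) (by positivity)]
        have h2 : 1 + t ^ 2 ≤ (2 + 2 * a ^ 2) * ((a - t) ^ 2 + y ^ 2) := by
          have hy2 : 1 ≤ y ^ 2 := by nlinarith
          nlinarith [sq_nonneg (a - t), sq_nonneg a, mul_nonneg (sq_nonneg a) (sq_nonneg (a - t)),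
            sq_nonneg (t - 2 * a), mul_nonneg (sq_nonneg a) (sub_nonneg.2 hy2)]
        nlinarith
      calc 1 / (Real.pi * ((a - t) ^ 2 + y ^ 2)) * U (t : ℂ)
          ≤ (2 + 2 * a ^ 2) / (Real.pi * (1 + t ^ 2)) * U (t : ℂ) :=
            mul_le_mul_of_nonneg_right h1 hU
        _ = (2 + 2 * a ^ 2) / Real.pi * (U (t : ℂ) / (1 + t ^ 2)) := by
            field_simp
    · exact hI.const_mul _
    · apply ae_of_all
      intro t
      have h1 : Tendsto (fun y : ℝ => Real.pi * ((a - t) ^ 2 + y ^ 2)) atTop atTop := by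
        apply Tendsto.const_mul_atTop hpi
        apply tendsto_atTop_add_const_left
        exact tendsto_pow_atTop (by norm_num)
      have h2 := (h1.inv_tendsto_atTop).mul_const (U (t : ℂ))
      simpa [one_div] using h2
  rw [integral_zero] at hlim
  have hlim2 : Tendsto (fun y => 1 + G y) atTop (𝓝 1) := by simpa using hlim.const_add 1
  apply hlim2.congr'
  filter_upwards [eventually_gt_atTop 0] with y hy
  rw [hP a y hy, hG]
  simp only
  rw [add_div, div_self hy.ne']
  congr 1
  rw [eq_div_iff hy.ne', mul_comm, ← integral_const_mul]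
  congr 1
  ext t
  field_simp

lemma harm_affine {U : ℂ → ℝ} {N a : ℝ} {z : ℂ}
    (h : InnerProductSpace.HarmonicAt U ((N : ℂ) * z + a)) :
    InnerProductSpace.HarmonicAt (fun w : ℂ => U ((N : ℂ) * w + a) / N) z := by
  obtain ⟨R, hR, hball⟩ := Metric.eventually_nhds_iff_ball.1 h.eventually
  obtain ⟨F, hF, hFe⟩ :=
    InnerProductSpace.HarmonicOnNhd.exists_analyticOnNhd_ball_re_eq (f := U)
      (z := (N : ℂ) * z + a) (R := R) hball
  have hF0 := hF _ (Metric.mem_ball_self hR)
  have hlin : AnalyticAt ℂ (fun w : ℂ => (N : ℂ) * w + a) z := by fun_prop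
  have hcomp : AnalyticAt ℂ (fun w : ℂ => F ((N : ℂ) * w + a)) z :=
    AnalyticAt.fun_comp_of_eq hF0 hlin rfl
  have hdiv : AnalyticAt ℂ (fun w : ℂ => F ((N : ℂ) * w + a) / (N : ℂ)) z := hcomp.div_const
  have hh := hdiv.harmonicAt_re
  apply (InnerProductSpace.harmonicAt_congr_nhds _).1 hh
  have hc : ContinuousAt (fun w : ℂ => (N : ℂ) * w + a) z := by fun_prop
  filter_upwards [hc (Metric.ball_mem_nhds _ hR)] with w hw
  have := hFe hw
  simp only at this
  rw [← this, Complex.div_ofReal_re]

/-- affine change of variable -/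
theorem Adm.affine {E : Set ℝ} {U : ℂ → ℝ} (h : Adm E U) {N : ℝ} (hN : 0 < N) (a : ℝ) :
    Adm {x : ℝ | N * x + a ∈ E} (fun z => U ((N : ℂ) * z + a) / N) := by
  have hNc : (N : ℂ) ≠ 0 := by exact_mod_cast hN.ne'
  have hnot : ∀ z : ℂ, z ∉ ((fun t : ℝ => (t : ℂ)) '' {x : ℝ | N * x + a ∈ E}) →
      (N : ℂ) * z + a ∉ ((fun t : ℝ => (t : ℂ)) '' E) := by
    rintro z hz ⟨x, hx, hx'⟩
    apply hz
    have hx2 : (x : ℂ) = (N : ℂ) * z + a := hx'
    refine ⟨(x - a) / N, ?_, ?_⟩
    · show N * ((x - a) / N) + a ∈ E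
      rw [mul_div_cancel₀ _ hN.ne', sub_add_cancel]
      exact hx
    · show (((x - a) / N : ℝ) : ℂ) = z
      push_cast
      rw [hx2, add_sub_cancel_right, mul_div_cancel_left₀ _ hNc]
  refine ⟨?_, ?_, ?_, ?_, ?_, ?_, ?_⟩
  · exact h.closed.preimage (by fun_prop : Continuous fun x : ℝ => N * x + a)
  · have := h.cont
    fun_prop
  · intro x hx
    have := h.zero (N * x + a) hx
    push_cast at this
    show U ((N : ℂ) * (x : ℂ) + a) / N = 0
    rw [this, zero_div]
  · intro z hz
    exact div_pos (h.pos _ (hnot z hz)) hN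
  · intro z hz
    exact harm_affine (h.harm _ (hnot z hz))
  · intro z
    show U ((N : ℂ) * (starRingEnd ℂ) z + a) / N = U ((N : ℂ) * z + a) / N
    rw [← h.symm ((N : ℂ) * z + a)]
    simp
  · have h1 := h.norm_shift a
    have h2 : Tendsto (fun y : ℝ => N * y) atTop atTop := Tendsto.const_mul_atTop hN tendsto_id
    have h3 := h1.comp h2
    refine h3.congr fun y => ?_
    show U (pt a (N * y)) / (N * y) = U ((N : ℂ) * ((y : ℂ) * I) + a) / N / y
    rw [div_div]
    congr 2
    unfold pt
    push_cast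
    ring

lemma RelDense.affine {E : Set ℝ} {N δ : ℝ} (h : RelDense N δ E) {m : ℝ} (hm : 0 < m) (a : ℝ) :
    RelDense (N / m) (δ / m) {x : ℝ | m * x + a ∈ E} := by
  intro b
  have h1 := h (m * b + a)
  have e1 : {x : ℝ | m * x + a ∈ E} ∩ Icc b (b + N / m) =
      (fun x => m * x) ⁻¹' ((fun x => x + a) ⁻¹' (E ∩ Icc (m * b + a) (m * b + a + N))) := by
    ext x
    simp only [mem_inter_iff, mem_ofPred_eq, mem_Icc, mem_preimage]
    have e2 : x ≤ b + N / m ↔ m * x ≤ m * b + N := by
      rw [← mul_le_mul_iff_right₀ hm, mul_add, mul_div_cancel₀ _ hm.ne']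
    have e3 : b ≤ x ↔ m * b ≤ m * x := (mul_le_mul_iff_right₀ hm).symm
    rw [e2, e3]
    constructor
    · rintro ⟨h1, h2, h3⟩
      exact ⟨h1, by linarith, by linarith⟩
    · rintro ⟨h1, h2, h3⟩
      exact ⟨h1, by linarith, by linarith⟩
  rw [e1, Real.volume_preimage_mul_left hm.ne', measure_preimage_add_right]
  have e4 : ENNReal.ofReal (δ / m) = ENNReal.ofReal |m⁻¹| * ENNReal.ofReal δ := by
    rw [← ENNReal.ofReal_mul (abs_nonneg _), abs_of_pos (inv_pos.2 hm)]
    congr 1
    field_simp
  rw [e4]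
  gcongr

/-- uniqueness of the extremal function, period one -/
theorem unique_one {E : Set ℝ} {U : ℂ → ℝ} (h : Adm E U) {δ : ℝ} (hδ : 0 < δ) (hδ1 : δ < 1)
    (hE : RelDense 1 δ E) {x0 : ℝ} (heq : U (x0 : ℂ) = Uper δ 0) :
    (∀ z : ℂ, U (z + x0) = Uper δ z) ∧ ∀ x : ℝ, x + x0 ∈ E ↔ x ∈ Eper δ := by
  have hV := Uper_adm hδ hδ1
  have hcu : Continuous fun z : ℂ => U (z + x0) := by
    have := h.cont
    fun_prop
  have hsh : ∀ x y : ℝ, pt x y + (x0 : ℂ) = pt (x + x0) y := by
    intro x y
    unfold pt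
    push_cast
    ring
  have hup : ∀ z : ℂ, 0 < z.im → U (z + x0) = Uper δ z := by
    apply eq_case (u := fun z => U (z + x0)) (V := Uper δ) (t0 := (1 - δ) / 2) hcu hV.cont
      (by linarith) (by linarith)
    · intro ρ hρ
      rw [Real.circleAverage_map_add_const, zero_add]
      exact h.submean x0 hρ
    · intro ρ hρ hρ'
      apply mean_of_harm hρ
      intro w hw
      apply hV.harm
      rintro ⟨x, hx, rfl⟩
      rw [mem_closedBall_zero_iff, Complex.norm_real, Real.norm_eq_abs] at hw
      have := (Eper_inter hδ hδ1 (x := x) (by linarith)).1 hx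
      linarith
    · simpa using heq
    · intro a θ y h0 h1
      have e : ∫ x in (a - θ)..(a + θ), U (pt x y + (x0 : ℂ)) =
          ∫ x in (a - θ)..(a + θ), U (pt (x + x0) y) := by
        congr 1
        ext x
        rw [hsh]
      have := comp_Icc h hδ hE (a + x0) θ y h0 h1
      rw [show a + x0 - θ = (a - θ) + x0 by ring, show a + x0 + θ = (a + θ) + x0 by ring,
        ← intervalIntegral.integral_comp_add_right (fun x => U (pt x y))] at this
      rw [e]
      exact this
    · intro z hz
      have h1 : AnalyticAt ℝ U (z + x0) :=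
        HarmonicAt.analyticAt (h.harm _ (not_mem_of_im (by simpa using hz.ne')))
      exact AnalyticAt.fun_comp_of_eq (g := U) (f := fun z : ℂ => z + (x0 : ℂ)) h1 (by fun_prop) rfl
    · intro z hz
      exact HarmonicAt.analyticAt (hV.harm _ (not_mem_of_im hz.ne'))
    · intro x y
      have h1 : Uper δ (-(pt x y)) = Uper δ (pt x y) := by
        unfold Uper
        rw [mul_neg, Complex.cos_neg]
      have h2 : pt (-x) y = (starRingEnd ℂ) (-(pt x y)) := by
        apply Complex.ext <;> simp [pt]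
      rw [h2, hV.symm, h1]
  have hreal : ∀ x : ℝ, U (((x + x0 : ℝ)) : ℂ) = Uper δ (x : ℂ) := by
    intro x
    have c1 : Tendsto (fun y : ℝ => U (pt (x + x0) y)) (𝓝[>] 0) (𝓝 (U (pt (x + x0) 0))) := by
      have : Continuous fun y : ℝ => U (pt (x + x0) y) := by
        have := h.cont
        unfold pt; fun_prop
      exact this.continuousAt.tendsto.mono_left nhdsWithin_le_nhds
    have c2 : Tendsto (fun y : ℝ => Uper δ (pt x y)) (𝓝[>] 0) (𝓝 (Uper δ (pt x 0))) := by
      have : Continuous fun y : ℝ => Uper δ (pt x y) := by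
        have := hV.cont
        unfold pt; fun_prop
      exact this.continuousAt.tendsto.mono_left nhdsWithin_le_nhds
    have c3 : (fun y : ℝ => U (pt (x + x0) y)) =ᶠ[𝓝[>] 0] fun y : ℝ => Uper δ (pt x y) := by
      filter_upwards [self_mem_nhdsWithin] with y hy
      have := hup (pt x y) (by rw [pt_im]; exact hy)
      rw [hsh] at this
      exact this
    have := tendsto_nhds_unique (c1.congr' c3) c2
    rw [pt_zero_eq, pt_zero_eq] at this
    exact this
  refine ⟨?_, ?_⟩
  · intro z
    rcases lt_trichotomy z.im 0 with hz | hz | hz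
    · have h1 := hup ((starRingEnd ℂ) z) (by simpa using hz)
      rw [hV.symm] at h1
      rw [← h1, ← h.symm (z + x0)]
      simp
    · have hz' : z = (z.re : ℂ) := by
        apply Complex.ext <;> simp [hz]
      have := hreal z.re
      rw [hz']
      rw [← this]
      push_cast
      rfl
    · exact hup z hz
  · intro x
    constructor
    · intro hx
      by_contra hx'
      have h1 : 0 < Uper δ (x : ℂ) := by
        apply hV.pos
        rintro ⟨t, ht, ht'⟩
        exact hx' (Complex.ofReal_injective ht' ▸ ht)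
      rw [← hreal x, h.zero _ hx] at h1
      exact lt_irrefl _ h1
    · intro hx
      by_contra hx'
      have h1 : 0 < U ((x + x0 : ℝ) : ℂ) := by
        apply h.pos
        rintro ⟨t, ht, ht'⟩
        exact hx' (Complex.ofReal_injective ht' ▸ ht)
      rw [hreal x, hV.zero _ hx] at h1
      exact lt_irrefl _ h1

end Pool.Agent.TH308.RD
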